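import Pool.Agent.Lib.MP_03ceb7_al.Mg.G001
import Pool.Agent.Lib.MP_03ceb7_al.LS.Red
import Pool.Agent.Lib.MP_03ceb7_al.LS.Ind
import Pool.Agent.Lib.MP_03ceb7_al.LS.Rk
import Pool.Agent.Lib.MP_03ceb7_al.LS.Defs

section

/-!
# TASK LS Key: the inequality for one approximation

Write `e = y * x - 1`, `k = card ι`, `T = k * (s * n ^ (k - 1))`. For `J : Finset ι` let `Ψ_J g = kron (fun t => if t ∈ J then ψ g else 1)`.
By `kron_mul` and `rank_kron_sub_le`: `rank (Ψ_J g * Ψ_J h - Ψ_J (g * h)) ≤ T` for the pairs in question, `Ψ_J 1 = 1` (`kron_one`). So (`rank_opM_sub_one_le`)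
`rank (opM f Ψ_J e) ≤ 2 * (#x * #y * (d * T))`.
(`key`) Let `c = ∑ g ∈ Q0, e_g ≠ 0`; `f c ≠ 0`, take `a, b` with `γ = f c a b ≠ 0`. By `rank_entry_le` the matrix `Z_J = ∑ g ∈ supp e, f e_g a b • Ψ_J g` has rank `≤` the above bound, and so has
`Z_J * kron (fun t => if t ∈ J then 1 else ψ (u t)) = ∑ g ∈ supp e, f e_g a b • kron (fun t => if t ∈ J then ψ g else ψ (u t))` (`kron_mul`). Multiply by
`(-1) ^ (k - #J)` and sum over `J` (`kron_sub`): `W = ∑ g ∈ supp e, f e_g a b • kron (fun t => ψ g - ψ (u t))` has rank `≤ 2 ^ k * (2 * (#x * #y * (d * T)))`.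
Let `V = kron (fun t => ψ l0 - ψ (u t))`. Then `γ • V = W - ∑ g ∈ supp e \ Q0, f e_g a b • kron (fun t => ψ g - ψ (u t)) - ∑ g ∈ Q0, f e_g a b • (kron (fun t => ψ g - ψ (u t)) - V)`.
For `g ∉ Q0` use `rank_kron_le` with the `t` of `hout` (rank `≤ s * n ^ (k - 1) ≤ T`, as `k ≥ 1`), for `g ∈ Q0` use `rank_kron_sub_le`
(`(ψ g - ψ (u t)) - (ψ l0 - ψ (u t)) = ψ g - ψ l0`), rank `≤ T`. So `rank V ≤ 2 ^ k * (2 * (#x * #y * (d * T))) + #e * T`; `le_rank_kron` for `V`.
(`key_real`) `s = ⌊ε * n⌋₊`, `r = ⌈δ * n⌉₊`; divide by `n ^ k` (if `k = 0` then `key` says `1 ≤ 0`).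
-/

set_option autoImplicit false

open Matrix MonoidAlgebra

namespace Pool.Agent.MP_03ceb7_al.LS

variable {G : Type*} [Group G] {A : Type*} [Ring A] {Ω : Type*} [Field Ω] {d : ℕ}
variable {ι : Type*} [Fintype ι] [DecidableEq ι]

private theorem Key_psi_mul {n s : ℕ} {ψ : G → Matrix (Fin n) (Fin n) Ω} (J : Finset ι) (g h : G)
    (hs : (ψ g * ψ h - ψ (g * h)).rank ≤ s) :
    (kron (fun t => if t ∈ J then ψ g else 1) * kron (fun t => if t ∈ J then ψ h else 1) -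
      kron (fun t => if t ∈ J then ψ (g * h) else 1)).rank ≤ Fintype.card ι * (s * n ^ (Fintype.card ι - 1)) := by
  rw [kron_mul]
  refine (rank_kron_sub_le _ _).trans ?_
  calc _ ≤ ∑ _t : ι, s * n ^ (Fintype.card ι - 1) := by
        refine Finset.sum_le_sum fun t _ => ?_
        rw [Fintype.card_fin]
        refine Nat.mul_le_mul_right _ ?_
        by_cases ht : t ∈ J
        · simp only [ht, if_true]
          exact hs
        · simp only [ht, if_false]
          rw [one_mul, sub_self, Matrix.rank_zero]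
          exact Nat.zero_le _
    _ = _ := by
        rw [Finset.sum_const, Finset.card_univ, smul_eq_mul]

private theorem Key_sub_le {n s : ℕ} {M N : Matrix (Fin n) (Fin n) Ω} (v : ι → Matrix (Fin n) (Fin n) Ω)
    (hs : (M - N).rank ≤ s) :
    (kron (fun t => M - v t) - kron (fun t => N - v t)).rank ≤ Fintype.card ι * (s * n ^ (Fintype.card ι - 1)) := by
  refine (rank_kron_sub_le _ _).trans ?_
  calc _ ≤ ∑ _t : ι, s * n ^ (Fintype.card ι - 1) := by
        refine Finset.sum_le_sum fun t _ => ?_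
        rw [Fintype.card_fin]
        refine Nat.mul_le_mul_right _ ?_
        rw [sub_sub_sub_cancel_right]
        exact hs
    _ = _ := by
        rw [Finset.sum_const, Finset.card_univ, smul_eq_mul]

private theorem Key_out_le {n s : ℕ} (M : ι → Matrix (Fin n) (Fin n) Ω) (t : ι)
    (hs : (M t).rank ≤ s) :
    (kron M).rank ≤ Fintype.card ι * (s * n ^ (Fintype.card ι - 1)) := by
  refine (rank_kron_le M t).trans ?_
  rw [Fintype.card_fin]
  have hk : 1 ≤ Fintype.card ι := Fintype.card_pos_iff.mpr ⟨t⟩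
  calc _ ≤ s * n ^ (Fintype.card ι - 1) := Nat.mul_le_mul_right _ hs
    _ = 1 * (s * n ^ (Fintype.card ι - 1)) := (one_mul _).symm
    _ ≤ _ := Nat.mul_le_mul_right _ hk

omit [Group G] in
private theorem Key_Z_mul {n : ℕ} {ψ : G → Matrix (Fin n) (Fin n) Ω} (u : ι → G) (S : Finset G) (c : G → Ω) (J : Finset ι) :
    (∑ g ∈ S, c g • kron (fun t => if t ∈ J then ψ g else 1)) * kron (fun t => if t ∈ J then 1 else ψ (u t)) =
      ∑ g ∈ S, c g • kron (fun t => if t ∈ J then ψ g else ψ (u t)) := by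
  rw [Finset.sum_mul]
  refine Finset.sum_congr rfl fun g _ => ?_
  rw [Matrix.smul_mul, kron_mul]
  congr 1
  apply congrArg
  funext t
  by_cases ht : t ∈ J
  · simp only [ht, if_true, mul_one]
  · simp only [ht, if_false, one_mul]

omit [Group G] in
private theorem Key_W {n : ℕ} {ψ : G → Matrix (Fin n) (Fin n) Ω} (u : ι → G) (S : Finset G) (c : G → Ω) :
    ∑ g ∈ S, c g • kron (fun t => ψ g - ψ (u t)) =
      ∑ J : Finset ι, (-1 : Ω) ^ (Fintype.card ι - J.card) •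
        ((∑ g ∈ S, c g • kron (fun t => if t ∈ J then ψ g else 1)) * kron (fun t => if t ∈ J then 1 else ψ (u t))) := by
  have h1 : ∀ J : Finset ι, (-1 : Ω) ^ (Fintype.card ι - J.card) •
        ((∑ g ∈ S, c g • kron (fun t => if t ∈ J then ψ g else 1)) * kron (fun t => if t ∈ J then 1 else ψ (u t))) =
      ∑ g ∈ S, c g • ((-1 : Ω) ^ (Fintype.card ι - J.card) • kron (fun t => if t ∈ J then ψ g else ψ (u t))) := by
    intro J
    rw [Key_Z_mul, Finset.smul_sum]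
    exact Finset.sum_congr rfl fun g _ => smul_comm _ _ _
  rw [Finset.sum_congr rfl fun J _ => h1 J, Finset.sum_comm]
  refine Finset.sum_congr rfl fun g _ => ?_
  rw [← Finset.smul_sum, ← kron_sub]

theorem key {n s r : ℕ} {f : A →+* Matrix (Fin d) (Fin d) Ω} (hf : Function.Injective f) {ψ : G → Matrix (Fin n) (Fin n) Ω}
    (h1 : ψ 1 = 1) {x y : MonoidAlgebra A G} (hxy : x * y = 1)
    (hm : ∀ g ∈ x.coeff.support, ∀ k ∈ y.coeff.support, (ψ g * ψ k - ψ (g * k)).rank ≤ s)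
    (hm' : ∀ g ∈ y.coeff.support, ∀ k ∈ x.coeff.support, (ψ g * ψ k - ψ (g * k)).rank ≤ s)
    (u : ι → G) (l0 : G) (Q0 : Finset G) (hQ0 : Q0 ⊆ (y * x - 1).coeff.support)
    (hc : ∑ g ∈ Q0, (y * x - 1).coeff g ≠ 0) (hin : ∀ g ∈ Q0, (ψ g - ψ l0).rank ≤ s)
    (hout : ∀ g ∈ (y * x - 1).coeff.support, g ∉ Q0 → ∃ t, (ψ g - ψ (u t)).rank ≤ s)
    (hr : ∀ t, r ≤ (ψ l0 - ψ (u t)).rank) :
    r ^ Fintype.card ι ≤ 2 ^ Fintype.card ι * (2 * (x.coeff.support.card * y.coeff.support.card *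
      (d * (Fintype.card ι * (s * n ^ (Fintype.card ι - 1)))))) +
      (y * x - 1).coeff.support.card * (Fintype.card ι * (s * n ^ (Fintype.card ι - 1))) := by
  set e := y * x - 1 with he
  set k := Fintype.card ι with hk
  set T := k * (s * n ^ (k - 1)) with hT
  have hfc : f (∑ g ∈ Q0, e.coeff g) ≠ 0 := fun h => hc (hf (by rw [h, map_zero]))
  obtain ⟨a, b, hab⟩ : ∃ a b, f (∑ g ∈ Q0, e.coeff g) a b ≠ 0 := by
    by_contra hcon
    push Not at hcon
    apply hfc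
    ext a b
    rw [hcon a b]
    rfl
  set c : G → Ω := fun g => f (e.coeff g) a b with hcdef
  have hγ : f (∑ g ∈ Q0, e.coeff g) a b = ∑ g ∈ Q0, c g := by
    rw [map_sum, Matrix.sum_apply]
  set S := e.coeff.support with hS
  -- the rank of the matrices for `J`
  have hZ : ∀ J : Finset ι, (∑ g ∈ S, c g • kron (fun t => if t ∈ J then ψ g else 1)).rank ≤
      2 * (x.coeff.support.card * y.coeff.support.card * (d * T)) := by
    intro J
    have hΨ1 : (fun g : G => kron (fun t : ι => if t ∈ J then ψ g else 1)) 1 = 1 := by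
      show kron (fun t : ι => if t ∈ J then ψ 1 else 1) = 1
      rw [h1]
      have : (fun t : ι => if t ∈ J then (1 : Matrix (Fin n) (Fin n) Ω) else 1) = fun _ => 1 := by
        funext t
        split_ifs <;> rfl
      rw [this]
      exact kron_one
    refine (rank_entry_le f (fun g : G => kron (fun t : ι => if t ∈ J then ψ g else 1)) e a b S (Finset.Subset.refl _)).trans ?_
    exact rank_opM_sub_one_le f hΨ1 hxy (fun g hg h hh => Key_psi_mul J g h (hm g hg h hh))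
      (fun g hg h hh => Key_psi_mul J g h (hm' g hg h hh))
  -- the rank of `W`
  have hW : (∑ g ∈ S, c g • kron (fun t => ψ g - ψ (u t))).rank ≤
      2 ^ k * (2 * (x.coeff.support.card * y.coeff.support.card * (d * T))) := by
    rw [Key_W]
    refine (rank_sum_le' _ _).trans ?_
    calc _ ≤ ∑ _J : Finset ι, 2 * (x.coeff.support.card * y.coeff.support.card * (d * T)) := by
          refine Finset.sum_le_sum fun J _ => ?_
          refine (rank_smul_le' _ _).trans ?_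
          exact (Matrix.rank_mul_le_left _ _).trans (hZ J)
      _ = _ := by
          rw [Finset.sum_const, Finset.card_univ, Fintype.card_finset, smul_eq_mul]
  -- the remainder
  set V : Matrix (ι → Fin n) (ι → Fin n) Ω := kron (fun t => ψ l0 - ψ (u t)) with hV
  classical
  set R : G → Matrix (ι → Fin n) (ι → Fin n) Ω := fun g =>
    if g ∈ Q0 then c g • (kron (fun t => ψ g - ψ (u t)) - V) else c g • kron (fun t => ψ g - ψ (u t)) with hR
  have hRr : (∑ g ∈ S, R g).rank ≤ S.card * T := by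
    refine (rank_sum_le' _ _).trans ?_
    calc _ ≤ ∑ _g ∈ S, T := by
          refine Finset.sum_le_sum fun g hg => ?_
          by_cases hgQ : g ∈ Q0
          · simp only [hR, hgQ, if_true]
            exact (rank_smul_le' _ _).trans (Key_sub_le _ (hin g hgQ))
          · simp only [hR, hgQ, if_false]
            obtain ⟨t, ht⟩ := hout g hg hgQ
            exact (rank_smul_le' _ _).trans (Key_out_le (fun t => ψ g - ψ (u t)) t ht)
      _ = _ := by
          rw [Finset.sum_const, smul_eq_mul]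
  have hmain : (∑ g ∈ Q0, c g) • V = ∑ g ∈ S, c g • kron (fun t => ψ g - ψ (u t)) - ∑ g ∈ S, R g := by
    rw [← Finset.sum_sub_distrib, Finset.sum_smul]
    rw [← Finset.sum_subset hQ0 (f := fun g => c g • kron (fun t => ψ g - ψ (u t)) - R g)]
    · refine Finset.sum_congr rfl fun g hg => ?_
      simp only [hR, hg, if_true]
      rw [smul_sub, sub_sub_cancel]
    · intro g _ hg
      simp only [hR, hg, if_false]
      rw [sub_self]
  have hVr : V.rank ≤ 2 ^ k * (2 * (x.coeff.support.card * y.coeff.support.card * (d * T))) + S.card * T := by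
    rw [← rank_smul_eq (hγ ▸ hab) V, hmain]
    exact (rank_sub_le' _ _).trans (Nat.add_le_add hW hRr)
  exact (le_rank_kron _ r hr).trans hVr

theorem key_real {n : ℕ} (hn : 0 < n) {ε δ : ℝ} (hε : 0 ≤ ε) (hδ : 0 ≤ δ) {f : A →+* Matrix (Fin d) (Fin d) Ω}
    (hf : Function.Injective f) {ψ : G → Matrix (Fin n) (Fin n) Ω}
    (h1 : ψ 1 = 1) {x y : MonoidAlgebra A G} (hxy : x * y = 1)
    (hm : ∀ g ∈ x.coeff.support, ∀ k ∈ y.coeff.support, ((ψ g * ψ k - ψ (g * k)).rank : ℝ) ≤ ε * n)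
    (hm' : ∀ g ∈ y.coeff.support, ∀ k ∈ x.coeff.support, ((ψ g * ψ k - ψ (g * k)).rank : ℝ) ≤ ε * n)
    (u : ι → G) (l0 : G) (Q0 : Finset G) (hQ0 : Q0 ⊆ (y * x - 1).coeff.support)
    (hc : ∑ g ∈ Q0, (y * x - 1).coeff g ≠ 0) (hin : ∀ g ∈ Q0, ((ψ g - ψ l0).rank : ℝ) ≤ ε * n)
    (hout : ∀ g ∈ (y * x - 1).coeff.support, g ∉ Q0 → ∃ t, ((ψ g - ψ (u t)).rank : ℝ) ≤ ε * n)
    (hr : ∀ t, δ * n ≤ ((ψ l0 - ψ (u t)).rank : ℝ)) :
    δ ^ Fintype.card ι ≤ (2 ^ Fintype.card ι * (2 * (x.coeff.support.card * y.coeff.support.card *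
      (d * Fintype.card ι))) + (y * x - 1).coeff.support.card * Fintype.card ι) * ε := by
  have hnR : (0 : ℝ) < n := by exact_mod_cast hn
  have hεn : 0 ≤ ε * n := mul_nonneg hε hnR.le
  have hfl : ∀ M : Matrix (Fin n) (Fin n) Ω, (M.rank : ℝ) ≤ ε * n → M.rank ≤ ⌊ε * n⌋₊ := fun M h => Nat.le_floor h
  have hkey := key (s := ⌊ε * n⌋₊) (r := ⌈δ * n⌉₊) hf h1 hxy (fun g hg k hk => hfl _ (hm g hg k hk))
    (fun g hg k hk => hfl _ (hm' g hg k hk)) u l0 Q0 hQ0 hc (fun g hg => hfl _ (hin g hg))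
    (fun g hg hgQ => (hout g hg hgQ).imp fun t ht => hfl _ ht) (fun t => Nat.ceil_le.mpr (hr t))
  set X := x.coeff.support.card
  set Y := y.coeff.support.card
  set E := (y * x - 1).coeff.support.card
  set k := Fintype.card ι with hk
  have hkeyR : ((⌈δ * n⌉₊ : ℕ) : ℝ) ^ k ≤ 2 ^ k * (2 * (X * Y * (d * (k * ((⌊ε * n⌋₊ : ℕ) * (n : ℝ) ^ (k - 1)))))) +
      E * (k * ((⌊ε * n⌋₊ : ℕ) * (n : ℝ) ^ (k - 1))) := by
    exact_mod_cast hkey
  have hs : ((⌊ε * n⌋₊ : ℕ) : ℝ) ≤ ε * n := Nat.floor_le hεn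
  have hr' : δ * n ≤ ((⌈δ * n⌉₊ : ℕ) : ℝ) := Nat.le_ceil _
  have hpow : (δ * n) ^ k ≤ ((⌈δ * n⌉₊ : ℕ) : ℝ) ^ k := pow_le_pow_left₀ (mul_nonneg hδ hnR.le) hr' k
  rcases Nat.eq_zero_or_pos k with h0 | hpos
  · rw [h0] at hkeyR
    norm_num at hkeyR
  have hnk : (n : ℝ) ^ k = n * (n : ℝ) ^ (k - 1) := by
    rw [← pow_succ']
    congr 1
    omega
  have hub : (2 : ℝ) ^ k * (2 * (X * Y * (d * (k * ((⌊ε * n⌋₊ : ℕ) * (n : ℝ) ^ (k - 1)))))) +
      E * (k * ((⌊ε * n⌋₊ : ℕ) * (n : ℝ) ^ (k - 1))) ≤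
      ((2 ^ k * (2 * (X * Y * (d * k))) + E * k) * ε) * (n : ℝ) ^ k := by
    rw [hnk]
    have h2 : (2 : ℝ) ^ k * (2 * (X * Y * (d * (k * ((⌊ε * n⌋₊ : ℕ) * (n : ℝ) ^ (k - 1)))))) +
        E * (k * ((⌊ε * n⌋₊ : ℕ) * (n : ℝ) ^ (k - 1))) =
        ((2 ^ k * (2 * (X * Y * (d * k))) + E * k) * (n : ℝ) ^ (k - 1)) * ((⌊ε * n⌋₊ : ℕ) : ℝ) := by
      ring
    have h3 : ((2 ^ k * (2 * (X * Y * (d * k))) + E * k) * ε) * (n * (n : ℝ) ^ (k - 1)) =
        ((2 ^ k * (2 * (X * Y * (d * k))) + E * k) * (n : ℝ) ^ (k - 1)) * (ε * n) := by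
      ring
    rw [h2, h3]
    refine mul_le_mul_of_nonneg_left hs ?_
    positivity
  have hfin := (hpow.trans hkeyR).trans hub
  rw [mul_pow] at hfin
  exact le_of_mul_le_mul_right hfin (by positivity)

end Pool.Agent.MP_03ceb7_al.LS
end

section

/-!
# TASK LS Ult: the congruence kernel of a family of approximations is locally `p`-indicable

`Sm U n q`: the natural numbers `q i` are `o (n i)` along the ultrafilter `U`.
(`not_sm`) `Ultrafilter.eventually_not`.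
(`ult_indicable`) Let `R = ∀ i, Matrix (Fin (n i)) (Fin (n i)) (O i)` (a ring), `IL` = the set of the `x` with `Sm U n fun i => rkL (x i)`, `IK` = the set of the `x` with
`Sm U n fun i => ((x i).map (π i)).rank`. Both are two-sided ideals (`rkL_add_le`, `rkL_mul_le_left`, ...; `rank_add_le'`, `Matrix.rank_mul_le_left` after `Matrix.map_mul`), `IL ≤ IK` (`rk_red_le`) and
`(p : R) ∈ IK` (the image of `p` under `π i` is `0`). Make `IL` an `Ideal R` with an instance `Ideal.IsTwoSided`, `S = R ⧸ IL`, `q = Ideal.Quotient.mk IL`,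
`J = {s | ∃ x, IK x ∧ q x = s}`, `ρ g = q (fun i => φ i g)` (a monoid homomorphism by `h1`, `hm`; injective by `hinj`: if `φ g - φ h ∈ IL` then `φ h⁻¹ (φ g - φ h) ∈ IL`, and modulo `IL` this is
`φ (h⁻¹ g) - 1`). Apply `indicable_of_nakayama`. The hypothesis `hnak`: lift `B k l` to elements `b k l` of `IK` (if `q x = B k l` for some `x ∈ IK`) and `D k` to `dd k`;
`dd k - ∑ l, b k l * dd l ∈ IL`; `nakayama_blocks` at each `i` shows that `rkL (dd j i)` is at most a finite sum of functions which are `Sm`. (`hN`): by the hypothesis `hN`.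
-/

set_option autoImplicit false

open Filter

namespace Pool.Agent.MP_03ceb7_al.LS

/-- `q i = o (n i)` along the ultrafilter. -/
def Sm {I : Type*} (U : Ultrafilter I) (n q : I → ℕ) : Prop :=
  ∀ ε : ℝ, 0 < ε → ∀ᶠ i in (U : Filter I), (q i : ℝ) ≤ ε * n i

section
variable {I : Type*} {U : Ultrafilter I} {n q q' : I → ℕ}

theorem sm_zero : Sm U n (fun _ => 0) := by
  intro ε hε
  refine Filter.Eventually.of_forall fun i => ?_
  have h : (0 : ℝ) ≤ (n i : ℝ) := Nat.cast_nonneg _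
  simp only [Nat.cast_zero]
  positivity

theorem Sm.add (h : Sm U n q) (h' : Sm U n q') : Sm U n (fun i => q i + q' i) := by
  intro ε hε
  filter_upwards [h (ε / 2) (half_pos hε), h' (ε / 2) (half_pos hε)] with i h1 h2
  push_cast
  linarith

theorem Sm.mono (h : Sm U n q) (h' : ∀ i, q' i ≤ q i) : Sm U n q' := by
  intro ε hε
  filter_upwards [h ε hε] with i h1
  exact le_trans (Nat.cast_le.mpr (h' i)) h1

theorem Sm.sum {α : Type*} (s : Finset α) {r : α → I → ℕ} (h : ∀ a ∈ s, Sm U n (r a)) : Sm U n (fun i => ∑ a ∈ s, r a i) := by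
  classical
  induction s using Finset.induction_on with
  | empty => simpa using (sm_zero (U := U) (n := n))
  | insert a s ha ih =>
    have h1 := (h a (Finset.mem_insert_self a s)).add
      (ih fun b hb => h b (Finset.mem_insert_of_mem hb))
    refine h1.mono fun i => ?_
    rw [Finset.sum_insert ha]

theorem not_sm (h : ¬ Sm U n q) : ∃ c : ℝ, 0 < c ∧ ∀ᶠ i in (U : Filter I), c * n i ≤ (q i : ℝ) := by
  by_contra hcon
  apply h
  intro ε hε
  by_contra hn
  have hn' : ∀ᶠ i in (U : Filter I), ¬ ((q i : ℝ) ≤ ε * n i) := by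
    rw [Ultrafilter.eventually_not]
    exact hn
  apply hcon
  refine ⟨ε, hε, ?_⟩
  filter_upwards [hn'] with i hi
  exact (not_le.mp hi).le

end

theorem ult_indicable {I : Type*} {U : Ultrafilter I} {n : I → ℕ} {O : I → Type*} [∀ i, CommRing (O i)] [∀ i, IsDomain (O i)]
    {κ : I → Type*} [∀ i, Field (κ i)] {π : ∀ i, O i →+* κ i} (hπ : ∀ i, Function.Surjective (π i))
    {p : ℕ} [Fact p.Prime] [∀ i, CharP (κ i) p] {G : Type*} [Group G] {φ : ∀ i, G → Matrix (Fin (n i)) (Fin (n i)) (O i)}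
    (h1 : ∀ i, φ i 1 = 1) (hm : ∀ g h, Sm U n fun i => rkL (φ i (g * h) - φ i g * φ i h))
    (hinj : ∀ g, (Sm U n fun i => rkL (φ i g - 1)) → g = 1)
    (N : Subgroup G) (hN : ∀ g ∈ N, Sm U n fun i => ((φ i g - 1).map (π i)).rank) : LocallyIndicable p N := by
  classical
  let IL : Ideal (∀ i, Matrix (Fin (n i)) (Fin (n i)) (O i)) :=
    { carrier := {x | Sm U n fun i => rkL (x i)}
      add_mem' := fun {x y} hx hy => (Sm.add hx hy).mono fun i => rkL_add_le _ _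
      zero_mem' := sm_zero.mono fun i => (rkL_zero (m := Fin (n i)) (n := Fin (n i)) (O := O i)).le
      smul_mem' := fun c x hx => Sm.mono hx fun i => rkL_mul_le_right _ _ }
  have hIL : ∀ x, x ∈ IL ↔ Sm U n fun i => rkL (x i) := fun x => Iff.rfl
  have : IL.IsTwoSided := ⟨fun b hx => Sm.mono hx fun i => rkL_mul_le_left _ _⟩
  let q := Ideal.Quotient.mk IL
  have hqe : ∀ x y, q x = q y ↔ x - y ∈ IL := fun x y => Ideal.Quotient.eq
  have hIK0 : ∀ x ∈ IL, Sm U n fun i => ((x i).map (π i)).rank :=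
    fun x hx => Sm.mono hx fun i => rk_red_le (hπ i) _
  have hIKadd : ∀ x y : (∀ i, Matrix (Fin (n i)) (Fin (n i)) (O i)),
      (Sm U n fun i => ((x i).map (π i)).rank) → (Sm U n fun i => ((y i).map (π i)).rank) →
      Sm U n fun i => (((x + y) i).map (π i)).rank := by
    intro x y hx hy
    refine (hx.add hy).mono fun i => ?_
    have h : ((x + y) i).map (π i) = (x i).map (π i) + (y i).map (π i) := by
      ext a b
      simp [Matrix.map_apply]
    rw [h]
    exact rank_add_le' _ _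
  have hIKl : ∀ x y : (∀ i, Matrix (Fin (n i)) (Fin (n i)) (O i)),
      (Sm U n fun i => ((y i).map (π i)).rank) →
      Sm U n fun i => (((x * y) i).map (π i)).rank := by
    intro x y hy
    refine hy.mono fun i => ?_
    have h : ((x * y) i).map (π i) = (x i).map (π i) * (y i).map (π i) := by
      rw [Pi.mul_apply, Matrix.map_mul]
    rw [h]
    exact Matrix.rank_mul_le_right _ _
  have hIKr : ∀ x y : (∀ i, Matrix (Fin (n i)) (Fin (n i)) (O i)),
      (Sm U n fun i => ((x i).map (π i)).rank) →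
      Sm U n fun i => (((x * y) i).map (π i)).rank := by
    intro x y hx
    refine hx.mono fun i => ?_
    have h : ((x * y) i).map (π i) = (x i).map (π i) * (y i).map (π i) := by
      rw [Pi.mul_apply, Matrix.map_mul]
    rw [h]
    exact Matrix.rank_mul_le_left _ _
  -- the homomorphism
  let ρ : G →* (∀ i, Matrix (Fin (n i)) (Fin (n i)) (O i)) ⧸ IL :=
    { toFun := fun g => q (fun i => φ i g)
      map_one' := by
        have h : (fun i => φ i 1) = (1 : ∀ i, Matrix (Fin (n i)) (Fin (n i)) (O i)) := by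
          funext i
          exact h1 i
        rw [h, map_one]
      map_mul' := by
        intro g h
        rw [← map_mul, hqe, hIL]
        exact hm g h }
  have hρ : ∀ g, ρ g = q (fun i => φ i g) := fun g => rfl
  have hker : ∀ g, ρ g = 1 → g = 1 := by
    intro g hg
    apply hinj
    rw [hρ, ← map_one q, hqe, hIL] at hg
    exact hg
  have hρi : Function.Injective ρ := by
    rw [injective_iff_map_eq_one]
    exact hker
  refine indicable_of_nakayama ρ hρi {s | ∃ x, (Sm U n fun i => ((x i).map (π i)).rank) ∧ q x = s}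
    ?_ ?_ ?_ ?_ ?_ N ?_
  · refine ⟨(p : ∀ i, Matrix (Fin (n i)) (Fin (n i)) (O i)), ?_, map_natCast q p⟩
    refine sm_zero.mono fun i => ?_
    have h : ((p : ∀ i, Matrix (Fin (n i)) (Fin (n i)) (O i)) i).map (π i) = 0 := by
      rw [Pi.natCast_apply]
      ext a b
      rw [Matrix.map_apply]
      have h2 : ((p : Matrix (Fin (n i)) (Fin (n i)) (O i))) a b = if a = b then (p : O i) else 0 := by
        rw [← Matrix.diagonal_natCast, Matrix.diagonal_apply]
      rw [h2]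
      split_ifs
      · rw [map_natCast, CharP.cast_eq_zero]
        rfl
      · rw [map_zero]
        rfl
    rw [h, Matrix.rank_zero]
  · rintro a ⟨x, hx, rfl⟩ b ⟨y, hy, rfl⟩
    exact ⟨x + y, hIKadd x y hx hy, map_add q x y⟩
  · rintro a b ⟨y, hy, rfl⟩
    obtain ⟨x, rfl⟩ := Ideal.Quotient.mk_surjective a
    exact ⟨x * y, hIKl x y hy, map_mul q x y⟩
  · rintro a ⟨x, hx, rfl⟩ b
    obtain ⟨y, rfl⟩ := Ideal.Quotient.mk_surjective b
    exact ⟨x * y, hIKr x y hx, map_mul q x y⟩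
  · intro r B D hB hD
    choose b hb1 hb2 using hB
    choose dd hdd using fun k => Ideal.Quotient.mk_surjective (D k)
    have hR : ∀ k, dd k - ∑ l, b k l * dd l ∈ IL := by
      intro k
      rw [← hqe, map_sum]
      rw [show q (dd k) = D k from hdd k, hD k]
      refine Finset.sum_congr rfl fun l _ => ?_
      rw [map_mul, hb2, show q (dd l) = D l from hdd l]
    intro j
    rw [← hdd j, ← map_zero q, hqe, hIL]
    have h1' : Sm U n (fun i => ∑ k : Fin r, ∑ l : Fin r, ((b k l i).map (π i)).rank) :=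
      Sm.sum _ fun k _ => Sm.sum _ fun l _ => hb1 k l
    have h2' : Sm U n (fun i => ∑ k : Fin r, rkL ((dd k - ∑ l, b k l * dd l) i)) :=
      Sm.sum _ fun k _ => (hIL _).mp (hR k)
    refine (h1'.add h2').mono fun i => ?_
    have h3 := nakayama_blocks (hπ i) (fun k l => b k l i) (fun k => dd k i) j
    have h4 : ∀ k, (dd k - ∑ l, b k l * dd l) i = dd k i - ∑ l, b k l i * dd l i := by
      intro k
      rw [Pi.sub_apply, Finset.sum_apply]
      rfl
    simp only [h4]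
    rw [sub_zero]
    exact h3
  · intro g hg
    refine ⟨fun i => φ i g - 1, hN g hg, ?_⟩
    rw [hρ, ← map_one q, ← map_sub]
    rfl

end Pool.Agent.MP_03ceb7_al.LS
end

section

/-!
# TASK LS FO1: multiplicities of the eigenvalues of a matrix of finite order

Let `P k = (1 / m) • ∑ j ∈ range m, ζ⁻¹ ^ (j * k) • δ ^ j`. `δ * P k = ζ ^ k • P k` (reindex the sum, `δ ^ m = 1`, `ζ ^ m = 1`), so `P k * P k = P k` and
`δ ^ j * P k = ζ ^ (j * k) • P k`; `∑ k ∈ range m, P k = 1` (orthogonality: `∑ k ∈ range m, ζ⁻¹ ^ (j * k) = 0` for `0 < j < m`, `IsPrimitiveRoot.geom_sum_eq_zero`). The trace of an idempotent matrix is its rank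
(`LinearMap.IsProj.trace`, or `P k = B * C` with `C * B = 1`: from `exists_factor` and `P * P = P`; `Matrix.trace_mul_comm`); let `μ k = (P k).rank`. So
`trace (δ ^ j) = ∑ k, trace (δ ^ j * P k) = ∑ k, ζ ^ (j * k) * μ k`. `j = 0`: `∑ k, μ k = n`. The range of `P 0` is `ker (δ - 1)` (`δ v = v` implies `P 0 v = v`), so `μ 0 + rank (δ - 1) = n`.
-/

set_option autoImplicit false

open Matrix

namespace Pool.Agent.MP_03ceb7_al.LS

private theorem FO1_trace_aux {n r : ℕ} (P : Matrix (Fin n) (Fin n) ℂ) (hP : P * P = P) (B : Matrix (Fin n) (Fin r) ℂ)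
    (C : Matrix (Fin r) (Fin n) ℂ) (hBC : P = B * C) (P' : Matrix (Fin r) (Fin n) ℂ) (Q : Matrix (Fin n) (Fin r) ℂ)
    (h1 : P' * P * Q = 1) : trace P = (r : ℂ) := by
  have h2 : (P' * B) * (C * Q) = 1 := by
    rw [← h1, hBC]
    simp only [Matrix.mul_assoc]
  have h3 : (C * Q) * (P' * B) = 1 := mul_eq_one_comm.mp h2
  have h4 : (P' * B) * (C * B) * (C * Q) = 1 := by
    have : (P' * B) * (C * B) * (C * Q) = P' * ((B * C) * (B * C)) * Q := by
      simp only [Matrix.mul_assoc]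
    rw [this, ← hBC, hP, h1]
  have h5 : C * B = 1 := by
    calc C * B = ((C * Q) * (P' * B)) * (C * B) * ((C * Q) * (P' * B)) := by rw [h3]; simp
      _ = (C * Q) * ((P' * B) * (C * B) * (C * Q)) * (P' * B) := by simp only [Matrix.mul_assoc]
      _ = 1 := by rw [h4, Matrix.mul_one, h3]
  calc trace P = trace (B * C) := by rw [← hBC]
    _ = trace (C * B) := Matrix.trace_mul_comm B C
    _ = (r : ℂ) := by rw [h5, Matrix.trace_one, Fintype.card_fin]

private theorem FO1_trace_idem {n : ℕ} (P : Matrix (Fin n) (Fin n) ℂ) (hP : P * P = P) : trace P = (P.rank : ℂ) := by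
  obtain ⟨B, C, hBC⟩ := exists_factor P
  obtain ⟨P', Q, h1⟩ := exists_unfactor P
  exact FO1_trace_aux P hP B C hBC P' Q h1

theorem exists_mult {n m : ℕ} (hm : 0 < m) {ζ : ℂ} (hζ : IsPrimitiveRoot ζ m) {δ : Matrix (Fin n) (Fin n) ℂ} (hδ : δ ^ m = 1) :
    ∃ μ : ℕ → ℕ, (∀ j : ℕ, trace (δ ^ j) = ∑ k ∈ Finset.range m, (μ k : ℂ) * ζ ^ (j * k)) ∧
      ∑ k ∈ Finset.range m, μ k = n ∧ μ 0 + (δ - 1).rank = n := by
  have hm0 : (m : ℂ) ≠ 0 := by exact_mod_cast hm.ne'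
  have hζ0 : ζ ≠ 0 := hζ.ne_zero hm.ne'
  have hζi : IsPrimitiveRoot ζ⁻¹ m := hζ.inv
  obtain ⟨P, hPdef⟩ : ∃ P : ℕ → Matrix (Fin n) (Fin n) ℂ,
      ∀ k, P k = (1 / (m : ℂ)) • ∑ j ∈ Finset.range m, (ζ⁻¹ ^ (j * k)) • δ ^ j := ⟨_, fun _ => rfl⟩
  have hδP : ∀ k, δ * P k = ζ ^ k • P k := by
    intro k
    rw [hPdef, Matrix.mul_smul, smul_comm (ζ ^ k)]
    congr 1
    rw [Finset.mul_sum]
    have hf : ∀ j, δ * (ζ⁻¹ ^ (j * k) • δ ^ j) = ζ ^ k • ((ζ⁻¹ ^ ((j + 1) * k)) • δ ^ (j + 1)) := by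
      intro j
      rw [Matrix.mul_smul, smul_smul, pow_succ' δ j]
      congr 1
      have h7 : ζ ^ k * ζ⁻¹ ^ k = 1 := by rw [← mul_pow, mul_inv_cancel₀ hζ0, one_pow]
      rw [add_mul, one_mul, pow_add, mul_comm (ζ⁻¹ ^ (j * k)), ← mul_assoc, h7, one_mul]
    simp only [hf]
    rw [← Finset.smul_sum]
    congr 1
    have h1 := Finset.sum_range_succ' (fun j => (ζ⁻¹ ^ (j * k)) • δ ^ j) m
    have h2 := Finset.sum_range_succ (fun j => (ζ⁻¹ ^ (j * k)) • δ ^ j) m
    have h3 : ζ⁻¹ ^ (m * k) = 1 := by rw [pow_mul, hζi.pow_eq_one, one_pow]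
    rw [h1] at h2
    simp only [zero_mul, pow_zero, one_smul, h3, hδ] at h2
    exact add_right_cancel h2
  have hδjP : ∀ j k, δ ^ j * P k = ζ ^ (j * k) • P k := by
    intro j k
    induction j with
    | zero => simp
    | succ j ih =>
      rw [pow_succ, Matrix.mul_assoc, hδP, Matrix.mul_smul, ih, smul_smul, ← pow_add]
      congr 2
      ring
  have hidem : ∀ k, P k * P k = P k := by
    intro k
    conv_lhs => rw [hPdef k]
    rw [Matrix.smul_mul, Finset.sum_mul, ← hPdef k]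
    have : ∀ j, (ζ⁻¹ ^ (j * k) • δ ^ j) * P k = P k := by
      intro j
      rw [Matrix.smul_mul, hδjP, smul_smul, inv_pow, inv_mul_cancel₀ (pow_ne_zero _ hζ0), one_smul]
    simp only [this]
    rw [Finset.sum_const, Finset.card_range, ← Nat.cast_smul_eq_nsmul ℂ, smul_smul, one_div, inv_mul_cancel₀ hm0, one_smul]
  have hsum : ∑ k ∈ Finset.range m, P k = 1 := by
    simp only [hPdef]
    rw [← Finset.smul_sum, Finset.sum_comm]
    have h1 : ∀ j ∈ Finset.range m, (∑ k ∈ Finset.range m, (ζ⁻¹ ^ (j * k)) • δ ^ j) = if j = 0 then (m : ℂ) • (1 : Matrix (Fin n) (Fin n) ℂ) else 0 := by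
      intro j hj
      rw [← Finset.sum_smul]
      by_cases h0 : j = 0
      · subst h0
        simp
      · rw [if_neg h0]
        have hjm := Finset.mem_range.mp hj
        have hne : ζ⁻¹ ^ j ≠ 1 := hζi.pow_ne_one_of_pos_of_lt h0 hjm
        have h2 : (∑ k ∈ Finset.range m, ζ⁻¹ ^ (j * k)) = 0 := by
          have h3 : (∑ k ∈ Finset.range m, (ζ⁻¹ ^ j) ^ k) * (ζ⁻¹ ^ j - 1) = (ζ⁻¹ ^ j) ^ m - 1 := geom_sum_mul _ _
          have h4 : (ζ⁻¹ ^ j) ^ m = 1 := by rw [← pow_mul, mul_comm, pow_mul, hζi.pow_eq_one, one_pow]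
          rw [h4, sub_self] at h3
          have h5 := (mul_eq_zero.mp h3).resolve_right (sub_ne_zero.mpr hne)
          simpa only [pow_mul] using h5
        rw [h2, zero_smul]
    rw [Finset.sum_congr rfl h1, Finset.sum_ite_eq' , if_pos (Finset.mem_range.mpr hm), smul_smul, one_div, inv_mul_cancel₀ hm0, one_smul]
  have htr : ∀ j : ℕ, trace (δ ^ j) = ∑ k ∈ Finset.range m, (((P k).rank : ℕ) : ℂ) * ζ ^ (j * k) := by
    intro j
    calc trace (δ ^ j) = trace (δ ^ j * ∑ k ∈ Finset.range m, P k) := by rw [hsum, Matrix.mul_one]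
      _ = ∑ k ∈ Finset.range m, trace (δ ^ j * P k) := by rw [Finset.mul_sum, Matrix.trace_sum]
      _ = _ := by
        refine Finset.sum_congr rfl fun k _ => ?_
        rw [hδjP, Matrix.trace_smul, FO1_trace_idem _ (hidem k), smul_eq_mul, mul_comm]
  refine ⟨fun k => (P k).rank, htr, ?_, ?_⟩
  · have h := htr 0
    simp only [pow_zero, zero_mul, mul_one, Matrix.trace_one, Fintype.card_fin] at h
    exact_mod_cast h.symm
  · have hQ : (1 - P 0) * (1 - P 0) = 1 - P 0 := by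
      rw [Matrix.mul_sub, Matrix.sub_mul, Matrix.sub_mul, hidem]
      simp
    have htQ := FO1_trace_idem _ hQ
    rw [Matrix.trace_sub, Matrix.trace_one, Fintype.card_fin, FO1_trace_idem _ (hidem 0)] at htQ
    have h1 : (P 0).rank + (1 - P 0).rank = n := by
      have : ((P 0).rank : ℂ) + ((1 - P 0).rank : ℂ) = n := by rw [← htQ]; ring
      exact_mod_cast this
    have hd0 : (δ - 1) * P 0 = 0 := by
      rw [Matrix.sub_mul, hδP 0]
      simp
    have h2 : (δ - 1).rank ≤ (1 - P 0).rank := by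
      have : δ - 1 = (δ - 1) * (1 - P 0) := by rw [Matrix.mul_sub, hd0]; simp
      calc (δ - 1).rank = ((δ - 1) * (1 - P 0)).rank := by rw [← this]
        _ ≤ _ := Matrix.rank_mul_le_right _ _
    have h3 : (1 - P 0).rank ≤ (δ - 1).rank := by
      have h4 : 1 - P 0 = (δ - 1) * ((-(1 / (m : ℂ))) • ∑ j ∈ Finset.range m, ∑ i ∈ Finset.range j, δ ^ i) := by
        rw [Matrix.mul_smul, Finset.mul_sum]
        have h5 : ∀ j, (δ - 1) * ∑ i ∈ Finset.range j, δ ^ i = δ ^ j - 1 := fun j => mul_geom_sum δ j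
        simp only [h5]
        rw [Finset.sum_sub_distrib, Finset.sum_const, Finset.card_range, ← Nat.cast_smul_eq_nsmul ℂ, smul_sub, smul_smul, hPdef 0]
        simp only [mul_zero, pow_zero, one_smul, neg_smul, neg_mul, one_div, inv_mul_cancel₀ hm0]
        abel
      rw [h4]
      exact Matrix.rank_mul_le_left _ _
    have h6 : (δ - 1).rank = (1 - P 0).rank := le_antisymm h2 h3
    rw [h6]
    exact h1

end Pool.Agent.MP_03ceb7_al.LS
end

section

/-!
# TASK LS FO2: rank and trace of a matrix of finite order with a rational trace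

(`exists_units`) Let `a : ℕ`. Let `P` be the set of the prime divisors of `m`. Let first `m` be odd or `a` even. By the Chinese remainder theorem there is `u` with `u ≡ -1` modulo all
`ℓ ∈ P` which divide `a - 1` (in `ℤ`), and `u ≡ 1` modulo the other `ℓ ∈ P` (two coprime moduli: the products of these primes). No `ℓ ∈ P` divides `u`. No `ℓ ∈ P` divides `a - u`: if `ℓ` divides
`a - 1` then `ℓ ≠ 2` and `a - u ≡ 1 + 1 = 2`; otherwise `a - u ≡ a - 1`. So `a ≡ u + v` with `u`, `v` prime to `m`. If `m` is even and `a` odd apply this to `a - 1` (or `a + m - 1`): `a ≡ 1 + u + v`. Two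
summands: in the first case `c` is absent; the statement has `e : ℕ`, `e ≤ 1`, `w` prime to `m` and `a ≡ u + v + e * w`. (Sums modulo `m`, `Nat.ModEq`.)
(`galois`) the polynomial `f = ∑ k ∈ range m, μ k X ^ k - q` over `ℚ` vanishes at `ζ`, so it is divisible by `minpoly ℚ ζ = cyclotomic m ℚ` (`Polynomial.cyclotomic_eq_minpoly_rat`), which vanishes at `ζ ^ u`, `u` prime to
`m` (`IsPrimitiveRoot.pow_of_coprime`, `Polynomial.isRoot_cyclotomic`).
(`rank_le_of_rational`) `μ`, `ζ = exp (2πi/m)` from `exists_mult`. `D j = ∑ k ∈ range m, μ k * ‖1 - ζ ^ (j * k)‖ ^ 2 = 2 * (n - Re trace (δ ^ j))` (`‖1 - z‖ ^ 2 = 2 - 2 Re z` if `‖z‖ = 1`).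
`galois` (for `trace δ`): `D u = D 1` for `u` prime to `m`. If `j ≡ u + v + e * w` (`exists_units`) then `‖1 - ζ ^ (j k)‖ ≤ ‖1 - ζ ^ (u k)‖ + ‖1 - ζ ^ (v k)‖ + ‖1 - ζ ^ (w k)‖` (`e = 0`: without the last), so
`‖.‖ ^ 2 ≤ 3 * (sum of the squares)` and `D j ≤ 9 * D 1` for all `j`. `∑ j ∈ range m, ‖1 - ζ ^ (j * k)‖ ^ 2 = 2 * m` for `0 < k < m` (and `0` for `k = 0`), so
`2 * m * rank (δ - 1) = 2 * m * ∑ k ∈ range m \ {0}, μ k = ∑ j ∈ range m, D j ≤ 9 * m * D 1 = 18 * m * (n - Re trace δ)`.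
(`le_rank_of_finite_order`) `n - Re trace δ = ∑ k, μ k * (1 - Re ζ ^ k) ≤ 2 * ∑ k ≠ 0, μ k = 2 * rank (δ - 1)`.
-/

set_option autoImplicit false

open Matrix

namespace Pool.Agent.MP_03ceb7_al.LS

private theorem FO2_two {m : ℕ} (hm : 0 < m) (a : ℕ) (hpar : 2 ∣ m → 2 ∣ a) :
    ∃ u v : ℕ, Nat.Coprime u m ∧ Nat.Coprime v m ∧ a ≡ u + v [MOD m] := by
  classical
  let c : ℕ → ℕ := fun l => if (l : ℤ) ∣ ((a : ℤ) - 1) then l - 1 else 1
  obtain ⟨u, hu⟩ := Nat.chineseRemainderOfFinset c id m.primeFactors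
    (fun i hi => (Nat.prime_of_mem_primeFactors hi).ne_zero)
    (by
      intro i hi j hj hij
      exact (Nat.coprime_primes (Nat.prime_of_mem_primeFactors hi)
        (Nat.prime_of_mem_primeFactors hj)).2 hij)
  -- residues
  have hres : ∀ l : ℕ, l.Prime → l ∣ m →
      (((l : ℤ) ∣ ((a : ℤ) - 1) ∧ (l : ℤ) ∣ ((u : ℤ) + 1)) ∨
        (¬ (l : ℤ) ∣ ((a : ℤ) - 1) ∧ (l : ℤ) ∣ ((u : ℤ) - 1))) := by
    intro l hl hlm
    have h1 := hu l (Nat.mem_primeFactors.2 ⟨hl, hlm, hm.ne'⟩)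
    have h2 : (u : ℤ) ≡ ((c l : ℕ) : ℤ) [ZMOD (l : ℤ)] := by
      exact_mod_cast (Int.natCast_modEq_iff.2 h1)
    have h3 := h2.symm.dvd
    by_cases hd : (l : ℤ) ∣ ((a : ℤ) - 1)
    · left
      refine ⟨hd, ?_⟩
      have hc : c l = l - 1 := by simp only [c, if_pos hd]
      rw [hc] at h3
      have hl1 : ((l - 1 : ℕ) : ℤ) = (l : ℤ) - 1 := by
        have := hl.one_le
        push_cast [Nat.cast_sub this]
        ring
      rw [hl1] at h3
      have : (u : ℤ) + 1 = (u - (l - 1)) + l := by ring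
      rw [this]
      exact dvd_add h3 (dvd_refl _)
    · right
      refine ⟨hd, ?_⟩
      have hc : c l = 1 := by simp only [c, if_neg hd]
      rw [hc] at h3
      simpa using h3
  refine ⟨u, a + (m - 1) * u, ?_, ?_, ?_⟩
  · by_contra hcop
    obtain ⟨l, hl, hlu, hlm⟩ := Nat.Prime.not_coprime_iff_dvd.1 hcop
    have hlu' : (l : ℤ) ∣ (u : ℤ) := Int.natCast_dvd_natCast.2 hlu
    have h1 : (l : ℤ) ∣ 1 := by
      rcases hres l hl hlm with ⟨_, h⟩ | ⟨_, h⟩
      · have := dvd_sub h hlu'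
        simpa using this
      · have := dvd_sub hlu' h
        simpa using this
    have h2 : l ∣ 1 := by exact_mod_cast h1
    exact hl.one_lt.ne' (Nat.dvd_one.1 h2)
  · by_contra hcop
    obtain ⟨l, hl, hlv, hlm⟩ := Nat.Prime.not_coprime_iff_dvd.1 hcop
    have hm1 : (((m - 1 : ℕ) : ℕ) : ℤ) = (m : ℤ) - 1 := by
      push_cast [Nat.cast_sub (Nat.succ_le_of_lt hm)]
      ring
    have hlv' : (l : ℤ) ∣ ((a : ℤ) + ((m : ℤ) - 1) * u) := by
      have := Int.natCast_dvd_natCast.2 hlv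
      push_cast at this
      rwa [hm1] at this
    have hlm' : (l : ℤ) ∣ (m : ℤ) := Int.natCast_dvd_natCast.2 hlm
    have hlv2 : (l : ℤ) ∣ ((a : ℤ) - u) := by
      have e : (a : ℤ) - u = ((a : ℤ) + ((m : ℤ) - 1) * u) - m * u := by ring
      rw [e]
      exact dvd_sub hlv' (Dvd.dvd.mul_right hlm' _)
    rcases hres l hl hlm with ⟨h0, h⟩ | ⟨h0, h⟩
    · have h2 : (l : ℤ) ∣ 2 := by
        have := dvd_add (dvd_sub hlv2 h0) h
        have e : ((a : ℤ) - u - (a - 1)) + (u + 1) = 2 := by ring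
        rwa [e] at this
      have h3 : l ∣ 2 := by exact_mod_cast h2
      have h4 : l = 2 := (Nat.prime_dvd_prime_iff_eq hl Nat.prime_two).1 h3
      subst h4
      have h5 := hpar hlm
      have h6 : (2 : ℤ) ∣ (a : ℤ) := by exact_mod_cast h5
      have h7 : (2 : ℤ) ∣ (a : ℤ) - 1 := by exact_mod_cast h0
      omega
    · apply h0
      have := dvd_add hlv2 h
      have e : ((a : ℤ) - u) + (u - 1) = a - 1 := by ring
      rwa [e] at this
  · have e : u + (a + (m - 1) * u) = a + m * u := by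
      obtain ⟨m', rfl⟩ : ∃ m', m = m' + 1 := ⟨m - 1, by omega⟩
      simp only [Nat.add_sub_cancel]
      ring
    rw [e]
    exact (Nat.modEq_iff_dvd' (by omega)).2 (by simp)

theorem exists_units {m : ℕ} (hm : 0 < m) (a : ℕ) :
    ∃ u v w e : ℕ, Nat.Coprime u m ∧ Nat.Coprime v m ∧ Nat.Coprime w m ∧ e ≤ 1 ∧ a ≡ u + v + e * w [MOD m] := by
  by_cases hpar : 2 ∣ m → 2 ∣ a
  · obtain ⟨u, v, hu, hv, h⟩ := FO2_two hm a hpar
    exact ⟨u, v, 1, 0, hu, hv, Nat.coprime_one_left m, by omega, by simpa using h⟩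
  · push Not at hpar
    obtain ⟨h2m, h2a⟩ := hpar
    obtain ⟨u, v, hu, hv, h⟩ := FO2_two hm (a + (m - 1)) (fun _ => by omega)
    refine ⟨u, v, 1, 1, hu, hv, Nat.coprime_one_left m, le_refl _, ?_⟩
    have h1 : a + (m - 1) + 1 ≡ u + v + 1 [MOD m] := Nat.ModEq.add_right 1 h
    have h3 : a ≡ a + (m - 1) + 1 [MOD m] := by
      have : a + (m - 1) + 1 = a + m := by omega
      rw [this]
      exact (Nat.modEq_iff_dvd' (by omega)).2 (by simp)
    simpa using h3.trans h1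

theorem galois {m : ℕ} (hm : 0 < m) {ζ : ℂ} (hζ : IsPrimitiveRoot ζ m) {μ : ℕ → ℕ} {q : ℚ}
    (h : ∑ k ∈ Finset.range m, (μ k : ℂ) * ζ ^ k = q) {u : ℕ} (hu : Nat.Coprime u m) :
    ∑ k ∈ Finset.range m, (μ k : ℂ) * ζ ^ (u * k) = q := by
  let f : Polynomial ℚ := ∑ k ∈ Finset.range m, Polynomial.C (μ k : ℚ) * Polynomial.X ^ k - Polynomial.C q
  have hev : ∀ z : ℂ, Polynomial.aeval z f = ∑ k ∈ Finset.range m, (μ k : ℂ) * z ^ k - q := by
    intro z
    simp [f, map_sub, map_sum]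
  have h0 : Polynomial.aeval ζ f = 0 := by rw [hev, h, sub_self]
  have hd : minpoly ℚ ζ ∣ f := minpoly.dvd ℚ ζ h0
  have hmin : minpoly ℚ (ζ ^ u) = minpoly ℚ ζ := by
    rw [← Polynomial.cyclotomic_eq_minpoly_rat hζ hm,
      ← Polynomial.cyclotomic_eq_minpoly_rat (hζ.pow_of_coprime u hu) hm]
  rw [← hmin] at hd
  obtain ⟨g, hg⟩ := hd
  have h1 : Polynomial.aeval (ζ ^ u) f = 0 := by
    rw [hg, map_mul, minpoly.aeval, zero_mul]
  rw [hev, sub_eq_zero] at h1
  rw [← h1]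
  refine Finset.sum_congr rfl fun k _ => ?_
  rw [pow_mul]

private theorem FO2_normsq {z : ℂ} (hz : ‖z‖ = 1) : ‖1 - z‖ ^ 2 = 2 - 2 * z.re := by
  have h1 : ‖1 - z‖ ^ 2 = Complex.normSq (1 - z) := by rw [Complex.normSq_eq_norm_sq]
  have h2 : Complex.normSq z = 1 := by rw [Complex.normSq_eq_norm_sq, hz]; norm_num
  rw [h1]
  rw [Complex.normSq_apply] at h2 ⊢
  simp only [Complex.sub_re, Complex.one_re, Complex.sub_im, Complex.one_im]
  nlinarith

private theorem FO2_tri {z w : ℂ} (hz : ‖z‖ = 1) : ‖1 - z * w‖ ≤ ‖1 - z‖ + ‖1 - w‖ := by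
  have e : 1 - z * w = (1 - z) + z * (1 - w) := by ring
  rw [e]
  refine (norm_add_le _ _).trans ?_
  rw [norm_mul, hz, one_mul]

theorem rank_le_of_rational {n m : ℕ} (hm : 0 < m) {δ : Matrix (Fin n) (Fin n) ℂ} (hδ : δ ^ m = 1) {q : ℚ}
    (hq : trace δ = (q : ℂ)) : ((δ - 1).rank : ℝ) ≤ 9 * (n - (trace δ).re) := by
  obtain ⟨ζ, hζ⟩ : ∃ ζ : ℂ, IsPrimitiveRoot ζ m := ⟨_, Complex.isPrimitiveRoot_exp m hm.ne'⟩
  obtain ⟨μ, htr, hsum, hrk⟩ := exists_mult hm hζ hδ
  have hnorm : ∀ j : ℕ, ‖ζ ^ j‖ = 1 := by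
    intro j
    have : ‖ζ‖ = 1 := Complex.norm_eq_one_of_pow_eq_one hζ.pow_eq_one hm.ne'
    rw [norm_pow, this, one_pow]
  have hmod : ∀ a b : ℕ, a ≡ b [MOD m] → ζ ^ a = ζ ^ b := by
    intro a b hab
    rw [← Nat.mod_add_div a m, ← Nat.mod_add_div b m, pow_add, pow_add, pow_mul, pow_mul,
      hζ.pow_eq_one, one_pow, one_pow, hab]
  let D : ℕ → ℝ := fun j => ∑ k ∈ Finset.range m, (μ k : ℝ) * ‖1 - ζ ^ (j * k)‖ ^ 2
  have hD : ∀ j, D j = 2 * n - 2 * (∑ k ∈ Finset.range m, (μ k : ℂ) * ζ ^ (j * k)).re := by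
    intro j
    have e1 : D j = ∑ k ∈ Finset.range m, (2 * (μ k : ℝ) - 2 * ((μ k : ℂ) * ζ ^ (j * k)).re) := by
      refine Finset.sum_congr rfl fun k _ => ?_
      rw [FO2_normsq (hnorm _)]
      have : ((μ k : ℂ) * ζ ^ (j * k)).re = (μ k : ℝ) * (ζ ^ (j * k)).re := by
        rw [← Complex.ofReal_natCast, Complex.re_ofReal_mul]
      rw [this]; ring
    rw [e1, Finset.sum_sub_distrib, ← Finset.mul_sum, ← Finset.mul_sum, Complex.re_sum]
    congr 2
    rw [← hsum]; push_cast; rfl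
  have hq' : ∑ k ∈ Finset.range m, (μ k : ℂ) * ζ ^ k = q := by
    rw [← hq]
    have := htr 1
    rw [pow_one] at this
    rw [this]
    simp
  have hDu : ∀ u, Nat.Coprime u m → D u = D 1 := by
    intro u hu
    rw [hD, hD, galois hm hζ hq' hu]
    simp only [one_mul]
    rw [hq']
  have hDj : ∀ j, D j ≤ 9 * D 1 := by
    intro j
    obtain ⟨u, v, w, e, hu, hv, hw, he, hj⟩ := exists_units hm j
    have h1 : D j ≤ 3 * (D u + D v + D w) := by
      have e1 : 3 * (D u + D v + D w) = ∑ k ∈ Finset.range m, (μ k : ℝ) *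
          (3 * (‖1 - ζ ^ (u * k)‖ ^ 2 + ‖1 - ζ ^ (v * k)‖ ^ 2 + ‖1 - ζ ^ (w * k)‖ ^ 2)) := by
        simp only [D]
        rw [← Finset.sum_add_distrib, ← Finset.sum_add_distrib, Finset.mul_sum]
        refine Finset.sum_congr rfl fun k _ => ?_
        ring
      rw [e1]
      refine Finset.sum_le_sum fun k _ => ?_
      refine mul_le_mul_of_nonneg_left ?_ (Nat.cast_nonneg _)
      have h2 : ζ ^ (j * k) = ζ ^ (u * k) * (ζ ^ (v * k) * ζ ^ (e * w * k)) := by
        rw [hmod (j * k) ((u + v + e * w) * k) (Nat.ModEq.mul_right k hj), ← pow_add, ← pow_add]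
        congr 1
        ring
      have h3 : ‖1 - ζ ^ (j * k)‖ ≤ ‖1 - ζ ^ (u * k)‖ + (‖1 - ζ ^ (v * k)‖ + ‖1 - ζ ^ (w * k)‖) := by
        rw [h2]
        refine (FO2_tri (hnorm _)).trans ?_
        refine add_le_add le_rfl ((FO2_tri (hnorm _)).trans ?_)
        refine add_le_add le_rfl ?_
        interval_cases e
        · simp
        · simp
      have hA := norm_nonneg (1 - ζ ^ (u * k))
      have hB := norm_nonneg (1 - ζ ^ (v * k))
      have hC := norm_nonneg (1 - ζ ^ (w * k))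
      have hX := norm_nonneg (1 - ζ ^ (j * k))
      calc ‖1 - ζ ^ (j * k)‖ ^ 2
          ≤ (‖1 - ζ ^ (u * k)‖ + (‖1 - ζ ^ (v * k)‖ + ‖1 - ζ ^ (w * k)‖)) ^ 2 :=
            pow_le_pow_left₀ hX h3 2
        _ ≤ _ := by
            nlinarith [sq_nonneg (‖1 - ζ ^ (u * k)‖ - ‖1 - ζ ^ (v * k)‖),
              sq_nonneg (‖1 - ζ ^ (u * k)‖ - ‖1 - ζ ^ (w * k)‖),
              sq_nonneg (‖1 - ζ ^ (v * k)‖ - ‖1 - ζ ^ (w * k)‖)]
    rw [hDu u hu, hDu v hv, hDu w hw] at h1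
    linarith
  -- sum over j
  have hsumj : ∑ j ∈ Finset.range m, D j = 2 * m * ((δ - 1).rank : ℝ) := by
    have e1 : ∑ j ∈ Finset.range m, D j = ∑ k ∈ Finset.range m, (μ k : ℝ) *
        (∑ j ∈ Finset.range m, ‖1 - ζ ^ (j * k)‖ ^ 2) := by
      simp only [D]
      rw [Finset.sum_comm]
      refine Finset.sum_congr rfl fun k _ => ?_
      rw [Finset.mul_sum]
    have e2 : ∀ k ∈ Finset.range m, (μ k : ℝ) * (∑ j ∈ Finset.range m, ‖1 - ζ ^ (j * k)‖ ^ 2)
        = 2 * m * (if k = 0 then 0 else (μ k : ℝ)) := by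
      intro k hk
      by_cases hk0 : k = 0
      · subst hk0
        simp
      · rw [if_neg hk0]
        have hk' : k < m := Finset.mem_range.1 hk
        have hne : ζ ^ k ≠ 1 := hζ.pow_ne_one_of_pos_of_lt hk0 hk'
        have hgeo : ∑ j ∈ Finset.range m, (ζ ^ k) ^ j = 0 := by
          rw [geom_sum_eq hne, ← pow_mul, mul_comm, pow_mul, hζ.pow_eq_one, one_pow, sub_self,
            zero_div]
        have e3 : ∑ j ∈ Finset.range m, ‖1 - ζ ^ (j * k)‖ ^ 2 = 2 * m := by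
          have e4 : ∑ j ∈ Finset.range m, ‖1 - ζ ^ (j * k)‖ ^ 2
              = ∑ j ∈ Finset.range m, ((2 : ℝ) - 2 * ((ζ ^ k) ^ j).re) := by
            refine Finset.sum_congr rfl fun j _ => ?_
            rw [FO2_normsq (hnorm _), ← pow_mul, mul_comm k j]
          rw [e4, Finset.sum_sub_distrib, ← Finset.mul_sum, ← Complex.re_sum, hgeo]
          simp
          ring
        rw [e3]; ring
    rw [e1, Finset.sum_congr rfl e2, ← Finset.mul_sum]
    congr 1
    obtain ⟨m', rfl⟩ : ∃ m', m = m' + 1 := ⟨m - 1, by omega⟩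
    rw [Finset.sum_range_succ'] at hsum ⊢
    simp only [Nat.add_eq_zero_iff, one_ne_zero, and_false, if_false, if_true, add_zero]
    have h5 : (∑ k ∈ Finset.range m', μ (k + 1)) = (δ - 1).rank := by omega
    rw [← h5]
    push_cast
    rfl
  have hle : ∑ j ∈ Finset.range m, D j ≤ m * (9 * D 1) := by
    have := Finset.sum_le_card_nsmul (Finset.range m) D (9 * D 1) (fun j _ => hDj j)
    simpa [nsmul_eq_mul] using this
  rw [hsumj] at hle
  have hD1 : D 1 = 2 * n - 2 * (trace δ).re := by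
    rw [hD, hq]
    simp only [one_mul]
    rw [hq']
  rw [hD1] at hle
  have hm' : (0 : ℝ) < m := by exact_mod_cast hm
  have h6 : (m : ℝ) * (2 * ((δ - 1).rank : ℝ)) ≤ m * (2 * (9 * (n - (trace δ).re))) := by
    nlinarith
  have h7 := le_of_mul_le_mul_left h6 hm'
  linarith

theorem le_rank_of_finite_order {n m : ℕ} (hm : 0 < m) {δ : Matrix (Fin n) (Fin n) ℂ} (hδ : δ ^ m = 1) :
    (n : ℝ) - (trace δ).re ≤ 2 * (δ - 1).rank := by
  obtain ⟨ζ, hζ⟩ : ∃ ζ : ℂ, IsPrimitiveRoot ζ m := ⟨_, Complex.isPrimitiveRoot_exp m hm.ne'⟩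
  obtain ⟨μ, htr, hsum, hrk⟩ := exists_mult hm hζ hδ
  have hnorm : ∀ j : ℕ, ‖ζ ^ j‖ = 1 := by
    intro j
    have : ‖ζ‖ = 1 := Complex.norm_eq_one_of_pow_eq_one hζ.pow_eq_one hm.ne'
    rw [norm_pow, this, one_pow]
  have h1 := htr 1
  rw [pow_one] at h1
  have h2 : (trace δ).re = ∑ k ∈ Finset.range m, (μ k : ℝ) * (ζ ^ k).re := by
    rw [h1, Complex.re_sum]
    refine Finset.sum_congr rfl fun k _ => ?_
    rw [one_mul, ← Complex.ofReal_natCast, Complex.re_ofReal_mul]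
  have h3 : (n : ℝ) = ∑ k ∈ Finset.range m, (μ k : ℝ) := by rw [← hsum]; push_cast; rfl
  rw [h2, h3, ← Finset.sum_sub_distrib]
  obtain ⟨m', rfl⟩ : ∃ m', m = m' + 1 := ⟨m - 1, by omega⟩
  rw [Finset.sum_range_succ'] at hsum ⊢
  have h5 : (∑ k ∈ Finset.range m', μ (k + 1)) = (δ - 1).rank := by omega
  rw [← h5]
  push_cast
  rw [Finset.mul_sum]
  have h6 : (μ 0 : ℝ) - (μ 0 : ℝ) * (ζ ^ 0).re = 0 := by simp
  rw [h6, add_zero]
  refine Finset.sum_le_sum fun k _ => ?_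
  have h7 : -1 ≤ (ζ ^ (k + 1)).re := by
    have := Complex.abs_re_le_norm (ζ ^ (k + 1))
    rw [hnorm] at this
    exact (abs_le.1 this).1
  nlinarith [Nat.cast_nonneg (α := ℝ) (μ (k + 1))]

end Pool.Agent.MP_03ceb7_al.LS
end

section

/-!
# TASK LS Cor3: groups hyperlinear through finite unitary groups with rational traces

(`hs_sq`) for unitary `a`, `b`: `∑ i, ∑ j, ‖(a - b) i j‖ ^ 2 = Re trace ((a - b)ᴴ * (a - b)) = 2 * (n - Re trace (aᴴ * b))`.
(`RationallyHyperlinear.finite`) `δ g = 1 / 4` for all `g`. Given `F`, `ε`, use the hypothesis with `ε' = min (ε / 9) (1 / 2)`. The finite group is the image of `Δ` in `GL (Fin n) ℂ`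
(`Matrix.UnitaryGroup.embeddingGL` or `Unitary.toUnits`). For `g, h ∈ F` let `u = φ (g * h)⁻¹ * (φ g * φ h) ∈ Δ`. It has finite order (`Δ` is finite) and a rational trace;
`rank (φ (g * h) - φ g * φ h) = rank (φ (g * h) * (1 - u)) = rank (u - 1) ≤ 9 * (n - Re trace u)` (`rank_le_of_rational`) `= (9 / 2) * ∑ ∑ ‖.‖ ^ 2 < (9 / 2) * ε' * n ≤ ε * n`.
For `g ∈ F`, `g ≠ 1`: `2 * rank (φ g - 1) ≥ n - Re trace (φ g) ≥ (1 - ε') * n ≥ n / 2` (`le_rank_of_finite_order`).
-/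

set_option autoImplicit false

open Matrix

namespace Pool.Agent.MP_03ceb7_al.LS

private theorem Cor3_sq {n : ℕ} (c : Matrix (Fin n) (Fin n) ℂ) :
    ∑ i, ∑ j, ‖c i j‖ ^ 2 = (trace (cᴴ * c)).re := by
  have h1 : trace (cᴴ * c) = ∑ j, ∑ i, (starRingEnd ℂ) (c i j) * c i j := by
    simp only [Matrix.trace, Matrix.diag_apply, Matrix.mul_apply, Matrix.conjTranspose_apply]
    rfl
  rw [h1, Finset.sum_comm, Complex.re_sum]
  refine Finset.sum_congr rfl fun i _ => ?_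
  rw [Complex.re_sum]
  refine Finset.sum_congr rfl fun j _ => ?_
  rw [mul_comm, Complex.mul_conj, Complex.ofReal_re, Complex.normSq_eq_norm_sq]

theorem hs_sq {n : ℕ} {a b : Matrix (Fin n) (Fin n) ℂ} (ha : a ∈ Matrix.unitaryGroup (Fin n) ℂ) (hb : b ∈ Matrix.unitaryGroup (Fin n) ℂ) :
    ∑ i, ∑ j, ‖(a - b) i j‖ ^ 2 = 2 * (n - (trace (aᴴ * b)).re) := by
  rw [Cor3_sq]
  have ha' : aᴴ * a = 1 := by
    have := Matrix.mem_unitaryGroup_iff'.1 ha
    rwa [Matrix.star_eq_conjTranspose] at this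
  have hb' : bᴴ * b = 1 := by
    have := Matrix.mem_unitaryGroup_iff'.1 hb
    rwa [Matrix.star_eq_conjTranspose] at this
  have h1 : (a - b)ᴴ * (a - b) = 1 - aᴴ * b - bᴴ * a + 1 := by
    rw [Matrix.conjTranspose_sub, sub_mul, mul_sub, mul_sub, ha', hb']
    abel
  have h2 : (trace (bᴴ * a)).re = (trace (aᴴ * b)).re := by
    have h3 : bᴴ * a = (aᴴ * b)ᴴ := by
      rw [Matrix.conjTranspose_mul, Matrix.conjTranspose_conjTranspose]
    rw [h3, Matrix.trace_conjTranspose]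
    exact Complex.conj_re _
  rw [h1, Matrix.trace_add, Matrix.trace_sub, Matrix.trace_sub, Matrix.trace_one, Fintype.card_fin]
  simp only [Complex.add_re, Complex.sub_re, Complex.natCast_re, h2]
  ring

theorem RationallyHyperlinear.finite {G : Type*} [Group G] (hG : RationallyHyperlinear G) : FiniteLinearSofic G := by
  classical
  refine ⟨fun _ => 1 / 4, fun g _ => by norm_num, fun F ε hε => ?_⟩
  obtain ⟨n, hn, Δ, φ, hΔ, hrat, hφ, hmul, htr⟩ := hG F (min (ε / 9) (1 / 2)) (lt_min (by positivity) (by norm_num))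
  choose u hu hφu using hφ
  -- the embedding
  let em : Matrix.unitaryGroup (Fin n) ℂ →* GL (Fin n) ℂ := Unitary.toUnits
  have hem : ∀ x : Matrix.unitaryGroup (Fin n) ℂ, ((em x : GL (Fin n) ℂ) : Matrix (Fin n) (Fin n) ℂ) = (x : Matrix (Fin n) (Fin n) ℂ) :=
    fun x => rfl
  have hfin : Finite (Δ.map em) := by
    have : Finite (em '' (Δ : Set (Matrix.unitaryGroup (Fin n) ℂ))) := Set.Finite.to_subtype (Set.Finite.image _ (Set.toFinite _))
    exact this
  have hN : ∃ N : ℕ, 0 < N ∧ ∀ x ∈ Δ, ((x : Matrix.unitaryGroup (Fin n) ℂ) : Matrix (Fin n) (Fin n) ℂ) ^ N = 1 := by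
    refine ⟨Nat.card Δ, Nat.card_pos, fun x hx => ?_⟩
    have h1 : (⟨x, hx⟩ : Δ) ^ Nat.card Δ = 1 := pow_card_eq_one'
    have h2 : x ^ Nat.card Δ = 1 := congrArg (fun z : Δ => (z : Matrix.unitaryGroup (Fin n) ℂ)) h1
    have h3 : ((x ^ Nat.card Δ : Matrix.unitaryGroup (Fin n) ℂ) : Matrix (Fin n) (Fin n) ℂ) = 1 := by
      rw [h2]
      rfl
    rw [← h3]
    exact (SubmonoidClass.coe_pow x _).symm
  obtain ⟨N, hN0, hN⟩ := hN
  have hn' : (0 : ℝ) < n := by exact_mod_cast hn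
  refine ⟨n, Δ.map em, fun g => em (u g), hn, hfin, fun g => ⟨u g, hu g, rfl⟩, fun g hg h hh => ?_, fun g hg hg1 => ?_⟩
  · simp only [hem]
    have hx : (u (g * h))⁻¹ * (u g * u h) ∈ Δ := Δ.mul_mem (Δ.inv_mem (hu _)) (Δ.mul_mem (hu _) (hu _))
    obtain ⟨q, hq⟩ := hrat _ hx
    have h1 := rank_le_of_rational hN0 (hN _ hx) hq
    have h2 := hs_sq (u (g * h)).2 (u g * u h).2
    have h3 := hmul g hg h hh
    rw [hφu (g * h), hφu g, hφu h] at h3
    have h4 : ((u g * u h : Matrix.unitaryGroup (Fin n) ℂ) : Matrix (Fin n) (Fin n) ℂ) =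
        (u g : Matrix (Fin n) (Fin n) ℂ) * (u h : Matrix (Fin n) (Fin n) ℂ) := rfl
    rw [← h4] at h3 ⊢
    rw [h2] at h3
    have h5 : (((u (g * h))⁻¹ * (u g * u h) : Matrix.unitaryGroup (Fin n) ℂ) : Matrix (Fin n) (Fin n) ℂ) =
        (u (g * h) : Matrix (Fin n) (Fin n) ℂ)ᴴ * ((u g * u h : Matrix.unitaryGroup (Fin n) ℂ) : Matrix (Fin n) (Fin n) ℂ) := rfl
    rw [h5] at h1
    have h6 : (u (g * h) : Matrix (Fin n) (Fin n) ℂ) * (u (g * h) : Matrix (Fin n) (Fin n) ℂ)ᴴ = 1 := by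
      have := Matrix.mem_unitaryGroup_iff.1 (u (g * h)).2
      rwa [Matrix.star_eq_conjTranspose] at this
    have h7 : (u (g * h) : Matrix (Fin n) (Fin n) ℂ) - ((u g * u h : Matrix.unitaryGroup (Fin n) ℂ) : Matrix (Fin n) (Fin n) ℂ) =
        (u (g * h) : Matrix (Fin n) (Fin n) ℂ) * (1 - (u (g * h) : Matrix (Fin n) (Fin n) ℂ)ᴴ *
          ((u g * u h : Matrix.unitaryGroup (Fin n) ℂ) : Matrix (Fin n) (Fin n) ℂ)) := by
      rw [mul_sub, mul_one, ← mul_assoc, h6, one_mul]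
    have h8 : (((u (g * h) : Matrix (Fin n) (Fin n) ℂ) -
        ((u g * u h : Matrix.unitaryGroup (Fin n) ℂ) : Matrix (Fin n) (Fin n) ℂ)).rank : ℝ) ≤
        (((u (g * h) : Matrix (Fin n) (Fin n) ℂ)ᴴ *
          ((u g * u h : Matrix.unitaryGroup (Fin n) ℂ) : Matrix (Fin n) (Fin n) ℂ) - 1).rank : ℝ) := by
      rw [h7, rank_sub_rev]
      exact_mod_cast Matrix.rank_mul_le_right _ _
    have h9 : min (ε / 9) (1 / 2) ≤ ε / 9 := min_le_left _ _
    nlinarith [mul_le_mul_of_nonneg_right h9 hn'.le, mul_pos hε hn']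
  · simp only [hem]
    have h1 := le_rank_of_finite_order hN0 (hN _ (hu g))
    have h2 := htr g hg hg1
    rw [hφu g] at h2
    have h3 : min (ε / 9) (1 / 2) ≤ 1 / 2 := min_le_right _ _
    have h4 : (trace (u g : Matrix (Fin n) (Fin n) ℂ)).re ≤ ‖trace (u g : Matrix (Fin n) (Fin n) ℂ)‖ :=
      (le_abs_self _).trans (Complex.abs_re_le_norm _)
    nlinarith [mul_le_mul_of_nonneg_right h3 hn'.le]

end Pool.Agent.MP_03ceb7_al.LS
end

section

/-!
# TASK LS FO3: rank and trace of a matrix of finite order whose traces have bounded degree (analytic part)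

`ζ` is a primitive `m`-th root of unity in `ℂ`, `Un m` the finset of the `u < m` prime to `m` (for `m = 1` it is `{0}`).
(`norm_prod`) Let `0 < k < m` and `e = m / gcd k m ≥ 2`; `ζ ^ k` is a primitive `e`-th root of unity. `∏ a ∈ Un m, (1 - ζ ^ (a * k))` is an algebraic integer, it is rational and not `0`, so it is a nonzero integer
and its norm is `≥ 1`. Proof 1: reduction `(ZMod m)ˣ → (ZMod e)ˣ` is surjective (`ZMod.unitsMap_surjective`), all fibres have the same number `c` of elements (`MonoidHom.card_fiber_eq_of_mem_range`), so the product is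
`(∏ over the primitive e-th roots ξ of (1 - ξ)) ^ c = (eval 1 (cyclotomic e ℤ)) ^ c`, a nonzero integer (`Polynomial.cyclotomic_pos'`-like lemmas or `Polynomial.eval_one_cyclotomic_...`: all
values are `≠ 0`: `1` is not a primitive `e`-th root of unity). Proof 2: `1 - ζ ^ k` is a nonzero element of the ring of integers of `ℚ(ζ)`, its norm is a nonzero integer and equal to this product
(`Algebra.norm_eq_prod_embeddings`, the embeddings are `ζ ↦ ζ ^ a`, `a ∈ Un m`).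
(`sum_ge`) Let `μ k` be natural numbers, `r = ∑ 0 < k < m, μ k`. For `a ∈ Un m` put `x a k = ‖1 - ζ ^ (a * k)‖ ^ 2 ∈ (0, 4]` (`0 < k < m`) and `L a = ∑ 0 < k < m, μ k * log (x a k) ≤ r * log 4`. By `norm_prod`
`∑ a ∈ Un m, L a ≥ 0`. Let `H ⊆ Un m` be such that `L a = L 1` for `a ∈ H` (follows from `hH`, see below) and `#(Un m) ≤ d * #H`, `H` nonempty. Then `0 ≤ #H * L 1 + (#(Un m) - #H) * r * log 4`, so `L 1 ≥ - (d - 1) * r * log 4`.
With `c = 4 ^ (-(d - 1)) = 1 / 4 ^ (d - 1)`: `log (x / c) ≤ x / c - 1` gives `∑ μ k * x 1 k ≥ c * (L 1 - r * log c + r) ≥ c * r`.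
(`hH`): for `u ∈ H`, `μ` is invariant: `μ ((u * k) % m) = μ k` for all `k < m`. Then `L u = ∑ μ k log (x u k) = ∑ μ ((u k) % m) log ‖1 - ζ ^ ((u k) % m)‖ ^ 2 = L 1`
(`k ↦ (u k) % m` is a permutation of `{1, .., m - 1}`). (`L 1` means the same sum with `a = 1`, also if `m = 1`: then all sums are empty.)
-/

set_option autoImplicit false

open Matrix

namespace Pool.Agent.MP_03ceb7_al.LS

/-- The numbers below `m` which are prime to `m`. -/
def Un (m : ℕ) : Finset ℕ := (Finset.range m).filter (fun u => Nat.Coprime u m)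

private theorem FO3_units (m : ℕ) [NeZero m] (F : ℕ → ℂ) :
    ∏ a ∈ Un m, F a = ∏ u : (ZMod m)ˣ, F (u : ZMod m).val := by
  refine Finset.prod_bij' (fun a ha => ZMod.unitOfCoprime a (Finset.mem_filter.mp ha).2)
    (fun u _ => (u : ZMod m).val) ?_ ?_ ?_ ?_ ?_
  · intro a ha
    exact Finset.mem_univ _
  · intro u _
    unfold Un
    rw [Finset.mem_filter, Finset.mem_range]
    exact ⟨ZMod.val_lt _, ZMod.val_coe_unit_coprime u⟩
  · intro a ha
    have h1 := Finset.mem_range.mp (Finset.mem_filter.mp ha).1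
    show ((ZMod.unitOfCoprime a _ : (ZMod m)ˣ) : ZMod m).val = a
    rw [ZMod.coe_unitOfCoprime, ZMod.val_natCast, Nat.mod_eq_of_lt h1]
  · intro u _
    apply Units.ext
    rw [ZMod.coe_unitOfCoprime]
    exact ZMod.natCast_zmod_val _
  · intro a ha
    have h1 := Finset.mem_range.mp (Finset.mem_filter.mp ha).1
    rw [ZMod.coe_unitOfCoprime, ZMod.val_natCast, Nat.mod_eq_of_lt h1]

private theorem FO3_cyc {e : ℕ} [NeZero e] {η : ℂ} (hη : IsPrimitiveRoot η e) :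
    ∏ b : (ZMod e)ˣ, (1 - η ^ (b : ZMod e).val) = ((Polynomial.eval 1 (Polynomial.cyclotomic e ℤ) : ℤ) : ℂ) := by
  have he : 0 < e := Nat.pos_of_ne_zero (NeZero.ne e)
  have h1 : ((Polynomial.eval 1 (Polynomial.cyclotomic e ℤ) : ℤ) : ℂ) = Polynomial.eval 1 (Polynomial.cyclotomic e ℂ) := by
    have h2 := Polynomial.eval_intCast_map (Int.castRingHom ℂ) (Polynomial.cyclotomic e ℤ) 1
    rw [Polynomial.map_cyclotomic_int] at h2
    simpa using h2.symm
  rw [h1, Polynomial.cyclotomic_eq_prod_X_sub_primitiveRoots hη, Polynomial.eval_prod]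
  rw [← FO3_units e (fun a => 1 - η ^ a)]
  refine Finset.prod_bij (fun a _ => η ^ a) ?_ ?_ ?_ ?_
  · intro a ha
    have h2 := (Finset.mem_filter.mp ha).2
    rw [mem_primitiveRoots he]
    exact hη.pow_of_coprime a h2
  · intro a ha b hb hab
    have h2 := Finset.mem_range.mp (Finset.mem_filter.mp ha).1
    have h3 := Finset.mem_range.mp (Finset.mem_filter.mp hb).1
    exact hη.pow_inj h2 h3 hab
  · intro ξ hξ
    rw [mem_primitiveRoots he] at hξ
    obtain ⟨i, hi, hic, hξ'⟩ := hη.isPrimitiveRoot_iff.mp hξ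
    exact ⟨i, Finset.mem_filter.mpr ⟨Finset.mem_range.mpr hi, hic⟩, hξ'⟩
  · intro a ha
    simp

theorem norm_prod {m : ℕ} {ζ : ℂ} (hζ : IsPrimitiveRoot ζ m) {k : ℕ} (hk : 0 < k) (hkm : k < m) :
    1 ≤ ∏ a ∈ Un m, ‖1 - ζ ^ (a * k)‖ := by
  have hm : 0 < m := hk.trans hkm
  have _ : NeZero m := ⟨hm.ne'⟩
  have hη : IsPrimitiveRoot (ζ ^ k) (orderOf (ζ ^ k)) := IsPrimitiveRoot.orderOf (ζ ^ k)
  have hd : orderOf (ζ ^ k) ∣ m := by
    rw [orderOf_dvd_iff_pow_eq_one, ← pow_mul, mul_comm, pow_mul, hζ.pow_eq_one, one_pow]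
  have hne : ζ ^ k ≠ 1 := hζ.pow_ne_one_of_pos_of_lt hk.ne' hkm
  have he1 : orderOf (ζ ^ k) ≠ 1 := by
    intro h
    exact hne (orderOf_eq_one_iff.mp h)
  have he0 : 0 < orderOf (ζ ^ k) := Nat.pos_of_dvd_of_pos hd hm
  generalize orderOf (ζ ^ k) = e at hη hd he1 he0
  have _ : NeZero e := ⟨he0.ne'⟩
  have hprod : ∏ a ∈ Un m, (1 - ζ ^ (a * k)) =
      (((Polynomial.eval 1 (Polynomial.cyclotomic e ℤ) : ℤ) : ℂ)) ^
        (Finset.univ.filter (fun u : (ZMod m)ˣ => ZMod.unitsMap hd u = 1)).card := by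
    rw [FO3_units m (fun a => 1 - ζ ^ (a * k))]
    have h1 : ∀ u : (ZMod m)ˣ, 1 - ζ ^ ((u : ZMod m).val * k) =
        (fun b : (ZMod e)ˣ => 1 - (ζ ^ k) ^ (b : ZMod e).val) (ZMod.unitsMap hd u) := by
      intro u
      show _ = 1 - (ζ ^ k) ^ ((ZMod.unitsMap hd u : (ZMod e)ˣ) : ZMod e).val
      rw [ZMod.unitsMap_val, ZMod.cast_eq_val, ZMod.val_natCast, mul_comm, pow_mul]
      congr 1
      have h2 := Nat.div_add_mod (u : ZMod m).val e
      calc (ζ ^ k) ^ (u : ZMod m).val = (ζ ^ k) ^ (e * ((u : ZMod m).val / e) + (u : ZMod m).val % e) := by rw [h2]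
        _ = (ζ ^ k) ^ ((u : ZMod m).val % e) := by
          rw [pow_add, pow_mul, hη.pow_eq_one, one_pow, one_mul]
    refine (Finset.prod_congr rfl (fun u _ => h1 u)).trans ?_
    refine (Finset.prod_comp (s := Finset.univ) (fun b : (ZMod e)ˣ => 1 - (ζ ^ k) ^ (b : ZMod e).val)
      (ZMod.unitsMap hd)).trans ?_
    rw [Finset.image_univ_of_surjective (ZMod.unitsMap_surjective hd), ← FO3_cyc hη, ← Finset.prod_pow]
    apply Finset.prod_congr rfl
    intro b _
    congr 1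
    exact MonoidHom.card_fiber_eq_of_mem_range (ZMod.unitsMap hd)
      (ZMod.unitsMap_surjective hd b) (ZMod.unitsMap_surjective hd 1)
  have hz : (Polynomial.eval 1 (Polynomial.cyclotomic e ℤ) : ℤ) ≠ 0 := by
    intro h
    have h2 := Polynomial.eval_intCast_map (Int.castRingHom ℂ) (Polynomial.cyclotomic e ℤ) 1
    rw [Polynomial.map_cyclotomic_int] at h2
    have h3 : (Polynomial.cyclotomic e ℂ).IsRoot 1 := by
      rw [Polynomial.IsRoot.def]
      simpa [h] using h2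
    have _ : NeZero ((e : ℕ) : ℂ) := ⟨by exact_mod_cast he0.ne'⟩
    rw [Polynomial.isRoot_cyclotomic_iff] at h3
    exact he1 (h3.unique IsPrimitiveRoot.one)
  rw [← _root_.norm_prod, hprod, norm_pow, Complex.norm_intCast]
  apply one_le_pow₀
  have := Int.one_le_abs hz
  exact_mod_cast this

theorem sum_ge {m d : ℕ} (hm : 0 < m) (hd : 0 < d) {ζ : ℂ} (hζ : IsPrimitiveRoot ζ m) (μ : ℕ → ℕ) (H : Finset ℕ)
    (hHU : H ⊆ Un m) (hne : H.Nonempty) (hcard : (Un m).card ≤ d * H.card)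
    (hH : ∀ u ∈ H, ∀ k < m, μ ((u * k) % m) = μ k) :
    (1 / 4 ^ (d - 1) : ℝ) * ∑ k ∈ (Finset.range m).erase 0, (μ k : ℝ) ≤
      ∑ k ∈ (Finset.range m).erase 0, (μ k : ℝ) * ‖1 - ζ ^ k‖ ^ 2 := by
  have _ : NeZero m := ⟨hm.ne'⟩
  have hζn : ‖ζ‖ = 1 := hζ.norm'_eq_one hm.ne'
  set S := (Finset.range m).erase 0 with hS
  have hSm : ∀ k ∈ S, 0 < k ∧ k < m := by
    intro k hk
    rw [hS, Finset.mem_erase, Finset.mem_range] at hk
    exact ⟨Nat.pos_of_ne_zero hk.1, hk.2⟩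
  have hred : ∀ a : ℕ, ζ ^ a = ζ ^ (a % m) := by
    intro a
    calc ζ ^ a = ζ ^ (m * (a / m) + a % m) := by rw [Nat.div_add_mod]
      _ = ζ ^ (a % m) := by rw [pow_add, pow_mul, hζ.pow_eq_one, one_pow, one_mul]
  have hmodS : ∀ a ∈ Un m, ∀ k ∈ S, (a * k) % m ∈ S := by
    intro a ha k hk
    have hc := (Finset.mem_filter.mp ha).2
    obtain ⟨h1, h2⟩ := hSm k hk
    rw [hS, Finset.mem_erase, Finset.mem_range]
    refine ⟨?_, Nat.mod_lt _ hm⟩
    intro h3
    have h4 : m ∣ a * k := Nat.dvd_of_mod_eq_zero h3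
    have h5 : m ∣ k := (Nat.Coprime.symm hc).dvd_of_dvd_mul_left h4
    exact absurd (Nat.le_of_dvd h1 h5) (not_le.mpr h2)
  have hx0 : ∀ a ∈ Un m, ∀ k ∈ S, 0 < ‖1 - ζ ^ (a * k)‖ := by
    intro a ha k hk
    rw [norm_pos_iff, sub_ne_zero, hred]
    obtain ⟨h1, h2⟩ := hSm _ (hmodS a ha k hk)
    exact (hζ.pow_ne_one_of_pos_of_lt h1.ne' h2).symm
  have hx4 : ∀ b : ℕ, ‖1 - ζ ^ b‖ ^ 2 ≤ 4 := by
    intro b
    have h1 : ‖1 - ζ ^ b‖ ≤ 2 := by
      calc ‖1 - ζ ^ b‖ ≤ ‖(1:ℂ)‖ + ‖ζ ^ b‖ := norm_sub_le _ _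
        _ = 2 := by rw [norm_one, norm_pow, hζn, one_pow]; norm_num
    nlinarith [norm_nonneg (1 - ζ ^ b)]
  set L : ℕ → ℝ := fun a => ∑ k ∈ S, (μ k : ℝ) * Real.log (‖1 - ζ ^ (a * k)‖ ^ 2) with hL
  set L1 : ℝ := ∑ k ∈ S, (μ k : ℝ) * Real.log (‖1 - ζ ^ k‖ ^ 2) with hL1
  set r : ℝ := ∑ k ∈ S, (μ k : ℝ) with hr
  have hlog4 : 0 < Real.log 4 := Real.log_pos (by norm_num)
  have hr0 : 0 ≤ r := Finset.sum_nonneg (fun k _ => Nat.cast_nonneg _)
  have s1 : ∀ a ∈ Un m, L a ≤ r * Real.log 4 := by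
    intro a ha
    rw [hL, hr, Finset.sum_mul]
    apply Finset.sum_le_sum
    intro k hk
    apply mul_le_mul_of_nonneg_left _ (Nat.cast_nonneg _)
    exact Real.log_le_log (pow_pos (hx0 a ha k hk) 2) (hx4 _)
  have s2 : 0 ≤ ∑ a ∈ Un m, L a := by
    rw [hL, Finset.sum_comm]
    apply Finset.sum_nonneg
    intro k hk
    rw [← Finset.mul_sum]
    apply mul_nonneg (Nat.cast_nonneg _)
    have h1 : ∑ a ∈ Un m, Real.log (‖1 - ζ ^ (a * k)‖ ^ 2) = Real.log ((∏ a ∈ Un m, ‖1 - ζ ^ (a * k)‖) ^ 2) := by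
      rw [← Finset.prod_pow, Real.log_prod]
      intro a ha
      exact (pow_pos (hx0 a ha k hk) 2).ne'
    rw [h1]
    apply Real.log_nonneg
    apply one_le_pow₀
    exact norm_prod hζ (hSm k hk).1 (hSm k hk).2
  have s3 : ∀ a ∈ H, L a = L1 := by
    intro a ha
    have haU := hHU ha
    have hc := (Finset.mem_filter.mp haU).2
    rw [hL, hL1]
    have h1 : ∀ k ∈ S, (μ k : ℝ) * Real.log (‖1 - ζ ^ (a * k)‖ ^ 2) =
        (fun k' => (μ k' : ℝ) * Real.log (‖1 - ζ ^ k'‖ ^ 2)) ((a * k) % m) := by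
      intro k hk
      show _ = (μ ((a * k) % m) : ℝ) * Real.log (‖1 - ζ ^ ((a * k) % m)‖ ^ 2)
      rw [hH a ha k (hSm k hk).2, ← hred]
    have hinj : Set.InjOn (fun k => (a * k) % m) (S : Set ℕ) := by
      intro k hk l hl hkl
      have h2 : a * k ≡ a * l [MOD m] := hkl
      have h3 : k ≡ l [MOD m] := Nat.ModEq.cancel_left_of_coprime (Nat.Coprime.symm hc) h2
      have h4 := (hSm k hk).2
      have h5 := (hSm l hl).2
      unfold Nat.ModEq at h3
      rwa [Nat.mod_eq_of_lt h4, Nat.mod_eq_of_lt h5] at h3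
    have himg : S.image (fun k => (a * k) % m) = S := by
      apply Finset.eq_of_subset_of_card_le
      · intro y hy
        obtain ⟨k, hk, hky⟩ := Finset.mem_image.mp hy
        rw [← hky]
        exact hmodS a haU k hk
      · rw [Finset.card_image_of_injOn hinj]
    show ∑ k ∈ S, (μ k : ℝ) * Real.log (‖1 - ζ ^ (a * k)‖ ^ 2) = ∑ k ∈ S, (μ k : ℝ) * Real.log (‖1 - ζ ^ k‖ ^ 2)
    rw [Finset.sum_congr rfl h1]
    have h6 := Finset.sum_image (s := S) (g := fun k => (a * k) % m)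
      (f := fun k' => (μ k' : ℝ) * Real.log (‖1 - ζ ^ k'‖ ^ 2)) hinj
    rw [himg] at h6
    exact h6.symm
  have s4 : ∑ a ∈ Un m, L a ≤ H.card * L1 + ((Un m).card - H.card) * (r * Real.log 4) := by
    rw [← Finset.sum_sdiff hHU]
    have h1 : ∑ a ∈ H, L a = H.card * L1 := by
      rw [Finset.sum_congr rfl s3, Finset.sum_const, nsmul_eq_mul]
    have h2 : ∑ a ∈ Un m \ H, L a ≤ ((Un m).card - H.card) * (r * Real.log 4) := by
      have h3 : ∑ a ∈ Un m \ H, L a ≤ ∑ a ∈ Un m \ H, r * Real.log 4 :=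
        Finset.sum_le_sum (fun a ha => s1 a (Finset.mem_sdiff.mp ha).1)
      have h4 : ((Un m \ H).card : ℝ) = (Un m).card - H.card := by
        rw [Finset.card_sdiff_of_subset hHU, Nat.cast_sub (Finset.card_le_card hHU)]
      rw [Finset.sum_const, nsmul_eq_mul, h4] at h3
      exact h3
    linarith
  have hHpos : (0:ℝ) < H.card := by
    have := Finset.card_pos.mpr hne
    exact_mod_cast this
  have hcard' : ((Un m).card : ℝ) ≤ d * H.card := by exact_mod_cast hcard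
  have hd1 : (1:ℝ) ≤ d := by exact_mod_cast hd
  have s5 : - ((d - 1) * (r * Real.log 4)) ≤ L1 := by
    have hR : 0 ≤ r * Real.log 4 := mul_nonneg hr0 hlog4.le
    have h1 : ((Un m).card - H.card : ℝ) * (r * Real.log 4) ≤ ((d - 1) * H.card) * (r * Real.log 4) := by
      apply mul_le_mul_of_nonneg_right _ hR
      linarith
    have h2 : 0 ≤ (H.card : ℝ) * (L1 + (d - 1) * (r * Real.log 4)) := by nlinarith
    have h3 := nonneg_of_mul_nonneg_right h2 hHpos
    linarith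
  have hcpos : (0:ℝ) < 1 / 4 ^ (d - 1) := by positivity
  have hclog : Real.log (1 / 4 ^ (d - 1)) = - ((d - 1 : ℝ) * Real.log 4) := by
    rw [one_div, Real.log_inv, Real.log_pow, Nat.cast_sub hd]
    norm_num
  have s6 : ∀ k ∈ S, (1 / 4 ^ (d - 1) : ℝ) * (Real.log (‖1 - ζ ^ k‖ ^ 2) - Real.log (1 / 4 ^ (d - 1)) + 1) ≤ ‖1 - ζ ^ k‖ ^ 2 := by
    intro k hk
    have hpos : 0 < ‖1 - ζ ^ k‖ ^ 2 := by
      apply pow_pos
      rw [norm_pos_iff, sub_ne_zero]
      exact (hζ.pow_ne_one_of_pos_of_lt (hSm k hk).1.ne' (hSm k hk).2).symm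
    have h1 := Real.log_le_sub_one_of_pos (div_pos hpos hcpos)
    rw [Real.log_div hpos.ne' hcpos.ne'] at h1
    have h2 : (1 / 4 ^ (d - 1) : ℝ) * (Real.log (‖1 - ζ ^ k‖ ^ 2) - Real.log (1 / 4 ^ (d - 1)) + 1) ≤
        (1 / 4 ^ (d - 1) : ℝ) * (‖1 - ζ ^ k‖ ^ 2 / (1 / 4 ^ (d - 1))) := by
      apply mul_le_mul_of_nonneg_left _ hcpos.le
      linarith
    rwa [mul_div_cancel₀ _ hcpos.ne'] at h2
  have s7 : ∑ k ∈ S, (μ k : ℝ) * ((1 / 4 ^ (d - 1) : ℝ) * (Real.log (‖1 - ζ ^ k‖ ^ 2) - Real.log (1 / 4 ^ (d - 1)) + 1)) ≤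
      ∑ k ∈ S, (μ k : ℝ) * ‖1 - ζ ^ k‖ ^ 2 :=
    Finset.sum_le_sum (fun k hk => mul_le_mul_of_nonneg_left (s6 k hk) (Nat.cast_nonneg _))
  have s8 : ∑ k ∈ S, (μ k : ℝ) * ((1 / 4 ^ (d - 1) : ℝ) * (Real.log (‖1 - ζ ^ k‖ ^ 2) - Real.log (1 / 4 ^ (d - 1)) + 1)) =
      (1 / 4 ^ (d - 1) : ℝ) * (L1 - r * Real.log (1 / 4 ^ (d - 1)) + r) := by
    rw [hL1, hr, Finset.sum_mul, ← Finset.sum_sub_distrib, ← Finset.sum_add_distrib, Finset.mul_sum]
    apply Finset.sum_congr rfl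
    intro k _
    ring
  rw [s8] at s7
  refine le_trans ?_ s7
  apply mul_le_mul_of_nonneg_left _ hcpos.le
  rw [hclog]
  linarith

end Pool.Agent.MP_03ceb7_al.LS
end
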