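import Mathlib
import Pool.Agent.Lib.MP_03ceb7_al.LS.Rk

section

/-!
# TASK LS Ext: common extension fields, regular representations

(`exists_common_ext`) `K ⊗[ZMod p] κ` (algebras by `ZMod.algebra`) is a nonzero commutative ring (free modules over a field, `Algebra.TensorProduct`); take the quotient by a maximal ideal
(`Ideal.exists_maximal`, `Ideal.Quotient.field`). (`exists_common_ext_zero`) the same over `ℚ` (`DivisionRing.toRatAlgebra`).
(`exists_rep`) a basis of `A` indexed by `Fin d` (`Module.finBasis`), `Algebra.leftMulMatrix`, `Algebra.leftMulMatrix_injective`, followed by `RingHom.mapMatrix h` (injective: `h` is).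
-/

set_option autoImplicit false

open scoped TensorProduct

universe u v w

namespace Pool.Agent.MP_03ceb7_al.LS

private theorem Ext_aux {F : Type*} [Field F] (K : Type u) [Field K] [Algebra F K] (κ : Type v) [Field κ] [Algebra F κ] :
    ∃ (Ω : Type (max u v)) (_ : Field Ω), Nonempty (K →+* Ω) ∧ Nonempty (κ →+* Ω) := by
  have hnt : Nontrivial (K ⊗[F] κ) := inferInstance
  obtain ⟨m, hm⟩ := Ideal.exists_maximal (K ⊗[F] κ)
  letI : Field ((K ⊗[F] κ) ⧸ m) := Ideal.Quotient.field m
  exact ⟨(K ⊗[F] κ) ⧸ m, inferInstance,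
    ⟨(Ideal.Quotient.mk m).comp (Algebra.TensorProduct.includeLeftRingHom)⟩,
    ⟨(Ideal.Quotient.mk m).comp (Algebra.TensorProduct.includeRight : κ →ₐ[F] K ⊗[F] κ).toRingHom⟩⟩

theorem exists_common_ext (p : ℕ) [Fact p.Prime] (K : Type u) [Field K] [CharP K p] (κ : Type v) [Field κ] [CharP κ p] :
    ∃ (Ω : Type (max u v)) (_ : Field Ω), Nonempty (K →+* Ω) ∧ Nonempty (κ →+* Ω) := by
  letI : Algebra (ZMod p) K := ZMod.algebra K p
  letI : Algebra (ZMod p) κ := ZMod.algebra κ p
  exact Ext_aux (F := ZMod p) K κ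

theorem exists_common_ext_zero (K : Type u) [Field K] [CharZero K] (κ : Type v) [Field κ] [CharZero κ] :
    ∃ (Ω : Type (max u v)) (_ : Field Ω), Nonempty (K →+* Ω) ∧ Nonempty (κ →+* Ω) :=
  Ext_aux (F := ℚ) K κ

theorem exists_rep (K : Type u) [Field K] (A : Type w) [Ring A] [Algebra K A] [Module.Finite K A] :
    ∃ d : ℕ, ∀ (Ω : Type (max u v)) [Field Ω], (K →+* Ω) → ∃ f : A →+* Matrix (Fin d) (Fin d) Ω, Function.Injective f := by
  refine ⟨Module.finrank K A, fun Ω _ h => ?_⟩
  let b := Module.finBasis K A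
  refine ⟨(RingHom.mapMatrix h).comp (Algebra.leftMulMatrix b).toRingHom, ?_⟩
  intro x y hxy
  apply Algebra.leftMulMatrix_injective b
  ext i j
  have h1 := congrFun (congrFun hxy i) j
  exact h.injective h1

end Pool.Agent.MP_03ceb7_al.LS
end

section

/-!
# TASK LS Kron: tensor products of finitely many matrices

(`kron_mul`) `Finset.prod_univ_sum`, `Fintype.piFinset_univ`. (`rank_kron_le`) `kron A = kron (update (fun _ => 1) t (A t)) * kron (update A t 1)`, so
`rank (kron A) ≤ rank (kron (update (fun _ => 1) t D))`, `D = A t`. With `D = B * C` (`exists_factor`, middle index `Fin r`), the matrix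
`kron (update (fun _ => 1) t D)` is the product of `B' : Matrix (ι → n) (Fin r × ({s // s ≠ t} → n)) L`, `B' a (k, c) = if (∀ s, a s.1 = c s) then B (a t) k else 0`
and the analogous `C'`; so its rank is at most the number `r * card n ^ (card ι - 1)` of elements of the middle index type.
(`rank_kron_sub_le`) by induction on a Finset `S` of `ι`: `kron (fun t => if t ∈ S then A t else B t) - kron B` has rank `≤ ∑ t ∈ S, ...`: when `t` is added to `S` the two
matrices differ by `kron (update _ t (A t - B t))` (`kron` is additive in each factor; `Finset.prod_update_of_mem` or `Fintype.prod_eq_mul_prod_compl`).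
(`le_rank_kron`) for each `t` there are `P t`, `Q t` with `P t * A t * Q t = 1` of size `r` (take `r` rows of `P`, `r` columns of `Q` in `exists_unfactor`:
`submatrix (Fin.castLE _) id`), then `kron P * kron A * kron Q = 1` of size `ι → Fin r`; `rank_mul_le`, `rank_one`.
(`kron_sub`) `Finset.prod_sub` (or `Finset.prod_add` with `B` replaced by `-B`) for the entries.
-/

set_option autoImplicit false

open Matrix

namespace Pool.Agent.MP_03ceb7_al.LS

variable {ι : Type*} [Fintype ι] [DecidableEq ι]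
variable {m n o : Type*} [Fintype m] [Fintype n] [Fintype o] [DecidableEq m] [DecidableEq n]
variable {L : Type*} [Field L]

/-- The tensor product of the matrices `A t`. -/
def kron {ι : Type*} [Fintype ι] {m n : Type*} {L : Type*} [CommSemiring L] (A : ι → Matrix m n L) : Matrix (ι → m) (ι → n) L :=
  fun a b => ∏ t, A t (a t) (b t)

omit [Fintype m] [DecidableEq m] [DecidableEq n] [Fintype o] in
theorem kron_mul (A : ι → Matrix m n L) (B : ι → Matrix n o L) : kron A * kron B = kron (fun t => A t * B t) := by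
  ext a c
  simp only [Matrix.mul_apply, kron]
  rw [Finset.prod_univ_sum, Fintype.piFinset_univ]
  exact Finset.sum_congr rfl fun b _ => Finset.prod_mul_distrib.symm

omit [DecidableEq ι] [Fintype n] in
theorem kron_one : kron (fun _ : ι => (1 : Matrix n n L)) = 1 := by
  ext a b
  by_cases h : a = b
  · subst h
    simp [kron]
  · obtain ⟨t, ht⟩ := Function.ne_iff.1 h
    rw [Matrix.one_apply_ne h]
    exact Finset.prod_eq_zero (Finset.mem_univ t) (Matrix.one_apply_ne ht)

omit [Fintype m] [Fintype n] [DecidableEq m] [DecidableEq n] in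
private theorem kron_update (F : ι → Matrix m n L) (t : ι) (M : Matrix m n L) (a : ι → m)
    (b : ι → n) : kron (Function.update F t M) a b =
      M (a t) (b t) * ∏ s ∈ ({t} : Finset ι)ᶜ, F s (a s) (b s) := by
  unfold kron
  rw [Fintype.prod_eq_mul_prod_compl t, Function.update_self]
  congr 1
  refine Finset.prod_congr rfl fun s hs => ?_
  have hst : s ≠ t := by simpa using hs
  rw [Function.update_of_ne hst]

private theorem rank_kron_upd (t : ι) (D : Matrix n n L) :
    (kron (Function.update (fun _ : ι => (1 : Matrix n n L)) t D)).rank ≤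
      D.rank * Fintype.card n ^ (Fintype.card ι - 1) := by
  classical
  obtain ⟨B, C, hBC⟩ := exists_factor D
  set B' : Matrix (ι → n) (Fin D.rank × ({s // s ≠ t} → n)) L :=
    fun a kc => if (fun s : {s // s ≠ t} => a s.1) = kc.2 then B (a t) kc.1 else 0 with hB'
  set C' : Matrix (Fin D.rank × ({s // s ≠ t} → n)) (ι → n) L :=
    fun kc b => if (fun s : {s // s ≠ t} => b s.1) = kc.2 then C kc.1 (b t) else 0 with hC'
  have key : kron (Function.update (fun _ : ι => (1 : Matrix n n L)) t D) = B' * C' := by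
    ext a b
    rw [kron_update, Matrix.mul_apply, Fintype.sum_prod_type]
    have h1 : ∀ k : Fin D.rank, ∑ c : {s // s ≠ t} → n, B' a (k, c) * C' (k, c) b =
        if (fun s : {s // s ≠ t} => b s.1) = (fun s : {s // s ≠ t} => a s.1) then
          B (a t) k * C k (b t) else 0 := by
      intro k
      rw [Finset.sum_eq_single (fun s : {s // s ≠ t} => a s.1)]
      · simp only [hB', hC', if_true]
        split_ifs <;> simp
      · intro c _ hc
        simp only [hB']
        rw [if_neg (Ne.symm hc), zero_mul]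
      · intro h
        exact absurd (Finset.mem_univ _) h
    simp only [h1]
    by_cases hab : (fun s : {s // s ≠ t} => b s.1) = (fun s : {s // s ≠ t} => a s.1)
    · simp only [hab, if_true]
      rw [Finset.prod_eq_one, mul_one]
      · conv_lhs => rw [hBC]
        rw [Matrix.mul_apply]
      · intro s hs
        have hst : s ≠ t := by simpa using hs
        have := congrFun hab ⟨s, hst⟩
        simp only at this
        rw [this, Matrix.one_apply_eq]
    · simp only [hab, if_false]
      obtain ⟨s, hs⟩ := Function.ne_iff.1 hab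
      have hs1 : s.1 ∈ ({t} : Finset ι)ᶜ := by
        rw [Finset.mem_compl, Finset.mem_singleton]
        exact s.2
      have hs2 : (1 : Matrix n n L) (a s.1) (b s.1) = 0 := Matrix.one_apply_ne (Ne.symm hs)
      rw [Finset.prod_eq_zero hs1 hs2, mul_zero, Finset.sum_const_zero]
  rw [key]
  calc (B' * C').rank ≤ B'.rank := Matrix.rank_mul_le_left _ _
    _ ≤ Fintype.card (Fin D.rank × ({s // s ≠ t} → n)) := Matrix.rank_le_card_width _
    _ = D.rank * Fintype.card n ^ (Fintype.card ι - 1) := by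
      rw [Fintype.card_prod, Fintype.card_fin, Fintype.card_fun, Fintype.card_subtype_compl,
        Fintype.card_subtype_eq]

theorem rank_kron_le (A : ι → Matrix n n L) (t : ι) :
    (kron A).rank ≤ (A t).rank * Fintype.card n ^ (Fintype.card ι - 1) := by
  have h : kron A = kron (Function.update (fun _ : ι => (1 : Matrix n n L)) t (A t)) *
      kron (Function.update A t 1) := by
    rw [kron_mul]
    congr 1
    funext s
    by_cases hs : s = t
    · subst hs
      simp
    · simp [Function.update_of_ne hs]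
  rw [h]
  exact (Matrix.rank_mul_le_left _ _).trans (rank_kron_upd t (A t))

theorem rank_kron_sub_le (A B : ι → Matrix n n L) :
    (kron A - kron B).rank ≤ ∑ t, (A t - B t).rank * Fintype.card n ^ (Fintype.card ι - 1) := by
  have key : ∀ S : Finset ι, (kron (fun t => if t ∈ S then A t else B t) - kron B).rank ≤
      ∑ t ∈ S, (A t - B t).rank * Fintype.card n ^ (Fintype.card ι - 1) := by
    intro S
    induction S using Finset.induction_on with
    | empty => simp
    | insert t S ht ih =>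
      have h1 : kron (fun s => if s ∈ insert t S then A s else B s) - kron B =
          kron (Function.update (fun s => if s ∈ S then A s else B s) t (A t - B t)) +
            (kron (fun s => if s ∈ S then A s else B s) - kron B) := by
        have e1 : (fun s => if s ∈ insert t S then A s else B s) =
            Function.update (fun s => if s ∈ S then A s else B s) t (A t) := by
          funext s
          by_cases hs : s = t
          · subst hs
            simp
          · simp [Function.update_of_ne hs, hs]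
        have e2 : kron (fun s => if s ∈ S then A s else B s) =
            kron (Function.update (fun s => if s ∈ S then A s else B s) t (B t)) := by
          congr 1
          funext s
          by_cases hs : s = t
          · subst hs
            simp [ht]
          · simp [Function.update_of_ne hs]
        rw [e1]
        ext a b
        have e3 := congrFun (congrFun e2 a) b
        simp only [Matrix.sub_apply, Matrix.add_apply]
        rw [e3, kron_update, kron_update, kron_update, Matrix.sub_apply]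
        ring
      rw [h1, Finset.sum_insert ht]
      refine (rank_add_le' _ _).trans (Nat.add_le_add ?_ ih)
      have h2 := rank_kron_le
        (Function.update (fun s => if s ∈ S then A s else B s) t (A t - B t)) t
      rwa [Function.update_self] at h2
  simpa using key Finset.univ

theorem le_rank_kron (A : ι → Matrix n n L) (r : ℕ) (h : ∀ t, r ≤ (A t).rank) : r ^ Fintype.card ι ≤ (kron A).rank := by
  choose P Q hPQ using fun t => exists_unfactor (A t)
  set P' : ι → Matrix (Fin r) n L := fun t => (P t).submatrix (Fin.castLE (h t)) id with hP'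
  set Q' : ι → Matrix n (Fin r) L := fun t => (Q t).submatrix id (Fin.castLE (h t)) with hQ'
  have h1 : ∀ t, P' t * A t * Q' t = 1 := by
    intro t
    have h2 : P' t * A t * Q' t =
        (P t * A t * Q t).submatrix (Fin.castLE (h t)) (Fin.castLE (h t)) := by
      ext i j
      simp [hP', hQ', Matrix.mul_apply]
    rw [h2, hPQ, Matrix.submatrix_one _ (Fin.castLE_injective _)]
  have h3 : kron P' * kron A * kron Q' = 1 := by
    rw [kron_mul, kron_mul]
    simp only [h1]
    exact kron_one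
  calc r ^ Fintype.card ι = (1 : Matrix (ι → Fin r) (ι → Fin r) L).rank := by
        rw [Matrix.rank_one, Fintype.card_fun, Fintype.card_fin]
    _ = (kron P' * kron A * kron Q').rank := by rw [h3]
    _ ≤ (kron P' * kron A).rank := Matrix.rank_mul_le_left _ _
    _ ≤ (kron A).rank := Matrix.rank_mul_le_right _ _

omit [Fintype m] [Fintype n] [DecidableEq m] [DecidableEq n] in
theorem kron_sub (A B : ι → Matrix m n L) :
    kron (fun t => A t - B t) = ∑ J : Finset ι, (-1 : L) ^ (Fintype.card ι - J.card) • kron (fun t => if t ∈ J then A t else B t) := by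
  ext a b
  rw [Matrix.sum_apply]
  simp only [kron, Matrix.sub_apply, Matrix.smul_apply, smul_eq_mul]
  simp only [sub_eq_add_neg]
  rw [Finset.prod_add, Finset.powerset_univ]
  refine Finset.sum_congr rfl fun J _ => ?_
  have h1 : ∏ t, (if t ∈ J then A t else B t) (a t) (b t) =
      (∏ t ∈ J, A t (a t) (b t)) * ∏ t ∈ Finset.univ \ J, B t (a t) (b t) := by
    rw [← Finset.prod_mul_prod_compl J, Finset.compl_eq_univ_sdiff]
    congr 1
    · exact Finset.prod_congr rfl fun t ht => by rw [if_pos ht]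
    · exact Finset.prod_congr rfl fun t ht => by
        rw [if_neg (Finset.mem_sdiff.1 ht).2]
  rw [h1, Finset.prod_neg, Finset.card_sdiff_of_subset (Finset.subset_univ J), Finset.card_univ]
  ring

end Pool.Agent.MP_03ceb7_al.LS
end

section

/-!
# TASK LS Op: the matrices of the elements of a group algebra

For `f : A →+* Matrix (Fin d) (Fin d) Ω` and a map `Ψ : G → Matrix X X Ω` the matrix of `x = ∑ a_g g` is `∑ f a_g ⊗ₖ Ψ g`.
(`opM_add`) `Finsupp.sum_add_index'`, `MonoidAlgebra.coeff_add`, `Matrix.add_kronecker`. (`rank_opM_mul_sub_le`)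
`opM x * opM y - opM (x * y) = ∑ g ∈ supp x, ∑ k ∈ supp y, f (x_g * y_k) ⊗ₖ (Ψ g * Ψ k - Ψ (g * k))` (`Matrix.mul_kronecker_mul`; expand `x`, `y` as sums of
`MonoidAlgebra.single`, cf. `eq_sum_single` and `op_mul` in Pool/Agent/Lib/MP_03ceb7_al/Approx.lean), then `rank_sum_le'`, `rank_kronecker_le`.
(`rank_opM_sub_one_le`) write `X`, `Y` for the matrices of `x`, `y`, `T` for the bound `#x * #y * (d * s)`: `rank (X * Y - 1) ≤ T` (the first lemma, `opM_one`), so
`rank (1 - X * Y) ≤ T` and `rank (1 - Y * X) ≤ T` by `rank_one_sub_mul_comm`; `opM (y * x - 1) = (opM (y * x) - Y * X) + (Y * X - 1)`.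
(`rank_entry_le`) the sum is the submatrix of `opM z` with rows `(a, .)` and columns `(b, .)`; `Matrix.rank_submatrix_le`.
-/

set_option autoImplicit false

open Matrix MonoidAlgebra
open scoped Kronecker

namespace Pool.Agent.MP_03ceb7_al.LS

variable {G : Type*} [Group G] {A : Type*} [Ring A] {Ω : Type*} [Field Ω] {d : ℕ}
variable {X : Type*} [Fintype X] [DecidableEq X]

/-- The matrix of an element of the group algebra `A[G]`. -/
noncomputable def opM {G : Type*} [Group G] {A : Type*} [Ring A] {Ω : Type*} [Field Ω] {d : ℕ} {X : Type*}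
    (f : A →+* Matrix (Fin d) (Fin d) Ω) (Ψ : G → Matrix X X Ω) (x : MonoidAlgebra A G) :
    Matrix (Fin d × X) (Fin d × X) Ω :=
  x.coeff.sum fun g a => f a ⊗ₖ Ψ g

omit [Fintype X] [DecidableEq X] in
theorem opM_add (f : A →+* Matrix (Fin d) (Fin d) Ω) (Ψ : G → Matrix X X Ω) (x y : MonoidAlgebra A G) :
    opM f Ψ (x + y) = opM f Ψ x + opM f Ψ y := by
  rw [opM, opM, opM, MonoidAlgebra.coeff_add,
    Finsupp.sum_add_index' (by intro g; rw [map_zero, Matrix.zero_kronecker])
      (by intro g a b; rw [map_add, Matrix.add_kronecker])]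

omit [Fintype X] [DecidableEq X] in
theorem opM_sub (f : A →+* Matrix (Fin d) (Fin d) Ω) (Ψ : G → Matrix X X Ω) (x y : MonoidAlgebra A G) :
    opM f Ψ (x - y) = opM f Ψ x - opM f Ψ y := by
  rw [eq_sub_iff_add_eq, ← opM_add, sub_add_cancel]

omit [Fintype X] [DecidableEq X] in
private theorem Op_single (f : A →+* Matrix (Fin d) (Fin d) Ω) (Ψ : G → Matrix X X Ω) (g : G) (a : A) :
    opM f Ψ (single g a) = f a ⊗ₖ Ψ g := by
  rw [opM, MonoidAlgebra.coeff_single, Finsupp.sum_single_index (by rw [map_zero, Matrix.zero_kronecker])]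

omit [Fintype X] [DecidableEq X] in
private theorem Op_zero (f : A →+* Matrix (Fin d) (Fin d) Ω) (Ψ : G → Matrix X X Ω) :
    opM f Ψ (0 : MonoidAlgebra A G) = 0 := by
  rw [opM, MonoidAlgebra.coeff_zero, Finsupp.sum_zero_index]

omit [Fintype X] [DecidableEq X] in
private theorem Op_sum {ι : Type*} (f : A →+* Matrix (Fin d) (Fin d) Ω) (Ψ : G → Matrix X X Ω) (s : Finset ι)
    (x : ι → MonoidAlgebra A G) : opM f Ψ (∑ i ∈ s, x i) = ∑ i ∈ s, opM f Ψ (x i) := by
  classical
  induction s using Finset.induction_on with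
  | empty => rw [Finset.sum_empty, Finset.sum_empty, Op_zero]
  | insert a s ha ih => rw [Finset.sum_insert ha, Finset.sum_insert ha, opM_add, ih]

omit [Group G] in
private theorem Op_eq_sum_single (x : MonoidAlgebra A G) :
    x = ∑ g ∈ x.coeff.support, single g (x.coeff g) := by
  apply coeff_injective
  rw [MonoidAlgebra.coeff_sum]
  exact (Finsupp.sum_single x.coeff).symm

omit [Fintype X] in
theorem opM_one (f : A →+* Matrix (Fin d) (Fin d) Ω) {Ψ : G → Matrix X X Ω} (h : Ψ 1 = 1) : opM f Ψ 1 = 1 := by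
  rw [MonoidAlgebra.one_def, Op_single, map_one, h, Matrix.one_kronecker_one]

omit [Fintype X] [DecidableEq X] in
theorem opM_eq_sum (f : A →+* Matrix (Fin d) (Fin d) Ω) (Ψ : G → Matrix X X Ω) (x : MonoidAlgebra A G) (s : Finset G)
    (hs : x.coeff.support ⊆ s) : opM f Ψ x = ∑ g ∈ s, f (x.coeff g) ⊗ₖ Ψ g := by
  rw [opM, Finsupp.sum]
  refine Finset.sum_subset hs fun g _ hg => ?_
  rw [Finsupp.notMem_support_iff.1 hg, map_zero, Matrix.zero_kronecker]

omit [DecidableEq X] in
private theorem Op_mul_sub (f : A →+* Matrix (Fin d) (Fin d) Ω) (Ψ : G → Matrix X X Ω) (x y : MonoidAlgebra A G) :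
    opM f Ψ x * opM f Ψ y - opM f Ψ (x * y) =
      ∑ g ∈ x.coeff.support, ∑ k ∈ y.coeff.support,
        f (x.coeff g * y.coeff k) ⊗ₖ (Ψ g * Ψ k - Ψ (g * k)) := by
  have h1 : x * y = ∑ g ∈ x.coeff.support, ∑ k ∈ y.coeff.support,
      single (g * k) (x.coeff g * y.coeff k) := by
    conv_lhs => rw [Op_eq_sum_single x, Op_eq_sum_single y]
    rw [Finset.sum_mul_sum]
    exact Finset.sum_congr rfl fun g _ => Finset.sum_congr rfl fun k _ =>
      MonoidAlgebra.single_mul_single _ _ _ _
  have h2 : opM f Ψ (x * y) = ∑ g ∈ x.coeff.support, ∑ k ∈ y.coeff.support,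
      f (x.coeff g * y.coeff k) ⊗ₖ Ψ (g * k) := by
    rw [h1, Op_sum]
    refine Finset.sum_congr rfl fun g _ => ?_
    rw [Op_sum]
    exact Finset.sum_congr rfl fun k _ => Op_single f Ψ _ _
  have h3 : opM f Ψ x * opM f Ψ y = ∑ g ∈ x.coeff.support, ∑ k ∈ y.coeff.support,
      f (x.coeff g * y.coeff k) ⊗ₖ (Ψ g * Ψ k) := by
    rw [opM_eq_sum f Ψ x _ (Finset.Subset.refl _), opM_eq_sum f Ψ y _ (Finset.Subset.refl _),
      Finset.sum_mul_sum]
    refine Finset.sum_congr rfl fun g _ => Finset.sum_congr rfl fun k _ => ?_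
    rw [map_mul, Matrix.mul_kronecker_mul]
  rw [h3, h2, ← Finset.sum_sub_distrib]
  refine Finset.sum_congr rfl fun g _ => ?_
  rw [← Finset.sum_sub_distrib]
  refine Finset.sum_congr rfl fun k _ => ?_
  rw [sub_eq_iff_eq_add, ← Matrix.kronecker_add, sub_add_cancel]

theorem rank_opM_mul_sub_le (f : A →+* Matrix (Fin d) (Fin d) Ω) (Ψ : G → Matrix X X Ω) (x y : MonoidAlgebra A G) {s : ℕ}
    (h : ∀ g ∈ x.coeff.support, ∀ k ∈ y.coeff.support, (Ψ g * Ψ k - Ψ (g * k)).rank ≤ s) :
    (opM f Ψ x * opM f Ψ y - opM f Ψ (x * y)).rank ≤ x.coeff.support.card * y.coeff.support.card * (d * s) := by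
  rw [Op_mul_sub]
  refine (rank_sum_le' _ _).trans ?_
  have h1 : ∀ g ∈ x.coeff.support, (∑ k ∈ y.coeff.support,
      f (x.coeff g * y.coeff k) ⊗ₖ (Ψ g * Ψ k - Ψ (g * k))).rank ≤ y.coeff.support.card * (d * s) := by
    intro g hg
    refine (rank_sum_le' _ _).trans ?_
    have h2 : ∀ k ∈ y.coeff.support,
        (f (x.coeff g * y.coeff k) ⊗ₖ (Ψ g * Ψ k - Ψ (g * k))).rank ≤ d * s := by
      intro k hk
      refine (rank_kronecker_le _ _).trans ?_
      rw [Fintype.card_fin]
      exact Nat.mul_le_mul_left _ (h g hg k hk)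
    refine (Finset.sum_le_sum h2).trans ?_
    rw [Finset.sum_const, smul_eq_mul]
  refine (Finset.sum_le_sum h1).trans ?_
  rw [Finset.sum_const, smul_eq_mul, mul_assoc]

theorem rank_opM_sub_one_le (f : A →+* Matrix (Fin d) (Fin d) Ω) {Ψ : G → Matrix X X Ω} (h1 : Ψ 1 = 1)
    {x y : MonoidAlgebra A G} (hxy : x * y = 1) {s : ℕ}
    (h : ∀ g ∈ x.coeff.support, ∀ k ∈ y.coeff.support, (Ψ g * Ψ k - Ψ (g * k)).rank ≤ s)
    (h' : ∀ g ∈ y.coeff.support, ∀ k ∈ x.coeff.support, (Ψ g * Ψ k - Ψ (g * k)).rank ≤ s) :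
    (opM f Ψ (y * x - 1)).rank ≤ 2 * (x.coeff.support.card * y.coeff.support.card * (d * s)) := by
  have hX := rank_opM_mul_sub_le f Ψ x y h
  rw [hxy, opM_one f h1, rank_sub_rev, rank_one_sub_mul_comm, rank_sub_rev] at hX
  have hY := rank_opM_mul_sub_le f Ψ y x h'
  rw [rank_sub_rev] at hY
  have h3 : opM f Ψ (y * x - 1) =
      (opM f Ψ (y * x) - opM f Ψ y * opM f Ψ x) + (opM f Ψ y * opM f Ψ x - 1) := by
    rw [opM_sub, opM_one f h1]
    abel
  rw [h3]
  refine (rank_add_le' _ _).trans ?_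
  have h4 : y.coeff.support.card * x.coeff.support.card * (d * s) =
      x.coeff.support.card * y.coeff.support.card * (d * s) := by
    rw [mul_comm y.coeff.support.card]
  rw [h4] at hY
  omega

theorem rank_entry_le (f : A →+* Matrix (Fin d) (Fin d) Ω) (Ψ : G → Matrix X X Ω) (z : MonoidAlgebra A G) (a b : Fin d)
    (s : Finset G) (hs : z.coeff.support ⊆ s) : (∑ g ∈ s, f (z.coeff g) a b • Ψ g).rank ≤ (opM f Ψ z).rank := by
  have h1 : ∑ g ∈ s, f (z.coeff g) a b • Ψ g =
      (opM f Ψ z).submatrix (fun i : X => (a, i)) (fun j : X => (b, j)) := by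
    rw [opM_eq_sum f Ψ z s hs]
    ext i j
    rw [Matrix.submatrix_apply, Matrix.sum_apply, Matrix.sum_apply]
    refine Finset.sum_congr rfl fun g _ => ?_
    rw [Matrix.smul_apply, Matrix.kroneckerMap_apply, smul_eq_mul]
  rw [h1]
  exact Matrix.rank_submatrix_le _ _ _

end Pool.Agent.MP_03ceb7_al.LS
end

section

/-!
# TASK LS Un: ranks of unitary matrices minus one, and of matrices without small entries

(`le_rank_of_unitary`) `P = (u - 1)ᴴ * (u - 1) = 2 - u - uᴴ` is Hermitian and positive semidefinite, `4 - P = (u + 1)ᴴ * (u + 1)` is positive semidefinite, so its eigenvalues are in `[0, 4]` and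
`2 * (n - Re trace u) = trace P = ∑ eigenvalues ≤ 4 * #(nonzero eigenvalues) = 4 * rank P ≤ 4 * rank (u - 1)` (`Matrix.IsHermitian.rank_eq_card_non_zero_eigs`,
`Matrix.IsHermitian.trace_eq_sum_eigenvalues`, `Matrix.rank_mul_le_right` or `Matrix.rank_conjTranspose_mul_self`).
(`rank_le_sum`) if all nonzero entries of `A` have norm `≥ c > 0` then `rank A ≤` number of nonzero columns `≤ c⁻² * ∑ ∑ ‖A i j‖ ^ 2` (`Matrix.rank_le_card_of_support_subset` or the span of the columns).
(`exists_ring`) `R = {z | ∃ k : ℕ, D ^ k * z ∈ O}` is a subring of `ℂ`. If `p` is a prime which does not divide `D`, then `p` is not invertible in it: otherwise `D ^ k * (1 / p) ∈ O` for some `k`; `s * D ^ k + t * p = 1` with integers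
`s, t`, so `1 / p = s * (D ^ k / p) + t ∈ O`, but `0 < ‖1 / p‖ < 1`.
-/

set_option autoImplicit false

open Matrix

namespace Pool.Agent.MP_03ceb7_al.LS

open scoped ComplexOrder

private lemma Un_trace {n : ℕ} {u : Matrix (Fin n) (Fin n) ℂ} (h1 : uᴴ * u = 1) :
    (trace ((u - 1)ᴴ * (u - 1))).re = 2 * ((n : ℝ) - (trace u).re) := by
  have h2 : (u - 1)ᴴ * (u - 1) = 1 + 1 - u - uᴴ := by
    rw [conjTranspose_sub, conjTranspose_one, sub_mul, mul_sub, h1, mul_one, one_mul]
    abel
  have h3 : (trace uᴴ).re = (trace u).re := by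
    rw [trace_conjTranspose]
    simp
  rw [h2, trace_sub, trace_sub, trace_add, Complex.sub_re, Complex.sub_re, Complex.add_re, h3,
    trace_one, Fintype.card_fin, Complex.natCast_re]
  ring

private lemma Un_upper {n : ℕ} {u : Matrix (Fin n) (Fin n) ℂ} (h1 : uᴴ * u = 1)
    (hH : ((u - 1)ᴴ * (u - 1)).IsHermitian) (i : Fin n) : hH.eigenvalues i ≤ 4 := by
  have h2 : ((u + 1)ᴴ * (u + 1)).PosSemidef := posSemidef_conjTranspose_mul_self _
  have h3 : (u + 1)ᴴ * (u + 1) = (4 : ℂ) • (1 : Matrix (Fin n) (Fin n) ℂ) - (u - 1)ᴴ * (u - 1) := by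
    have h4 : (4 : ℂ) • (1 : Matrix (Fin n) (Fin n) ℂ) = 1 + 1 + 1 + 1 := by
      rw [show (4 : ℂ) = 1 + 1 + 1 + 1 by norm_num]
      simp only [add_smul, one_smul]
    have e1 : (u + 1)ᴴ * (u + 1) = 1 + 1 + u + uᴴ := by
      rw [conjTranspose_add, conjTranspose_one, add_mul, mul_add, h1, mul_one, one_mul]
      abel
    have e2 : (u - 1)ᴴ * (u - 1) = 1 + 1 - u - uᴴ := by
      rw [conjTranspose_sub, conjTranspose_one, sub_mul, mul_sub, h1, mul_one, one_mul]
      abel
    rw [h4, e1, e2]
    abel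
  set v : Fin n → ℂ := (hH.eigenvectorBasis i : Fin n → ℂ) with hv
  obtain ⟨l, hl⟩ : ∃ l, l = hH.eigenvalues i := ⟨_, rfl⟩
  have h5 : ((u - 1)ᴴ * (u - 1)) *ᵥ v = l • v := by
    rw [hl]
    exact hH.mulVec_eigenvectorBasis i
  have h6 : star v ⬝ᵥ v = 1 := by
    have h7 : inner ℂ (hH.eigenvectorBasis i) (hH.eigenvectorBasis i) = (1 : ℂ) := by
      rw [inner_self_eq_norm_sq_to_K, (hH.eigenvectorBasis).orthonormal.1 i]
      norm_num
    rw [EuclideanSpace.inner_eq_star_dotProduct, dotProduct_comm] at h7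
    exact h7
  have h8 := h2.re_dotProduct_nonneg v
  rw [h3, sub_mulVec, smul_mulVec, one_mulVec, h5, dotProduct_sub, dotProduct_smul, dotProduct_smul,
    h6] at h8
  rw [← hl]
  simp at h8
  linarith

theorem le_rank_of_unitary {n : ℕ} {u : Matrix (Fin n) (Fin n) ℂ} (hu : u ∈ Matrix.unitaryGroup (Fin n) ℂ) :
    (n : ℝ) - (trace u).re ≤ 2 * (u - 1).rank := by
  have h1 : uᴴ * u = 1 := (Matrix.mem_unitaryGroup_iff').1 hu
  have hH : ((u - 1)ᴴ * (u - 1)).IsHermitian := isHermitian_conjTranspose_mul_self _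
  have h2 := Un_trace h1
  have h3 : (trace ((u - 1)ᴴ * (u - 1))).re = ∑ i, hH.eigenvalues i := by
    rw [hH.trace_eq_sum_eigenvalues]
    simp
  have h4 : (u - 1).rank = Fintype.card {i // hH.eigenvalues i ≠ 0} := by
    rw [← rank_conjTranspose_mul_self (u - 1), hH.rank_eq_card_non_zero_eigs]
  have h5 : ∑ i, hH.eigenvalues i ≤ 4 * ((u - 1).rank : ℝ) := by
    rw [h4, Fintype.card_subtype]
    have h6 : ∑ i, hH.eigenvalues i = ∑ i ∈ Finset.univ.filter (fun i => hH.eigenvalues i ≠ 0), hH.eigenvalues i := by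
      rw [Finset.sum_filter_ne_zero]
    rw [h6]
    have h7 : ∑ i ∈ Finset.univ.filter (fun i => hH.eigenvalues i ≠ 0), hH.eigenvalues i ≤
        ∑ i ∈ Finset.univ.filter (fun i => hH.eigenvalues i ≠ 0), (4 : ℝ) :=
      Finset.sum_le_sum fun i _ => Un_upper h1 hH i
    rw [Finset.sum_const, nsmul_eq_mul] at h7
    linarith
  rw [← h3, h2] at h5
  linarith

theorem rank_le_sum {n : ℕ} {A : Matrix (Fin n) (Fin n) ℂ} {c : ℝ} (hc : 0 < c) (hA : ∀ i j, A i j ≠ 0 → c ≤ ‖A i j‖) :
    c ^ 2 * (A.rank : ℝ) ≤ ∑ i, ∑ j, ‖A i j‖ ^ 2 := by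
  classical
  obtain ⟨S, hS⟩ : ∃ S : Finset (Fin n), S = Finset.univ.filter (fun j => A.col j ≠ 0) := ⟨_, rfl⟩
  have h1 : A.rank ≤ S.card := by
    rw [Matrix.rank_eq_finrank_span_cols]
    have h2 : Submodule.span ℂ (Set.range A.col) ≤ Submodule.span ℂ ((S.image A.col : Finset (Fin n → ℂ)) : Set (Fin n → ℂ)) := by
      rw [Submodule.span_le]
      rintro _ ⟨j, rfl⟩
      by_cases hj : A.col j = 0
      · rw [hj]
        exact Submodule.zero_mem _
      · apply Submodule.subset_span
        rw [Finset.coe_image]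
        exact ⟨j, by rw [hS]; simpa using hj, rfl⟩
    have h4 := Submodule.finrank_mono h2
    have h5 := finrank_span_finset_le_card (R := ℂ) (S.image A.col)
    exact h4.trans (h5.trans Finset.card_image_le)
  have h6 : ∀ j ∈ S, c ^ 2 ≤ ∑ i, ‖A i j‖ ^ 2 := by
    intro j hj
    rw [hS, Finset.mem_filter] at hj
    obtain ⟨i, hi⟩ : ∃ i, A i j ≠ 0 := by
      by_contra hcon
      push Not at hcon
      exact hj.2 (funext fun i => hcon i)
    have h7 : ‖A i j‖ ^ 2 ≤ ∑ i, ‖A i j‖ ^ 2 :=
      Finset.single_le_sum (f := fun i => ‖A i j‖ ^ 2) (fun i _ => by positivity) (Finset.mem_univ i)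
    have h8 := hA i j hi
    nlinarith
  rw [Finset.sum_comm]
  calc c ^ 2 * (A.rank : ℝ) ≤ c ^ 2 * (S.card : ℝ) := by
        apply mul_le_mul_of_nonneg_left _ (by positivity)
        exact_mod_cast h1
    _ = ∑ j ∈ S, c ^ 2 := by rw [Finset.sum_const, nsmul_eq_mul, mul_comm]
    _ ≤ ∑ j ∈ S, ∑ i, ‖A i j‖ ^ 2 := Finset.sum_le_sum h6
    _ ≤ ∑ j, ∑ i, ‖A i j‖ ^ 2 :=
        Finset.sum_le_sum_of_subset_of_nonneg (Finset.subset_univ _) fun j _ _ => by positivity

theorem exists_ring (O : Subring ℂ) (hO : ∀ a ∈ O, a ≠ 0 → 1 ≤ ‖a‖) {D : ℕ} (hD : 0 < D) :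
    ∃ R : Subring ℂ, O ≤ R ∧ (∀ z : ℂ, (D : ℂ) * z ∈ O → z ∈ R) ∧ ∀ p : ℕ, p.Prime → ¬ p ∣ D → ¬ IsUnit (p : R) := by
  have hDO : ∀ k : ℕ, (D : ℂ) ^ k ∈ O := fun k => O.pow_mem (natCast_mem O D) k
  let R : Subring ℂ :=
    { carrier := {z | ∃ k : ℕ, (D : ℂ) ^ k * z ∈ O}
      mul_mem' := by
        rintro a b ⟨k, hk⟩ ⟨l, hl⟩
        refine ⟨k + l, ?_⟩
        have h1 : (D : ℂ) ^ (k + l) * (a * b) = ((D : ℂ) ^ k * a) * ((D : ℂ) ^ l * b) := by
          rw [pow_add]; ring
        rw [h1]
        exact O.mul_mem hk hl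
      one_mem' := ⟨0, by simp [O.one_mem]⟩
      add_mem' := by
        rintro a b ⟨k, hk⟩ ⟨l, hl⟩
        refine ⟨k + l, ?_⟩
        have h1 : (D : ℂ) ^ (k + l) * (a + b) = (D : ℂ) ^ l * ((D : ℂ) ^ k * a) + (D : ℂ) ^ k * ((D : ℂ) ^ l * b) := by
          rw [pow_add]; ring
        rw [h1]
        exact O.add_mem (O.mul_mem (hDO l) hk) (O.mul_mem (hDO k) hl)
      zero_mem' := ⟨0, by simp [O.zero_mem]⟩
      neg_mem' := by
        rintro a ⟨k, hk⟩
        refine ⟨k, ?_⟩
        rw [mul_neg]
        exact O.neg_mem hk }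
  refine ⟨R, fun z hz => ⟨0, by simpa using hz⟩, fun z hz => ⟨1, by simpa using hz⟩, ?_⟩
  intro p hp hpD hunit
  obtain ⟨v, hv⟩ := hunit.exists_right_inv
  have hv' : (p : ℂ) * (v : ℂ) = 1 := by
    have := congrArg (fun x : R => (x : ℂ)) hv
    simpa using this
  obtain ⟨k, hk⟩ := v.2
  have hcop : IsCoprime ((D : ℤ) ^ k) (p : ℤ) := by
    have h1 : Nat.Coprime (D ^ k) p :=
      (Nat.Coprime.pow_left k ((Nat.Prime.coprime_iff_not_dvd hp).2 hpD).symm)
    have h2 := Nat.isCoprime_iff_coprime.2 h1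
    simpa using h2
  obtain ⟨s, t, hst⟩ := hcop
  have hst' : (s : ℂ) * (D : ℂ) ^ k + (t : ℂ) * (p : ℂ) = 1 := by exact_mod_cast hst
  have hvO : (v : ℂ) ∈ O := by
    have h1 : (v : ℂ) = (s : ℂ) * ((D : ℂ) ^ k * (v : ℂ)) + (t : ℂ) := by
      calc (v : ℂ) = ((s : ℂ) * (D : ℂ) ^ k + (t : ℂ) * (p : ℂ)) * (v : ℂ) := by rw [hst', one_mul]
        _ = (s : ℂ) * ((D : ℂ) ^ k * (v : ℂ)) + (t : ℂ) * ((p : ℂ) * (v : ℂ)) := by ring
        _ = _ := by rw [hv', mul_one]
    rw [h1]
    exact O.add_mem (O.mul_mem (intCast_mem O s) hk) (intCast_mem O t)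
  have hv0 : (v : ℂ) ≠ 0 := by
    intro h0
    rw [h0, mul_zero] at hv'
    exact zero_ne_one hv'
  have h1 := hO _ hvO hv0
  have h2 : (p : ℝ) * ‖(v : ℂ)‖ = 1 := by
    have := congrArg norm hv'
    rwa [norm_mul, Complex.norm_natCast, norm_one] at this
  have h3 : (2 : ℝ) ≤ p := by exact_mod_cast hp.two_le
  nlinarith

end Pool.Agent.MP_03ceb7_al.LS
end
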