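import Pool.Agent.Lib.MP_03ceb7_al.Mg.G002
import Pool.Agent.Lib.MP_03ceb7_al.LS.Defs
import Pool.Agent.Lib.MP_03ceb7_al.Mg.G001
import Pool.Agent.Lib.MP_03ceb7_al.LS.Red

section

/-!
# TASK LS Fin: direct finiteness modulo the kernel

Let `e = y * x - 1` and suppose `pr N e ≠ 0`, say `pr N e (mk l0) ≠ 0`. Put `Q0 = {g ∈ supp e | mk g = mk l0}`: `∑ g ∈ Q0, e_g = pr N e (mk l0) ≠ 0`
(`pr` is `Finsupp.mapDomain mk`). `ι` = the (finite) type of the other cosets `mk g`, `g ∈ supp e`; `u t` a representative of `t`.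
(a) if `mk g = mk h` then `Sm (ψ g - ψ h)`: `k = h⁻¹ * g ∈ N`, `ψ g - ψ h = (ψ (h * k) - ψ h * ψ k) + ψ h * (ψ k - 1)`.
(b) if `mk g ≠ mk h` then `¬ Sm (ψ g - ψ h)`: otherwise `ψ h⁻¹ * (ψ g - ψ h)` is `Sm`, it is `ψ (h⁻¹ * g) - 1` up to `Sm` terms (`h1`, `hm`), so `h⁻¹ * g ∈ N`. So (`not_sm`) there are
`c t > 0` with `c t * n i ≤ rank (ψ i l0 - ψ i (u t))` for `U`-almost all `i`; let `δ > 0` be `≤ 1` and `≤` all the `c t` (finitely many).
Let `C` be the constant of `key_real`. For `ε = δ ^ card ι / (2 * (C + 1))` all hypotheses of `key_real` hold for `U`-almost all `i` (finitely many conditions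
`∀ᶠ`; `ψ g * ψ k - ψ (g * k)` has the same rank as its negative, `rank_sub_rev`), so for at least one `i`; `δ ^ card ι ≤ C * ε < δ ^ card ι`, a contradiction.
(`pr_mul_of_left`, `pr_mul_of_right`) if `pr N c = 0` then `pr N (a * c) = 0` (`pr_mul`), and `pr N (c * a) = 0` (write `a` as a sum of `single t r` and use `pr_mul_single`; for the
coefficient `r`: the coefficients of `c * single t r` are those of `c * single t 1` times `r`).
-/

set_option autoImplicit false

open Filter MonoidAlgebra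

namespace Pool.Agent.MP_03ceb7_al.LS

section

variable {I : Type*} {U : Ultrafilter I} {n : I → ℕ} {Ω : I → Type*} [∀ i, Field (Ω i)] {G : Type*} [Group G]
  {ψ : ∀ i, G → Matrix (Fin (n i)) (Fin (n i)) (Ω i)}

private theorem Fin_same (hm : ∀ g h, Sm U n fun i => (ψ i (g * h) - ψ i g * ψ i h).rank)
    {N : Subgroup G} (hN : ∀ g, g ∈ N ↔ Sm U n fun i => (ψ i g - 1).rank) {g h : G}
    (hgh : (QuotientGroup.mk g : G ⧸ N) = QuotientGroup.mk h) : Sm U n fun i => (ψ i g - ψ i h).rank := by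
  have hk : h⁻¹ * g ∈ N := QuotientGroup.eq.1 hgh.symm
  have h2 := hm h (h⁻¹ * g)
  rw [mul_inv_cancel_left] at h2
  refine (h2.add ((hN _).1 hk)).mono fun i => ?_
  have h3 : ψ i g - ψ i h = (ψ i g - ψ i h * ψ i (h⁻¹ * g)) + ψ i h * (ψ i (h⁻¹ * g) - 1) := by
    rw [mul_sub, mul_one]
    abel
  rw [h3]
  exact (rank_add_le' _ _).trans (Nat.add_le_add_left (Matrix.rank_mul_le_right _ _) _)

private theorem Fin_diff (h1 : ∀ i, ψ i 1 = 1) (hm : ∀ g h, Sm U n fun i => (ψ i (g * h) - ψ i g * ψ i h).rank)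
    {N : Subgroup G} (hN : ∀ g, g ∈ N ↔ Sm U n fun i => (ψ i g - 1).rank) {g h : G}
    (hs : Sm U n fun i => (ψ i g - ψ i h).rank) : (QuotientGroup.mk g : G ⧸ N) = QuotientGroup.mk h := by
  refine (QuotientGroup.eq.2 ((hN _).2 ?_)).symm
  refine (((hm h⁻¹ g).add hs).add (hm h⁻¹ h)).mono fun i => ?_
  have h3 : ψ i (h⁻¹ * g) - 1 = (ψ i (h⁻¹ * g) - ψ i h⁻¹ * ψ i g) + ψ i h⁻¹ * (ψ i g - ψ i h) -
      (ψ i (h⁻¹ * h) - ψ i h⁻¹ * ψ i h) := by
    rw [inv_mul_cancel, h1, mul_sub]
    abel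
  rw [h3]
  refine (rank_sub_le' _ _).trans (Nat.add_le_add_right ?_ _)
  exact (rank_add_le' _ _).trans (Nat.add_le_add_left (Matrix.rank_mul_le_right _ _) _)

end

private theorem Fin_min {ι : Type*} [Finite ι] {c : ι → ℝ} (hc : ∀ t, 0 < c t) : ∃ δ : ℝ, 0 < δ ∧ ∀ t, δ ≤ c t := by
  have h1 : ∀ᶠ δ in nhdsWithin (0 : ℝ) (Set.Ioi 0), ∀ t, δ ≤ c t :=
    eventually_all.2 fun t => mem_of_superset (Ioo_mem_nhdsGT (hc t)) fun x hx => hx.2.le
  obtain ⟨δ, h2, h3⟩ := (h1.and self_mem_nhdsWithin).exists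
  exact ⟨δ, h3, h2⟩

private theorem Fin_pr_apply {G : Type*} [Group G] {A : Type*} [Ring A] (N : Subgroup G) (c : MonoidAlgebra A G) (l : G)
    [DecidableEq (G ⧸ N)] :
    pr N c (QuotientGroup.mk l) =
      ∑ g ∈ c.coeff.support.filter (fun g => (QuotientGroup.mk g : G ⧸ N) = QuotientGroup.mk l), c.coeff g := by
  rw [pr, Finsupp.mapDomain, Finsupp.sum, Finsupp.finsetSum_apply, Finset.sum_filter]
  refine Finset.sum_congr rfl fun g _ => ?_
  rw [Finsupp.single_apply]

theorem pr_eq_zero {I : Type*} {U : Ultrafilter I} {n : I → ℕ} (hn : ∀ i, 0 < n i) {Ω : I → Type*} [∀ i, Field (Ω i)]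
    {A : Type*} [Ring A] {d : ℕ} {f : ∀ i, A →+* Matrix (Fin d) (Fin d) (Ω i)} (hf : ∀ i, Function.Injective (f i))
    {G : Type*} [Group G] {ψ : ∀ i, G → Matrix (Fin (n i)) (Fin (n i)) (Ω i)} (h1 : ∀ i, ψ i 1 = 1)
    (hm : ∀ g h, Sm U n fun i => (ψ i (g * h) - ψ i g * ψ i h).rank)
    (N : Subgroup G) (hN : ∀ g, g ∈ N ↔ Sm U n fun i => (ψ i g - 1).rank) {x y : MonoidAlgebra A G} (hxy : x * y = 1) :
    pr N (y * x - 1) = 0 := by
  classical
  by_contra hne
  obtain ⟨q, hq⟩ : ∃ q, pr N (y * x - 1) q ≠ 0 := by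
    by_contra hcon
    push Not at hcon
    exact hne (Finsupp.ext hcon)
  induction q using QuotientGroup.induction_on with
  | H l0 =>
  set S := (y * x - 1).coeff.support with hS
  set Q0 := S.filter (fun g => (QuotientGroup.mk g : G ⧸ N) = QuotientGroup.mk l0) with hQ0
  have hc : ∑ g ∈ Q0, (y * x - 1).coeff g ≠ 0 := by
    rw [← Fin_pr_apply]
    exact hq
  let ι := {q : G ⧸ N // q ∈ (S.image (QuotientGroup.mk : G → G ⧸ N)).erase (QuotientGroup.mk l0)}
  let u : ι → G := fun t => Quotient.out t.1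
  have hu : ∀ t : ι, (QuotientGroup.mk (u t) : G ⧸ N) = t.1 := fun t => QuotientGroup.out_eq' _
  have hns : ∀ t : ι, ¬ Sm U n fun i => (ψ i l0 - ψ i (u t)).rank := by
    intro t hs
    have h2 := Fin_diff h1 hm hN hs
    rw [hu t] at h2
    exact (Finset.mem_erase.1 t.2).1 h2.symm
  choose c hcpos hcev using fun t => not_sm (hns t)
  obtain ⟨δ, hδ, hδc⟩ := Fin_min hcpos
  set C : ℝ := 2 ^ Fintype.card ι * (2 * (x.coeff.support.card * y.coeff.support.card *
      (d * Fintype.card ι))) + (y * x - 1).coeff.support.card * Fintype.card ι with hC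
  have hC0 : 0 ≤ C := by positivity
  have hpow : 0 < δ ^ Fintype.card ι := pow_pos hδ _
  set ε : ℝ := δ ^ Fintype.card ι / (2 * (C + 1)) with hε
  have hεpos : 0 < ε := div_pos hpow (by positivity)
  have hCε : C * ε < δ ^ Fintype.card ι := by
    rw [hε, mul_div_assoc', div_lt_iff₀ (by positivity)]
    nlinarith
  have e1 : ∀ᶠ i in (U : Filter I), ∀ g ∈ x.coeff.support, ∀ k ∈ y.coeff.support,
      ((ψ i g * ψ i k - ψ i (g * k)).rank : ℝ) ≤ ε * n i := by
    refine (Filter.eventually_all_finset _).2 fun g _ => (Filter.eventually_all_finset _).2 fun k _ => ?_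
    filter_upwards [hm g k ε hεpos] with i hi
    rwa [rank_sub_rev]
  have e2 : ∀ᶠ i in (U : Filter I), ∀ g ∈ y.coeff.support, ∀ k ∈ x.coeff.support,
      ((ψ i g * ψ i k - ψ i (g * k)).rank : ℝ) ≤ ε * n i := by
    refine (Filter.eventually_all_finset _).2 fun g _ => (Filter.eventually_all_finset _).2 fun k _ => ?_
    filter_upwards [hm g k ε hεpos] with i hi
    rwa [rank_sub_rev]
  have e3 : ∀ᶠ i in (U : Filter I), ∀ g ∈ Q0, ((ψ i g - ψ i l0).rank : ℝ) ≤ ε * n i := by
    refine (Filter.eventually_all_finset _).2 fun g hg => ?_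
    exact Fin_same hm hN (Finset.mem_filter.1 hg).2 ε hεpos
  have e4 : ∀ᶠ i in (U : Filter I), ∀ g ∈ S, g ∉ Q0 → ∃ t, ((ψ i g - ψ i (u t)).rank : ℝ) ≤ ε * n i := by
    refine (Filter.eventually_all_finset _).2 fun g hg => ?_
    by_cases hgQ : g ∈ Q0
    · exact Eventually.of_forall fun i h => absurd hgQ h
    · have hne' : (QuotientGroup.mk g : G ⧸ N) ≠ QuotientGroup.mk l0 := fun h =>
        hgQ (Finset.mem_filter.2 ⟨hg, h⟩)
      let t : ι := ⟨QuotientGroup.mk g, Finset.mem_erase.2 ⟨hne', Finset.mem_image_of_mem _ hg⟩⟩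
      have h2 : (QuotientGroup.mk g : G ⧸ N) = QuotientGroup.mk (u t) := (hu t).symm
      filter_upwards [Fin_same hm hN h2 ε hεpos] with i hi _
      exact ⟨t, hi⟩
  have e5 : ∀ᶠ i in (U : Filter I), ∀ t : ι, δ * n i ≤ ((ψ i l0 - ψ i (u t)).rank : ℝ) := by
    refine eventually_all.2 fun t => ?_
    filter_upwards [hcev t] with i hi
    exact (mul_le_mul_of_nonneg_right (hδc t) (Nat.cast_nonneg _)).trans hi
  obtain ⟨i, h2, h3, h4, h5, h6⟩ := (e1.and (e2.and (e3.and (e4.and e5)))).exists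
  have h7 := key_real (hn i) hεpos.le hδ.le (hf i) (h1 i) hxy h2 h3 u l0 Q0 (Finset.filter_subset _ _) hc h4 h5 h6
  exact absurd hCε (not_lt.2 h7)

theorem pr_mul_of_left {G : Type*} [Group G] {A : Type*} [Ring A] {N : Subgroup G} {c : MonoidAlgebra A G}
    (hc : pr N c = 0) (a : MonoidAlgebra A G) : pr N (a * c) = 0 := by
  ext q
  induction q using QuotientGroup.induction_on with
  | H g =>
    rw [pr_mul, hc]
    refine Finset.sum_eq_zero fun y _ => ?_
    simp

theorem pr_mul_of_right {G : Type*} [Group G] {A : Type*} [Ring A] {N : Subgroup G} [N.Normal] {c : MonoidAlgebra A G}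
    (hc : pr N c = 0) (a : MonoidAlgebra A G) : pr N (c * a) = 0 := by
  classical
  induction a using MonoidAlgebra.induction_linear with
  | zero => rw [mul_zero, pr_zero]
  | add f g hf hg => rw [mul_add, pr_add, hf, hg, add_zero]
  | single t r =>
    have h0 : pr N (c * single t 1) = 0 := by
      ext q
      induction q using QuotientGroup.induction_on with
      | H g =>
        have h2 := pr_mul_single N c (t := t) (fun h => by
          constructor
          · intro h3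
            have h4 := (inferInstance : N.Normal).conj_mem _ h3 t
            have h5 : t * (t⁻¹ * h * t) * t⁻¹ = h := by group
            rwa [h5] at h4
          · intro h3
            have h4 := (inferInstance : N.Normal).conj_mem _ h3 t⁻¹
            rwa [inv_inv] at h4) (g * t⁻¹)
        rw [inv_mul_cancel_right] at h2
        rw [h2, hc]
        rfl
    have h2 : ∀ b : MonoidAlgebra A G, ∀ q, pr N (b * single 1 r) q = pr N b q * r := by
      intro b q
      induction b using MonoidAlgebra.induction_linear with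
      | zero => rw [zero_mul, pr_zero]; simp
      | add f g hf hg => rw [add_mul, pr_add, pr_add, Finsupp.add_apply, Finsupp.add_apply, hf, hg, add_mul]
      | single x s =>
        rw [MonoidAlgebra.single_mul_single, pr_single, pr_single, Finsupp.single_apply, Finsupp.single_apply,
          mul_one]
        split_ifs
        · rfl
        · rw [zero_mul]
    have h3 : c * single t r = (c * single t 1) * single 1 r := by
      rw [mul_assoc, MonoidAlgebra.single_mul_single, mul_one, one_mul]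
    ext q
    rw [h3, h2, h0]
    simp

end Pool.Agent.MP_03ceb7_al.LS
end

section

/-!
# TASK LS Main: direct finiteness for integrally linear sofic groups

(`main1`) `I = Finset G × ℕ`, `U = Ultrafilter.of atTop`. For `i = (F, m)` choose `O i`, `n i`, `φ i` from the hypothesis with `ε = 1 / (m + 1)`, a maximal ideal `P i` of `O i` which contains `p`
(`p` is not a unit: `Ideal.exists_le_maximal` for `Ideal.span {p}`), `κ i = O i ⧸ P i` (a field, `Ideal.Quotient.field`), `π i` the quotient map (onto); `CharP (κ i) p` (`p = 0` in `κ i`, `p` prime: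
`CharP.of_prime_eq_zero` or similar). For fixed `g, h`: `g, h ∈ F` and `1 / (m + 1) ≤ ε` for all large `(F, m)`, so `Sm U n fun i => rkL (φ i (g * h) - φ i g * φ i h)`; if `g ≠ 1` then
`δ g * n i ≤ rkL (φ i g - 1)` for all large `i`, so `¬ Sm` (`δ g / 2`, `0 < n i`, `U` is nontrivial).
`N = {g | Sm U n fun i => ((φ i g - 1).map (π i)).rank}` is a normal subgroup of `G`: `φ (g h) - 1 = (φ (g h) - φ g φ h) + φ g (φ h - 1) + (φ g - 1)`; `g⁻¹`: `φ g⁻¹ (φ g - 1)` is `φ 1 - φ g⁻¹` up to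
`Sm` terms; normality: `φ (h g h⁻¹) - 1 ≡ φ h (φ g - 1) φ h⁻¹`, all modulo terms which are `Sm` for `rkL`, hence also after `π i` (`rk_red_le`). `LocallyIndicable p N` by `ult_indicable`.
Let `Ω i` be a common extension field of `K` and `κ i` (`exists_common_ext`), `ψ i g = (φ i g).map` to `Ω i` (through `κ i`): ranks after mapping from `κ i` to `Ω i` are the same (`rank_map_field`), so with
`exists_rep` all hypotheses of `pr_eq_zero` hold: `pr N e = 0` for `e = y * x - 1`.
Finally `x * e = x * y * x - x = 0`, and `Hyp x N S` for every `S` (definition in Strebel.lean): if `pr N (x * c) = 0` then `pr N (y * x * c) = 0` (`pr_mul_of_left`), `y * x = 1 + e`, `pr N (e * c) = 0`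
(`pr_mul_of_right`), so `pr N c = 0` (`pr_sub`, `pr_add`). `eq_zero_of_hyp` (with `a = x`, `b = e`, coefficient ring `A`, `CharP A p`: `A` is a nontrivial `K`-algebra; if `A` is trivial the theorem is
trivial) gives `e = 0`.
(`main0`) the same with `κ i = L`, `Ω i` a common extension of `K` and `L` (`exists_common_ext_zero`), `N = ⊥` (`g ≠ 1` is not in it by the hypothesis on `δ`): `pr ⊥ e = 0` gives `e = 0`, since
`g ↦ mk g` is injective (`Finsupp.mapDomain_injective`).
-/

set_option autoImplicit false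

open Filter MonoidAlgebra

universe u v w

namespace Pool.Agent.MP_03ceb7_al.LS

private theorem Main_ultra (G : Type u) : ∃ U : Ultrafilter (Finset G × ℕ), ∀ (F₀ : Finset G) (m₀ : ℕ),
    ∀ᶠ i in (U : Filter (Finset G × ℕ)), F₀ ⊆ i.1 ∧ m₀ ≤ i.2 := by
  classical
  refine ⟨Ultrafilter.of atTop, fun F₀ m₀ => ?_⟩
  refine Ultrafilter.of_le (atTop : Filter (Finset G × ℕ)) ?_
  exact eventually_atTop.2 ⟨(F₀, m₀), fun i hi => ⟨hi.1, hi.2⟩⟩

private theorem Main_sm {G : Type u} {U : Ultrafilter (Finset G × ℕ)}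
    (hU : ∀ (F₀ : Finset G) (m₀ : ℕ), ∀ᶠ i in (U : Filter (Finset G × ℕ)), F₀ ⊆ i.1 ∧ m₀ ≤ i.2)
    {n q : Finset G × ℕ → ℕ} (F₀ : Finset G)
    (h : ∀ i : Finset G × ℕ, F₀ ⊆ i.1 → (q i : ℝ) ≤ 1 / ((i.2 : ℝ) + 1) * n i) : Sm U n q := by
  intro ε hε
  obtain ⟨m₀, hm₀⟩ := exists_nat_one_div_lt hε
  refine (hU F₀ m₀).mono fun i hi => (h i hi.1).trans ?_
  refine mul_le_mul_of_nonneg_right ?_ (Nat.cast_nonneg _)
  refine le_trans ?_ hm₀.le
  have h1 : (m₀ : ℝ) ≤ i.2 := Nat.cast_le.2 hi.2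
  exact one_div_le_one_div_of_le (by positivity) (by linarith)

private theorem Main_not_sm {G : Type u} {U : Ultrafilter (Finset G × ℕ)}
    (hU : ∀ (F₀ : Finset G) (m₀ : ℕ), ∀ᶠ i in (U : Filter (Finset G × ℕ)), F₀ ⊆ i.1 ∧ m₀ ≤ i.2)
    {n q : Finset G × ℕ → ℕ} (hn : ∀ i, 0 < n i) (F₀ : Finset G) {δ : ℝ}
    (hδ : 0 < δ) (h : ∀ i : Finset G × ℕ, F₀ ⊆ i.1 → δ * n i ≤ (q i : ℝ)) : ¬ Sm U n q := by
  intro hs
  have h1 := hs (δ / 2) (by positivity)
  obtain ⟨i, h3, h4⟩ := (h1.and (hU F₀ 0)).exists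
  have h5 : (0 : ℝ) < n i := Nat.cast_pos.2 (hn i)
  have h6 := h i h4.1
  nlinarith

private theorem Main_normal {I : Type*} {U : Ultrafilter I} {n : I → ℕ} {κ : I → Type*} [∀ i, Field (κ i)]
    {G : Type*} [Group G] {ψ : ∀ i, G → Matrix (Fin (n i)) (Fin (n i)) (κ i)} (h1 : ∀ i, ψ i 1 = 1)
    (hm : ∀ g h, Sm U n fun i => (ψ i (g * h) - ψ i g * ψ i h).rank) :
    ∃ N : Subgroup G, N.Normal ∧ ∀ g, g ∈ N ↔ Sm U n fun i => (ψ i g - 1).rank := by
  have hone : ∀ h h' : G, h * h' = 1 → Sm U n fun i => (1 - ψ i h * ψ i h').rank := by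
    intro h h' hh
    have h2 := hm h h'
    rw [hh] at h2
    simpa only [h1] using h2
  refine ⟨{ carrier := {g | Sm U n fun i => (ψ i g - 1).rank}
            one_mem' := ?_
            mul_mem' := ?_
            inv_mem' := ?_ }, ⟨?_⟩, fun g => Iff.rfl⟩
  · intro a b ha hb
    refine (((hm a b).add hb).add ha).mono fun i => ?_
    have h2 : ψ i (a * b) - 1 = (ψ i (a * b) - ψ i a * ψ i b) + ψ i a * (ψ i b - 1) + (ψ i a - 1) := by
      rw [mul_sub, mul_one]
      abel
    rw [h2]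
    refine (rank_add_le' _ _).trans (Nat.add_le_add_right ?_ _)
    exact (rank_add_le' _ _).trans (Nat.add_le_add_left (Matrix.rank_mul_le_right _ _) _)
  · refine sm_zero.mono fun i => ?_
    rw [h1, sub_self, Matrix.rank_zero]
  · intro a ha
    refine (ha.add (hone a⁻¹ a (inv_mul_cancel a))).mono fun i => ?_
    have h2 : ψ i a⁻¹ - 1 = - (ψ i a⁻¹ * (ψ i a - 1)) - (1 - ψ i a⁻¹ * ψ i a) := by
      rw [mul_sub, mul_one]
      abel
    rw [h2]
    refine (rank_sub_le' _ _).trans (Nat.add_le_add_right ?_ _)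
    rw [rank_neg']
    exact Matrix.rank_mul_le_right _ _
  · intro a ha h
    refine ((((hm (h * a) h⁻¹).add (hm h a)).add ha).add (hone h h⁻¹ (mul_inv_cancel h))).mono fun i => ?_
    have h2 : ψ i (h * a * h⁻¹) - 1 = (ψ i (h * a * h⁻¹) - ψ i (h * a) * ψ i h⁻¹) +
        (ψ i (h * a) - ψ i h * ψ i a) * ψ i h⁻¹ + ψ i h * (ψ i a - 1) * ψ i h⁻¹ - (1 - ψ i h * ψ i h⁻¹) := by
      rw [mul_sub, mul_one, sub_mul, sub_mul]
      abel
    rw [h2]
    refine (rank_sub_le' _ _).trans (Nat.add_le_add_right ?_ _)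
    refine (rank_add_le' _ _).trans (Nat.add_le_add ?_ ?_)
    · exact (rank_add_le' _ _).trans (Nat.add_le_add_left (Matrix.rank_mul_le_left _ _) _)
    · exact (Matrix.rank_mul_le_left _ _).trans (Matrix.rank_mul_le_right _ _)

private theorem Main_pr {I : Type*} {U : Ultrafilter I} {n : I → ℕ} (hn : ∀ i, 0 < n i) {κ : I → Type}
    [∀ i, Field (κ i)] {G : Type*} [Group G] {ψ : ∀ i, G → Matrix (Fin (n i)) (Fin (n i)) (κ i)}
    (h1 : ∀ i, ψ i 1 = 1) (hm : ∀ g h, Sm U n fun i => (ψ i (g * h) - ψ i g * ψ i h).rank)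
    (N : Subgroup G) (hN : ∀ g, g ∈ N ↔ Sm U n fun i => (ψ i g - 1).rank)
    {K : Type v} [Field K] {A : Type w} [Ring A] [Algebra K A] [Module.Finite K A]
    (hext : ∀ i, ∃ (Ω : Type v) (_ : Field Ω), Nonempty (K →+* Ω) ∧ Nonempty (κ i →+* Ω))
    {x y : MonoidAlgebra A G} (hxy : x * y = 1) : pr N (y * x - 1) = 0 := by
  choose Ω hΩ hKΩ hκΩ using hext
  obtain ⟨d, hd⟩ := exists_rep.{v, 0, w} K A
  choose f hf using fun i => @hd (Ω i) (hΩ i) (hKΩ i).some
  have hk : ∀ i, κ i →+* Ω i := fun i => (hκΩ i).some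
  refine pr_eq_zero (U := U) hn hf (ψ := fun i g => (ψ i g).map (hk i)) (fun i => ?_) (fun g h => ?_) N
    (fun g => ?_) hxy
  · simp only [h1]
    exact Matrix.map_one _ (map_zero _) (map_one _)
  · refine (hm g h).mono fun i => ?_
    rw [← Matrix.map_mul, ← Matrix.map_sub _ (map_sub (hk i)), rank_map_field]
  · rw [hN g]
    have h2 : (fun i => (ψ i g - 1).rank) = fun i => ((ψ i g).map (hk i) - 1).rank := by
      funext i
      rw [← rank_map_field (hk i) (ψ i g - 1), Matrix.map_sub _ (map_sub (hk i)),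
        Matrix.map_one _ (map_zero _) (map_one _)]
    rw [h2]

private theorem Main_residue (p : ℕ) [Fact p.Prime] (O : Type) [CommRing O] (hp : ¬ IsUnit (p : O)) :
    ∃ (κ : Type) (_ : Field κ) (_ : CharP κ p) (π : O →+* κ), Function.Surjective π := by
  obtain ⟨P, hP, hle⟩ := Ideal.exists_le_maximal _ (Ideal.span_singleton_ne_top hp)
  let _ : Field (O ⧸ P) := Ideal.Quotient.field P
  refine ⟨O ⧸ P, inferInstance, ?_, Ideal.Quotient.mk P, Ideal.Quotient.mk_surjective⟩
  rw [CharP.charP_iff_prime_eq_zero (Fact.out : p.Prime)]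
  rw [← map_natCast (Ideal.Quotient.mk P) p, Ideal.Quotient.eq_zero_iff_mem]
  exact hle (Ideal.mem_span_singleton_self _)

theorem main1 {p : ℕ} [Fact p.Prime] {G : Type u} [Group G] (hG : IntegrallyLinearSofic p G)
    {K : Type v} [Field K] [CharP K p] {A : Type w} [Ring A] [Algebra K A] [Module.Finite K A]
    (x y : MonoidAlgebra A G) (hxy : x * y = 1) : y * x = 1 := by
  classical
  rcases subsingleton_or_nontrivial A with hA | hA
  · exact coeff_injective (Subsingleton.elim _ _)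
  obtain ⟨δ, hδ, hφ⟩ := hG
  choose O hO1 hO2 n φ hp hn h1 hmul hsep using fun i : Finset G × ℕ =>
    hφ i.1 (1 / ((i.2 : ℝ) + 1)) (by positivity)
  choose κ hκ hκp π hπ using fun i => Main_residue p (O i) (hp i)
  obtain ⟨U, hU⟩ := Main_ultra G
  have hm : ∀ g h, Sm U n fun i => rkL (φ i (g * h) - φ i g * φ i h) := fun g h =>
    Main_sm hU {g, h} fun i hi => hmul i g (hi (by simp)) h (hi (by simp))
  have hinj : ∀ g, (Sm U n fun i => rkL (φ i g - 1)) → g = 1 := by
    intro g hs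
    by_contra hg
    exact Main_not_sm hU hn {g} (hδ g hg) (fun i hi => hsep i g (hi (by simp)) hg) hs
  have h1' : ∀ i, (φ i 1).map (π i) = 1 := by
    intro i
    rw [h1 i]
    exact Matrix.map_one _ (map_zero _) (map_one _)
  have hm' : ∀ g h, Sm U n fun i => ((φ i (g * h)).map (π i) - (φ i g).map (π i) * (φ i h).map (π i)).rank := by
    intro g h
    refine (hm g h).mono fun i => ?_
    rw [← Matrix.map_mul, ← Matrix.map_sub _ (map_sub (π i))]
    exact rk_red_le (hπ i) _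
  obtain ⟨N, hNn, hN⟩ := Main_normal (U := U) (ψ := fun i g => (φ i g).map (π i)) h1' hm'
  have hind : LocallyIndicable p N := by
    refine ult_indicable (U := U) hπ h1 hm hinj N fun g hg => ?_
    refine ((hN g).1 hg).mono fun i => le_of_eq ?_
    rw [Matrix.map_sub _ (map_sub (π i)), Matrix.map_one _ (map_zero _) (map_one _)]
  have hpr : pr N (y * x - 1) = 0 :=
    Main_pr (U := U) (κ := κ) (ψ := fun i g => (φ i g).map (π i)) hn h1' hm' N hN
      (fun i => exists_common_ext.{v, 0} p K (κ i)) hxy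
  have hchar : CharP A p := charP_of_injective_algebraMap (algebraMap K A).injective p
  have hzero : x * (y * x - 1) = 0 := by
    rw [mul_sub, mul_one, ← mul_assoc, hxy, one_mul, sub_self]
  refine sub_eq_zero.1 (eq_zero_of_hyp (p := p) hzero _ N hind (Nat.le_add_left _ _) ?_)
  intro c _ hc
  have h2 := pr_mul_of_left hc y
  have h3 := pr_mul_of_right hpr c
  have h4 : c = y * (x * c) - (y * x - 1) * c := by
    rw [sub_mul, one_mul, mul_assoc, sub_sub_cancel]
  rw [h4, pr_sub, h2, h3, sub_zero]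

/-- A subgroup whose image modulo a locally `p`-indicable normal subgroup is locally `p`-indicable. -/
private theorem Main_indicable {p : ℕ} {G : Type*} [Group G] {N₀ : Subgroup G} [N₀.Normal]
    (h0 : LocallyIndicable p N₀) {N' : Subgroup (G ⧸ N₀)} (h' : LocallyIndicable p N') :
    LocallyIndicable p (N'.comap (QuotientGroup.mk' N₀)) := by
  intro M hM hfg hne
  by_cases hbot : M.map (QuotientGroup.mk' N₀) = ⊥
  · refine h0 M ?_ hfg hne
    rwa [Subgroup.map_eq_bot_iff, QuotientGroup.ker_mk'] at hbot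
  · obtain ⟨χ, hχ⟩ := h' (M.map (QuotientGroup.mk' N₀)) (Subgroup.map_le_iff_le_comap.2 hM)
      (by
        have : Group.FG M := (Group.fg_iff_subgroup_fg M).2 hfg
        have h1 : Group.FG (M.map (QuotientGroup.mk' N₀)) :=
          Group.fg_of_surjective ((QuotientGroup.mk' N₀).subgroupMap_surjective M)
        exact (Group.fg_iff_subgroup_fg _).1 h1) hbot
    refine ⟨χ.comp ((QuotientGroup.mk' N₀).subgroupMap M), fun h => hχ ?_⟩
    ext x
    obtain ⟨y, rfl⟩ := (QuotientGroup.mk' N₀).subgroupMap_surjective M x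
    have h2 := DFunLike.congr_fun h y
    exact congrArg _ h2

theorem main3 {p : ℕ} [Fact p.Prime] {G : Type u} [Group G] (N₀ : Subgroup G) [N₀.Normal]
    (hN₀ : LocallyIndicable p N₀) (hG : IntegrallyLinearSofic p (G ⧸ N₀))
    {K : Type v} [Field K] [CharP K p] {A : Type w} [Ring A] [Algebra K A] [Module.Finite K A]
    (x y : MonoidAlgebra A G) (hxy : x * y = 1) : y * x = 1 := by
  classical
  rcases subsingleton_or_nontrivial A with hA | hA
  · exact coeff_injective (Subsingleton.elim _ _)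
  obtain ⟨δ, hδ, hφ⟩ := hG
  choose O hO1 hO2 n φ hp hn h1 hmul hsep using fun i : Finset (G ⧸ N₀) × ℕ =>
    hφ i.1 (1 / ((i.2 : ℝ) + 1)) (by positivity)
  choose κ hκ hκp π hπ using fun i => Main_residue p (O i) (hp i)
  obtain ⟨U, hU⟩ := Main_ultra (G ⧸ N₀)
  have hm : ∀ g h, Sm U n fun i => rkL (φ i (g * h) - φ i g * φ i h) := fun g h =>
    Main_sm hU {g, h} fun i hi => hmul i g (hi (by simp)) h (hi (by simp))
  have hinj : ∀ g, (Sm U n fun i => rkL (φ i g - 1)) → g = 1 := by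
    intro g hs
    by_contra hg
    exact Main_not_sm hU hn {g} (hδ g hg) (fun i hi => hsep i g (hi (by simp)) hg) hs
  have h1' : ∀ i, (φ i 1).map (π i) = 1 := by
    intro i
    rw [h1 i]
    exact Matrix.map_one _ (map_zero _) (map_one _)
  have hm' : ∀ g h, Sm U n fun i => ((φ i (g * h)).map (π i) - (φ i g).map (π i) * (φ i h).map (π i)).rank := by
    intro g h
    refine (hm g h).mono fun i => ?_
    rw [← Matrix.map_mul, ← Matrix.map_sub _ (map_sub (π i))]
    exact rk_red_le (hπ i) _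
  obtain ⟨N', hNn, hN'⟩ := Main_normal (U := U) (ψ := fun i g => (φ i g).map (π i)) h1' hm'
  have hind' : LocallyIndicable p N' := by
    refine ult_indicable (U := U) hπ h1 hm hinj N' fun g hg => ?_
    refine ((hN' g).1 hg).mono fun i => le_of_eq ?_
    rw [Matrix.map_sub _ (map_sub (π i)), Matrix.map_one _ (map_zero _) (map_one _)]
  set N : Subgroup G := N'.comap (QuotientGroup.mk' N₀) with hNdef
  have hNn2 : N.Normal := hNn.comap _
  have hind : LocallyIndicable p N := Main_indicable hN₀ hind'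
  have hpr : pr N (y * x - 1) = 0 :=
    Main_pr (U := U) (κ := κ) (ψ := fun i g => (φ i (QuotientGroup.mk' N₀ g)).map (π i)) hn
      (fun i => by rw [map_one]; exact h1' i)
      (fun g h => by simp only [map_mul]; exact hm' _ _) N (fun g => hN' _)
      (fun i => exists_common_ext.{v, 0} p K (κ i)) hxy
  have hchar : CharP A p := charP_of_injective_algebraMap (algebraMap K A).injective p
  have hzero : x * (y * x - 1) = 0 := by
    rw [mul_sub, mul_one, ← mul_assoc, hxy, one_mul, sub_self]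
  refine sub_eq_zero.1 (eq_zero_of_hyp (p := p) hzero _ N hind (Nat.le_add_left _ _) ?_)
  intro c _ hc
  have h2 := pr_mul_of_left hc y
  have h3 := pr_mul_of_right hpr c
  have h4 : c = y * (x * c) - (y * x - 1) * c := by
    rw [sub_mul, one_mul, mul_assoc, sub_sub_cancel]
  rw [h4, pr_sub, h2, h3, sub_zero]

theorem main0 {L : Type} [Field L] [CharZero L] {G : Type u} [Group G] (hG : LinearSofic L G)
    {K : Type v} [Field K] [CharZero K] {A : Type w} [Ring A] [Algebra K A] [Module.Finite K A]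
    (x y : MonoidAlgebra A G) (hxy : x * y = 1) : y * x = 1 := by
  classical
  obtain ⟨δ, hδ, hφ⟩ := hG
  choose n φ hn h1 hmul hsep using fun i : Finset G × ℕ =>
    hφ i.1 (1 / ((i.2 : ℝ) + 1)) (by positivity)
  obtain ⟨U, hU⟩ := Main_ultra G
  have hm : ∀ g h, Sm U n fun i => (φ i (g * h) - φ i g * φ i h).rank := fun g h =>
    Main_sm hU {g, h} fun i hi => hmul i g (hi (by simp)) h (hi (by simp))
  have hN : ∀ g, g ∈ (⊥ : Subgroup G) ↔ Sm U n fun i => (φ i g - 1).rank := by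
    intro g
    rw [Subgroup.mem_bot]
    constructor
    · rintro rfl
      refine sm_zero.mono fun i => ?_
      rw [h1, sub_self, Matrix.rank_zero]
    · intro hs
      by_contra hg
      exact Main_not_sm hU hn {g} (hδ g hg) (fun i hi => hsep i g (hi (by simp)) hg) hs
  have hpr : pr (⊥ : Subgroup G) (y * x - 1) = 0 :=
    Main_pr (κ := fun _ => L) (U := U) hn h1 hm ⊥ hN (fun _ => exists_common_ext_zero.{v, 0} K L) hxy
  have hmk : Function.Injective (QuotientGroup.mk : G → G ⧸ (⊥ : Subgroup G)) := by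
    intro a b hab
    rw [QuotientGroup.eq, Subgroup.mem_bot, inv_mul_eq_one] at hab
    exact hab
  refine sub_eq_zero.1 (coeff_injective (Finsupp.mapDomain_injective hmk ?_))
  rw [MonoidAlgebra.coeff_zero, Finsupp.mapDomain_zero]
  exact hpr

end Pool.Agent.MP_03ceb7_al.LS
end

section

/-!
# TASK LS Val: finite groups of complex matrices are integral at `p`

(`rkL_eq_rank_map`) `ι` extends to a field homomorphism `FractionRing O →+* L` (`IsFractionRing.lift`); `rank_map_field`, `Matrix.map_map`.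
(`exists_valuation`) the localisation of `ℤ` at `p` in `ℂ`: apply `LocalSubring.exists_le_valuationSubring` (Mathlib.RingTheory.Valuation.LocalSubring; see there, near line 149,
`LocalSubring.ofPrime A M` for the subring `A = ℤ` of `ℂ`, `A = (Int.castRingHom ℂ).range`, and its prime ideal generated by `p`, for a valuation subring which dominates it).
(`exists_integral_form`) `V` the valuation subring, `O = V`. Let `W` be the finite set of the vectors `g *ᵥ e_j` (`g ∈ Δ`, `e_j` the standard basis, `j : Fin n`). `W` is invariant under `Δ` and contains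
the `e_j`. Among all maps `w : Fin n → W` choose one for which the valuation of `det B`, `B` the matrix with the columns `w j`, is maximal (finitely many maps; `Finite.exists_max`); `det B ≠ 0`, since the
identity matrix is one of these matrices and its determinant `1` has valuation `1 > 0`. For `v ∈ W`: `(B⁻¹ *ᵥ v) i = det (B.updateCol i v) / det B` (Cramer's rule, `Matrix.cramer_apply`, `Matrix.mulVec_cramer`), and
`B.updateCol i v` is again one of these matrices, so the quotient has valuation `≤ 1`, it is in `V`. So for `g ∈ Δ` all entries of `B⁻¹ * g * B` are in `V` (its columns are `B⁻¹ *ᵥ (g *ᵥ w j)`, and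
`g *ᵥ w j ∈ W`).
-/

set_option autoImplicit false

open Matrix

namespace Pool.Agent.MP_03ceb7_al.LS

theorem rkL_eq_rank_map {O : Type*} [CommRing O] [IsDomain O] {L : Type*} [Field L] {ι : O →+* L} (hι : Function.Injective ι)
    {n : ℕ} (A : Matrix (Fin n) (Fin n) O) : rkL A = (A.map ι).rank := by
  unfold rkL
  rw [← rank_map_field (IsFractionRing.lift hι : FractionRing O →+* L)]
  congr 1
  ext i j
  simp only [Matrix.map_apply]
  exact IsFractionRing.lift_algebraMap hι (A i j)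

theorem exists_valuation (p : ℕ) (hp : p.Prime) : ∃ V : ValuationSubring ℂ, ¬ IsUnit (p : V) := by
  let A : Subring ℂ := (Int.castRingHom ℂ).range
  let I : Ideal A := Ideal.span {(p : A)}
  have hI : I ≠ ⊤ := by
    intro h
    have h1 : (1 : A) ∈ I := by rw [h]; trivial
    rw [Ideal.mem_span_singleton'] at h1
    obtain ⟨a, ha⟩ := h1
    obtain ⟨k, hk⟩ := a.2
    have h2 : (a : ℂ) * (p : ℂ) = 1 := by
      have h3 := congrArg (fun z : A => (z : ℂ)) ha
      simpa using h3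
    rw [← hk] at h2
    have h4 : k * (p : ℤ) = 1 := by
      have h5 : ((k * (p : ℤ) : ℤ) : ℂ) = ((1 : ℤ) : ℂ) := by
        push_cast
        simpa using h2
      exact_mod_cast h5
    have h6 : IsUnit (p : ℤ) := IsUnit.of_mul_eq_one k (by rw [mul_comm]; exact h4)
    rw [Int.isUnit_iff] at h6
    have := hp.two_le
    omega
  obtain ⟨V, -, hV⟩ := Ideal.image_subset_nonunits_valuationSubring I hI
  refine ⟨V, fun hu => ?_⟩
  have h1 : ((p : A) : ℂ) ∈ V.nonunits := hV ⟨(p : A), Ideal.subset_span rfl, rfl⟩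
  have h2 : (((p : V) : V) : ℂ) ∈ V.nonunits := by
    have h3 : ((p : V) : ℂ) = ((p : A) : ℂ) := by simp
    rw [h3]
    exact h1
  rw [ValuationSubring.coe_mem_nonunits_iff] at h2
  exact h2 hu

theorem exists_integral_form (V : ValuationSubring ℂ) {n : ℕ} (Δ : Subgroup (GL (Fin n) ℂ)) [Finite Δ] :
    ∃ S : GL (Fin n) ℂ, ∀ g ∈ Δ, ∃ M : Matrix (Fin n) (Fin n) V,
      M.map V.subtype = ((S⁻¹ * g * S : GL (Fin n) ℂ) : Matrix (Fin n) (Fin n) ℂ) := by
  classical
  -- the columns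
  let col : Δ × Fin n → Fin n → ℂ := fun x => ((x.1 : GL (Fin n) ℂ) : Matrix (Fin n) (Fin n) ℂ) *ᵥ (Pi.single x.2 1)
  let Bm : (Fin n → Δ × Fin n) → Matrix (Fin n) (Fin n) ℂ := fun w => Matrix.of fun i j => col (w j) i
  have hne : Nonempty (Fin n → Δ × Fin n) := ⟨fun j => (1, j)⟩
  obtain ⟨w, hw⟩ := Finite.exists_max (fun w : Fin n → Δ × Fin n => V.valuation (Bm w).det)
  have h1 : Bm (fun j => (1, j)) = 1 := by
    ext i j
    simp [Bm, col, Matrix.one_apply, Pi.single_apply, eq_comm]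
  have hdet : (Bm w).det ≠ 0 := by
    intro h0
    have h2 := hw (fun j => (1, j))
    simp only [h1, h0, Matrix.det_one, map_one, map_zero] at h2
    exact absurd h2 (by simp)
  have hU : IsUnit (Bm w).det := isUnit_iff_ne_zero.2 hdet
  -- Cramer
  have hcr : ∀ x : Δ × Fin n, ∀ i : Fin n, ((Bm w)⁻¹ *ᵥ col x) i ∈ V := by
    intro x i
    have h3 : (Bm w)⁻¹ *ᵥ col x = ((Bm w).det)⁻¹ • (Bm w).cramer (col x) := by
      have h4 := Matrix.mulVec_cramer (Bm w) (col x)
      have h5 : (Bm w)⁻¹ *ᵥ ((Bm w) *ᵥ (Bm w).cramer (col x)) = (Bm w).cramer (col x) := by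
        rw [Matrix.mulVec_mulVec, Matrix.nonsing_inv_mul _ hU, Matrix.one_mulVec]
      rw [h4, Matrix.mulVec_smul] at h5
      rw [← h5, smul_smul, inv_mul_cancel₀ hdet, one_smul]
    rw [h3, Pi.smul_apply, smul_eq_mul, Matrix.cramer_apply]
    have h6 : (Bm w).updateCol i (col x) = Bm (Function.update w i x) := by
      ext a b
      rcases eq_or_ne b i with rfl | hb
      · rw [Matrix.updateCol_self]
        simp [Bm]
      · rw [Matrix.updateCol_ne hb]
        simp [Bm, Function.update_of_ne hb]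
    rw [h6, ← ValuationSubring.valuation_le_one_iff, map_mul, map_inv₀]
    have h7 := hw (Function.update w i x)
    have h8 : V.valuation (Bm w).det ≠ 0 := by
      rw [Ne, map_eq_zero]
      exact hdet
    rw [mul_comm, ← div_eq_mul_inv]
    exact (div_le_one₀ (zero_lt_iff.2 h8)).2 h7
  refine ⟨Matrix.GeneralLinearGroup.mkOfDetNeZero (Bm w) hdet, fun g hg => ?_⟩
  have hent : ∀ i j, ((Bm w)⁻¹ * (g : Matrix (Fin n) (Fin n) ℂ) * Bm w) i j ∈ V := by
    intro i j
    have h9 : ((Bm w)⁻¹ * (g : Matrix (Fin n) (Fin n) ℂ) * Bm w) i j =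
        ((Bm w)⁻¹ *ᵥ col ((⟨g, hg⟩ : Δ) * (w j).1, (w j).2)) i := by
      have h10 : col ((⟨g, hg⟩ : Δ) * (w j).1, (w j).2) = (g : Matrix (Fin n) (Fin n) ℂ) *ᵥ (col (w j)) := by
        simp only [col]
        rw [Matrix.mulVec_mulVec]
        rfl
      rw [h10, Matrix.mulVec_mulVec]
      rfl
    rw [h9]
    exact hcr _ i
  refine ⟨Matrix.of fun i j => ⟨_, hent i j⟩, ?_⟩
  ext i j
  have h11 : (((Matrix.GeneralLinearGroup.mkOfDetNeZero (Bm w) hdet)⁻¹ * g *
      Matrix.GeneralLinearGroup.mkOfDetNeZero (Bm w) hdet : GL (Fin n) ℂ) : Matrix (Fin n) (Fin n) ℂ) =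
      (Bm w)⁻¹ * (g : Matrix (Fin n) (Fin n) ℂ) * Bm w := by
    rw [Units.val_mul, Units.val_mul, Matrix.coe_units_inv]
    rfl
  rw [h11]
  rfl

end Pool.Agent.MP_03ceb7_al.LS
end

section

/-!
# TASK LS FO4: rank and trace of a matrix of finite order whose traces have bounded degree (Galois part)

`k : IntermediateField ℚ ℂ` is finite dimensional of degree `≤ d`. `μ : ℕ → ℕ` multiplicities with `∑ l ∈ range m, μ l * ζ ^ (j * l) ∈ k` for all `j`.
(`exists_fixing`) Let `L = ℚ⟮ζ⟯`, a cyclotomic field (`IsPrimitiveRoot.intermediateField_adjoin_isCyclotomicExtension`), Galois over `ℚ` (`IsCyclotomicExtension.isGalois`) of degree `φ(m) = #(Un m)`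
(`IsCyclotomicExtension.finrank`, `Polynomial.cyclotomic.irreducible_rat`; `#(Un m) = Nat.totient m`, `Nat.totient_eq_card_coprime`). Every `σ : L ≃ₐ[ℚ] L` is given by `σ ζ = ζ ^ u` for exactly one `u ∈ Un m`
(`IsPrimitiveRoot.autToPow`, or: `σ ζ` is a primitive `m`-th root of unity, `IsPrimitiveRoot.isPrimitiveRoot_iff`). Let `F` be the intermediate field of `L` over `ℚ` of the elements of `L` which lie in `k`; `[F : ℚ] ≤ [k : ℚ] ≤ d` (`F` embeds into `k`).
The subgroup of the `σ` fixing `F` has `[L : F] = φ(m) / [F : ℚ]` elements (`IsGalois.card_fixingSubgroup_eq_finrank`, `Module.finrank_mul_finrank`), so at least `φ(m) / d`. Let `H` be the set of the corresponding `u`; `#(Un m) ≤ d * #H`, and `1 % m ∈ H`.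
For `u ∈ H`: `σ` fixes `T j = ∑ l ∈ range m, μ l * ζ ^ (j * l) ∈ k ∩ L`, and `σ (T j) = ∑ l ∈ range m, μ l * ζ ^ (u * j * l) = T (u * j)`: so `T (u * j) = T j` for all `j`.
Fourier inversion: `m * μ l = ∑ j ∈ range m, T j * ζ⁻¹ ^ (j * l)` for `l < m`. Hence `m * μ ((u * l) % m) = ∑ j, T j * ζ⁻¹ ^ (j * u * l) = ∑ j, T (u * j) * ζ⁻¹ ^ (u * j * l) = m * μ l`, because
`j ↦ (u * j) % m` is a permutation of `range m` (`T` and `ζ ^ .` depend only on the residues modulo `m`).
(`rank_le_of_degree`) `μ` from `exists_mult` (`ζ = exp (2πi/m)`, `Complex.isPrimitiveRoot_exp`), `rank (δ - 1) = ∑ 0 < l < m, μ l`, `∑ μ l * ‖1 - ζ ^ l‖ ^ 2 = 2 * (n - Re trace δ)`; `sum_ge`.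
-/

set_option autoImplicit false

open Matrix

namespace Pool.Agent.MP_03ceb7_al.LS

private theorem FO4_geom {m : ℕ} {ζ : ℂ} (hζ : IsPrimitiveRoot ζ m) (a : ℕ) :
    ∑ j ∈ Finset.range m, ζ ^ (j * a) = if m ∣ a then (m : ℂ) else 0 := by
  split_ifs with h
  · have h1 : ∀ j ∈ Finset.range m, ζ ^ (j * a) = 1 := by
      intro j _
      rw [mul_comm, pow_mul, (hζ.pow_eq_one_iff_dvd a).2 h, one_pow]
    rw [Finset.sum_congr rfl h1]
    simp
  · have h1 : ζ ^ a ≠ 1 := fun h2 => h ((hζ.pow_eq_one_iff_dvd a).1 h2)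
    have h2 := mul_geom_sum (ζ ^ a) m
    rw [← pow_mul, mul_comm a m, pow_mul, hζ.pow_eq_one, one_pow, sub_self] at h2
    rcases mul_eq_zero.1 h2 with h3 | h3
    · exact absurd (sub_eq_zero.1 h3) h1
    · rw [← h3]
      refine Finset.sum_congr rfl fun j _ => ?_
      rw [← pow_mul, mul_comm]

private theorem FO4_inv {m : ℕ} {ζ : ℂ} (hζ : IsPrimitiveRoot ζ m) (μ e : ℕ → ℕ) (b : ℕ) :
    ∑ j ∈ Finset.range m, (∑ l ∈ Finset.range m, (μ l : ℂ) * ζ ^ (j * e l)) * ζ ^ (j * b) =
      ∑ l ∈ Finset.range m, (μ l : ℂ) * if m ∣ e l + b then (m : ℂ) else 0 := by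
  have h1 : ∀ j ∈ Finset.range m, (∑ l ∈ Finset.range m, (μ l : ℂ) * ζ ^ (j * e l)) * ζ ^ (j * b) =
      ∑ l ∈ Finset.range m, (μ l : ℂ) * ζ ^ (j * (e l + b)) := by
    intro j _
    rw [Finset.sum_mul]
    refine Finset.sum_congr rfl fun l _ => ?_
    rw [mul_add, pow_add, mul_assoc]
  rw [Finset.sum_congr rfl h1, Finset.sum_comm]
  refine Finset.sum_congr rfl fun l _ => ?_
  rw [← FO4_geom hζ, Finset.mul_sum]

private theorem FO4_mu {m : ℕ} {ζ : ℂ} (hζ : IsPrimitiveRoot ζ m) (μ : ℕ → ℕ) {u : ℕ}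
    (hu : Nat.Coprime u m)
    (h : ∀ j : ℕ, ∑ l ∈ Finset.range m, (μ l : ℂ) * ζ ^ (j * (u * l)) =
      ∑ l ∈ Finset.range m, (μ l : ℂ) * ζ ^ (j * l)) {l₀ : ℕ} (hl : l₀ < m) :
    μ ((u * l₀) % m) = μ l₀ := by
  have hm : 0 < m := lt_of_le_of_lt (Nat.zero_le _) hl
  have hmC : (m : ℂ) ≠ 0 := by
    exact_mod_cast hm.ne'
  have hl1 : (u * l₀) % m < m := Nat.mod_lt _ hm
  set l₁ := (u * l₀) % m with hl₁
  have e1 := FO4_inv hζ μ (fun l => u * l) (m - l₁)
  have e2 := FO4_inv hζ μ (fun l => l) (m - l₁)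
  have e3 : ∑ l ∈ Finset.range m, (μ l : ℂ) * (if m ∣ u * l + (m - l₁) then (m : ℂ) else 0) =
      ∑ l ∈ Finset.range m, (μ l : ℂ) * (if m ∣ l + (m - l₁) then (m : ℂ) else 0) := by
    rw [← e1, ← e2]
    refine Finset.sum_congr rfl fun j _ => ?_
    rw [h j]
  have hdvd : ∀ a : ℕ, m ∣ a + (m - l₁) ↔ a ≡ l₁ [MOD m] := by
    intro a
    have h1 : a + (m - l₁) + l₁ = a + m := by omega
    constructor
    · intro h2
      have h3 : a + (m - l₁) + l₁ ≡ 0 + l₁ [MOD m] :=
        Nat.ModEq.add_right l₁ ((Nat.modEq_zero_iff_dvd).2 h2)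
      rw [h1, zero_add] at h3
      have h4 : a + m ≡ a [MOD m] := by
        simp [Nat.ModEq]
      exact h4.symm.trans h3
    · intro h2
      have h3 : a + (m - l₁) ≡ l₁ + (m - l₁) [MOD m] := Nat.ModEq.add_right _ h2
      have h4 : l₁ + (m - l₁) = m := by omega
      rw [h4] at h3
      exact (Nat.modEq_zero_iff_dvd).1 (h3.trans (by simp [Nat.ModEq]))
  have e4 : ∑ l ∈ Finset.range m, (μ l : ℂ) * (if m ∣ l + (m - l₁) then (m : ℂ) else 0) =
      (μ l₁ : ℂ) * m := by
    rw [Finset.sum_eq_single l₁]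
    · rw [if_pos ((hdvd l₁).2 (Nat.ModEq.refl _))]
    · intro l hl' hne
      rw [if_neg, mul_zero]
      intro h2
      exact hne (Nat.ModEq.eq_of_lt_of_lt ((hdvd l).1 h2) (Finset.mem_range.1 hl') hl1)
    · intro h2
      exact absurd (Finset.mem_range.2 hl1) h2
  have e5 : ∑ l ∈ Finset.range m, (μ l : ℂ) * (if m ∣ u * l + (m - l₁) then (m : ℂ) else 0) =
      (μ l₀ : ℂ) * m := by
    rw [Finset.sum_eq_single l₀]
    · rw [if_pos ((hdvd _).2 _)]
      exact (Nat.mod_modEq _ _).symm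
    · intro l hl' hne
      rw [if_neg, mul_zero]
      intro h2
      have h3 : u * l ≡ u * l₀ [MOD m] := ((hdvd _).1 h2).trans (Nat.mod_modEq _ _)
      have h4 : l ≡ l₀ [MOD m] := Nat.ModEq.cancel_left_of_coprime (by
        rw [Nat.coprime_comm] at hu
        exact hu) h3
      exact hne (Nat.ModEq.eq_of_lt_of_lt h4 (Finset.mem_range.1 hl') hl)
    · intro h2
      exact absurd (Finset.mem_range.2 hl) h2
  rw [e4, e5] at e3
  have e6 := mul_right_cancel₀ hmC e3
  exact_mod_cast e6.symm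

theorem exists_fixing {m d : ℕ} (hm : 0 < m) {ζ : ℂ} (hζ : IsPrimitiveRoot ζ m) (k : IntermediateField ℚ ℂ)
    [FiniteDimensional ℚ k] (hk : Module.finrank ℚ k ≤ d) (μ : ℕ → ℕ)
    (hμ : ∀ j : ℕ, ∑ l ∈ Finset.range m, (μ l : ℂ) * ζ ^ (j * l) ∈ k) :
    ∃ H ⊆ Un m, H.Nonempty ∧ (Un m).card ≤ d * H.card ∧ ∀ u ∈ H, ∀ l < m, μ ((u * l) % m) = μ l := by
  classical
  have : NeZero m := ⟨hm.ne'⟩
  let L : IntermediateField ℚ ℂ := IntermediateField.adjoin ℚ {ζ}
  have halg : IsAlgebraic ℚ ζ := (hζ.isIntegral hm).tower_top.isAlgebraic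
  have hcyc : IsCyclotomicExtension {m} ℚ L := by
    change IsCyclotomicExtension {m} ℚ (IntermediateField.adjoin ℚ {ζ}).toSubalgebra
    rw [IntermediateField.adjoin_simple_toSubalgebra_of_isAlgebraic halg]
    exact hζ.adjoin_isCyclotomicExtension ℚ
  have hfd : FiniteDimensional ℚ L := IsCyclotomicExtension.finiteDimensional {m} ℚ L
  have hgal : IsGalois ℚ L := IsCyclotomicExtension.isGalois {m} ℚ L
  have hfr : Module.finrank ℚ L = Nat.totient m :=
    IsCyclotomicExtension.finrank L (Polynomial.cyclotomic.irreducible_rat hm)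
  let z : L := ⟨ζ, IntermediateField.mem_adjoin_simple_self ℚ ζ⟩
  have hz : IsPrimitiveRoot z m := IsPrimitiveRoot.coe_submonoidClass_iff.mp hζ
  let F : IntermediateField ℚ L := IntermediateField.restrict (inf_le_right : k ⊓ L ≤ L)
  have hF : ∀ x : L, x ∈ F ↔ (x : ℂ) ∈ k := by
    intro x
    refine (IntermediateField.mem_restrict (inf_le_right : k ⊓ L ≤ L) x).trans ?_
    constructor
    · exact fun h => h.1
    · exact fun h => ⟨h, x.2⟩
  have hFk : Module.finrank ℚ F ≤ d := by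
    refine le_trans ?_ hk
    let g : F →ₗ[ℚ] k :=
      { toFun := fun x => ⟨((x : L) : ℂ), (hF x).1 x.2⟩
        map_add' := fun x y => rfl
        map_smul' := fun c x => by
          apply Subtype.ext
          simp [Algebra.smul_def] }
    refine LinearMap.finrank_le_finrank_of_injective (f := g) fun x y hxy => ?_
    have h1 : ((x : L) : ℂ) = ((y : L) : ℂ) := congrArg (fun t : k => (t : ℂ)) hxy
    exact Subtype.ext (Subtype.ext h1)
  have hcardG : Nat.card (IntermediateField.fixingSubgroup F) = Module.finrank F L :=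
    IsGalois.card_fixingSubgroup_eq_finrank F
  have htower : Module.finrank ℚ F * Module.finrank F L = Nat.totient m := by
    rw [Module.finrank_mul_finrank, hfr]
  have : Finite (IntermediateField.fixingSubgroup F) := inferInstance
  have : Fintype (IntermediateField.fixingSubgroup F) := Fintype.ofFinite _
  let U : (IntermediateField.fixingSubgroup F) → ℕ := fun σ =>
    ((hz.autToPow ℚ (σ : L ≃ₐ[ℚ] L) : (ZMod m)ˣ) : ZMod m).val
  have hUinj : Function.Injective U := by
    intro σ τ h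
    have h1 := ZMod.val_injective m h
    have h2 := Units.ext h1
    exact Subtype.ext (hz.autToPow_injective ℚ h2)
  have hUcop : ∀ σ, Nat.Coprime (U σ) m := fun σ => ZMod.val_coe_unit_coprime _
  have hUlt : ∀ σ, U σ < m := fun σ => ZMod.val_lt _
  have hUspec : ∀ σ : IntermediateField.fixingSubgroup F, (σ : L ≃ₐ[ℚ] L) z = z ^ U σ :=
    fun σ => (hz.autToPow_spec ℚ (σ : L ≃ₐ[ℚ] L)).symm
  have hUncard : (Un m).card = Nat.totient m := by
    unfold Un
    rw [Nat.totient_eq_card_coprime]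
    congr 1
    refine Finset.filter_congr fun a _ => ?_
    exact Nat.coprime_comm
  refine ⟨Finset.univ.image U, ?_, ?_, ?_, ?_⟩
  · intro u hu
    obtain ⟨σ, -, rfl⟩ := Finset.mem_image.1 hu
    exact Finset.mem_filter.2 ⟨Finset.mem_range.2 (hUlt σ), hUcop σ⟩
  · exact ⟨U 1, Finset.mem_image_of_mem _ (Finset.mem_univ _)⟩
  · rw [Finset.card_image_of_injective _ hUinj, Finset.card_univ, ← Nat.card_eq_fintype_card,
      hcardG, hUncard, ← htower]
    exact Nat.mul_le_mul_right _ hFk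
  · intro u hu l hl
    obtain ⟨σ, -, rfl⟩ := Finset.mem_image.1 hu
    refine FO4_mu hζ μ (hUcop σ) (fun j => ?_) hl
    let T : L := ∑ l ∈ Finset.range m, (μ l : L) * z ^ (j * l)
    have hTc : (T : ℂ) = ∑ l ∈ Finset.range m, (μ l : ℂ) * ζ ^ (j * l) := by
      simp [T, z]
    have hTF : T ∈ F := by
      rw [hF, hTc]
      exact hμ j
    have hfix : (σ : L ≃ₐ[ℚ] L) T = T := σ.2 ⟨T, hTF⟩
    have hσT : (σ : L ≃ₐ[ℚ] L) T = ∑ l ∈ Finset.range m, (μ l : L) * z ^ (j * (U σ * l)) := by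
      simp only [T, map_sum, map_mul, map_pow, map_natCast, hUspec]
      refine Finset.sum_congr rfl fun l _ => ?_
      rw [← pow_mul]
      congr 2
      ring
    rw [hσT] at hfix
    have h3 := congrArg (fun x : L => (x : ℂ)) hfix
    rw [hTc] at h3
    rw [← h3]
    simp [z]

theorem rank_le_of_degree {n m d : ℕ} (hm : 0 < m) (k : IntermediateField ℚ ℂ) [FiniteDimensional ℚ k]
    (hk : Module.finrank ℚ k ≤ d) {δ : Matrix (Fin n) (Fin n) ℂ} (hδ : δ ^ m = 1) (htr : ∀ j : ℕ, trace (δ ^ j) ∈ k) :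
    ((δ - 1).rank : ℝ) ≤ 2 * 4 ^ (d - 1) * (n - (trace δ).re) := by
  have hζ := Complex.isPrimitiveRoot_exp m hm.ne'
  set ζ := Complex.exp (2 * Real.pi * Complex.I / m) with hζdef
  obtain ⟨μ, h1, h2, h3⟩ := exists_mult hm hζ hδ
  obtain ⟨H, hHU, hne, hcard, hH⟩ := exists_fixing hm hζ k hk μ fun j => by
    rw [← h1 j]
    exact htr j
  have hd : 0 < d := lt_of_lt_of_le Module.finrank_pos hk
  have h4 := sum_ge hm hd hζ μ H hHU hne hcard hH
  have h5 : ((δ - 1).rank : ℝ) = ∑ l ∈ (Finset.range m).erase 0, (μ l : ℝ) := by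
    have h6 := Finset.add_sum_erase (Finset.range m) μ (Finset.mem_range.2 hm)
    rw [h2] at h6
    have h7 : (δ - 1).rank = ∑ l ∈ (Finset.range m).erase 0, μ l := by omega
    rw [h7]
    push_cast
    rfl
  have hnorm : ∀ l : ℕ, ‖ζ ^ l‖ = 1 := by
    intro l
    rw [norm_pow, hζ.norm'_eq_one hm.ne', one_pow]
  have hsq : ∀ l : ℕ, ‖1 - ζ ^ l‖ ^ 2 = 2 - 2 * (ζ ^ l).re := by
    intro l
    have h8 : ‖1 - ζ ^ l‖ ^ 2 = Complex.normSq (1 - ζ ^ l) := (Complex.normSq_eq_norm_sq _).symm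
    have h9 : Complex.normSq (ζ ^ l) = 1 := by
      rw [Complex.normSq_eq_norm_sq, hnorm, one_pow]
    rw [h8, Complex.normSq_apply]
    rw [Complex.normSq_apply] at h9
    simp only [Complex.sub_re, Complex.one_re, Complex.sub_im, Complex.one_im]
    nlinarith
  have h6 : ∑ l ∈ (Finset.range m).erase 0, (μ l : ℝ) * ‖1 - ζ ^ l‖ ^ 2 =
      2 * (n - (trace δ).re) := by
    have h7 : (μ 0 : ℝ) * ‖1 - ζ ^ 0‖ ^ 2 +
        ∑ l ∈ (Finset.range m).erase 0, (μ l : ℝ) * ‖1 - ζ ^ l‖ ^ 2 =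
        ∑ l ∈ Finset.range m, (μ l : ℝ) * ‖1 - ζ ^ l‖ ^ 2 :=
      Finset.add_sum_erase (Finset.range m) (fun l => (μ l : ℝ) * ‖1 - ζ ^ l‖ ^ 2)
        (Finset.mem_range.2 hm)
    have h8 : (μ 0 : ℝ) * ‖1 - ζ ^ 0‖ ^ 2 = 0 := by simp
    rw [h8, zero_add] at h7
    rw [h7]
    have h9 : ∑ l ∈ Finset.range m, (μ l : ℝ) * ‖1 - ζ ^ l‖ ^ 2 =
        2 * ((∑ l ∈ Finset.range m, (μ l : ℝ)) - ∑ l ∈ Finset.range m, (μ l : ℝ) * (ζ ^ l).re) := by
      rw [← Finset.sum_sub_distrib, Finset.mul_sum]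
      refine Finset.sum_congr rfl fun l _ => ?_
      rw [hsq]
      ring
    rw [h9]
    have h10 : (∑ l ∈ Finset.range m, (μ l : ℝ)) = n := by
      exact_mod_cast h2
    have h11 : (trace δ).re = ∑ l ∈ Finset.range m, (μ l : ℝ) * (ζ ^ l).re := by
      have h12 := h1 1
      rw [pow_one] at h12
      rw [h12, Complex.re_sum]
      refine Finset.sum_congr rfl fun l _ => ?_
      rw [one_mul, Complex.mul_re]
      simp
    rw [h10, h11]
  rw [h6, ← h5] at h4
  have h7 : (0 : ℝ) < 4 ^ (d - 1) := by positivity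
  rw [one_div, inv_mul_le_iff₀ h7] at h4
  linarith

end Pool.Agent.MP_03ceb7_al.LS
end
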