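import Pool.Agent.Lib.MP_03ceb7_al.MonoData

section

/-!
# The normal subgroup of the elements which fix almost all points
-/

open Finset Filter

set_option linter.unusedSectionVars false

namespace Pool.Agent.MP_03ceb7_al

section AA

variable {I : Type*} (U : Ultrafilter I) (n : I → ℕ)

/-- The number of points `v < m` without the property `P`. -/
noncomputable def cnt {m : ℕ} (P : Fin m → Prop) : ℕ := {v | ¬ P v}.ncard

theorem cnt_eq {m : ℕ} (P : Fin m → Prop) [DecidablePred fun v => ¬ P v] :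
    cnt P = (Finset.univ.filter fun v => ¬ P v).card := by
  rw [cnt, ← Set.ncard_coe_finset]
  congr 1
  ext v
  simp

theorem cnt_mono {m : ℕ} {P Q : Fin m → Prop} (h : ∀ v, P v → Q v) : cnt Q ≤ cnt P :=
  Set.ncard_le_ncard (fun v hv hP => hv (h v hP)) (Set.toFinite _)

theorem cnt_and {m : ℕ} (P Q : Fin m → Prop) : cnt (fun v => P v ∧ Q v) ≤ cnt P + cnt Q := by
  refine (Set.ncard_le_ncard (fun v hv => ?_) (Set.toFinite _)).trans (Set.ncard_union_le _ _)
  simp only [Set.mem_ofPred_eq, Set.mem_union] at hv ⊢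
  tauto

theorem cnt_perm {m : ℕ} (P : Fin m → Prop) (τ : Equiv.Perm (Fin m)) :
    cnt (fun v => P (τ v)) = cnt P := by
  rw [cnt, cnt]
  refine Set.ncard_congr (fun v _ => τ v) (fun v hv => hv) (fun v w _ _ h => τ.injective h)
    fun w hw => ⟨τ.symm w, ?_, τ.apply_symm_apply w⟩
  rw [Set.mem_ofPred_eq, τ.apply_symm_apply]
  exact hw

/-- The property `P i v` holds for almost all points `v < n i`, along the ultrafilter. -/
def AA (P : ∀ i, Fin (n i) → Prop) : Prop :=
  ∀ η : ℝ, 0 < η → ∀ᶠ i in (U : Filter I), (cnt (P i) : ℝ) ≤ η * n i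

variable {U n}

theorem AA.mono {P Q : ∀ i, Fin (n i) → Prop} (h : AA U n P) (hPQ : ∀ i v, P i v → Q i v) :
    AA U n Q := by
  intro η hη
  filter_upwards [h η hη] with i hi
  refine le_trans ?_ hi
  exact_mod_cast cnt_mono (hPQ i)

theorem AA.and {P Q : ∀ i, Fin (n i) → Prop} (hP : AA U n P) (hQ : AA U n Q) :
    AA U n (fun i v => P i v ∧ Q i v) := by
  intro η hη
  filter_upwards [hP (η / 2) (by linarith), hQ (η / 2) (by linarith)] with i h1 h2
  have h3 : (cnt (fun v => P i v ∧ Q i v) : ℝ) ≤ (cnt (P i) : ℝ) + cnt (Q i) := by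
    exact_mod_cast cnt_and (P i) (Q i)
  linarith

theorem AA.perm {P : ∀ i, Fin (n i) → Prop} (hP : AA U n P) (τ : ∀ i, Equiv.Perm (Fin (n i))) :
    AA U n (fun i v => P i (τ i v)) := by
  intro η hη
  filter_upwards [hP η hη] with i hi
  rw [cnt_perm (P i) (τ i)]
  exact hi

theorem not_AA {P : ∀ i, Fin (n i) → Prop} (h : ¬ AA U n P) :
    ∃ c : ℝ, 0 < c ∧ ∀ᶠ i in (U : Filter I), c * n i ≤ (cnt (P i) : ℝ) := by
  rw [AA] at h
  push Not at h
  obtain ⟨c, hc, h⟩ := h
  refine ⟨c, hc, ?_⟩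
  have h' : ∀ᶠ i in (U : Filter I), ¬ ((cnt (P i) : ℝ) ≤ c * n i) :=
    Ultrafilter.eventually_not.2 (by simpa using h)
  filter_upwards [h'] with i hi
  exact (not_le.1 hi).le

end AA

variable {G : Type*} [Group G] {I : Type*} {U : Ultrafilter I} {n : I → ℕ}
  {σ : ∀ i, G → Equiv.Perm (Fin (n i))}

theorem aa_one (hM : ∀ g h, AA U n fun i v => σ i (g * h) v = σ i g (σ i h v)) :
    AA U n fun i v => σ i 1 v = v := by
  refine (hM 1 1).mono fun i v h => ?_
  rw [mul_one] at h
  exact ((σ i 1).injective h).symm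

theorem aa_inv (hM : ∀ g h, AA U n fun i v => σ i (g * h) v = σ i g (σ i h v)) (g : G) :
    AA U n fun i v => σ i g⁻¹ (σ i g v) = v := by
  refine ((hM g⁻¹ g).and (aa_one hM)).mono fun i v h => ?_
  rw [inv_mul_cancel, h.2] at h
  exact h.1.symm

/-- The elements which fix almost all points. -/
def fixer (hM : ∀ g h, AA U n fun i v => σ i (g * h) v = σ i g (σ i h v)) : Subgroup G where
  carrier := {g | AA U n fun i v => σ i g v = v}
  one_mem' := aa_one hM
  mul_mem' {g h} hg hh := by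
    refine (((hM g h).and hg).and hh).mono fun i v hv => ?_
    rw [hv.1.1, hv.2, hv.1.2]
  inv_mem' {g} hg := by
    refine (hg.and (aa_inv hM g)).mono fun i v hv => ?_
    have h1 := hv.2
    rwa [hv.1] at h1

theorem mem_fixer (hM : ∀ g h, AA U n fun i v => σ i (g * h) v = σ i g (σ i h v)) {g : G} :
    g ∈ fixer hM ↔ AA U n fun i v => σ i g v = v := Iff.rfl

theorem fixer_normal (hM : ∀ g h, AA U n fun i v => σ i (g * h) v = σ i g (σ i h v)) :
    (fixer hM).Normal := by
  refine ⟨fun g hg h => ?_⟩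
  rw [mem_fixer] at hg ⊢
  have h1 := hM (h * g) h⁻¹
  have h2 := (hM h g).perm fun i => σ i h⁻¹
  have h3 := hg.perm fun i => σ i h⁻¹
  have h4 := aa_inv hM h⁻¹
  rw [inv_inv] at h4
  refine (((h1.and h2).and h3).and h4).mono fun i v hv => ?_
  obtain ⟨⟨⟨h1, h2⟩, h3⟩, h4⟩ := hv
  rw [h1, h2, h3, h4]

/-- With phases and traces: the subgroup is commutative. -/
theorem fixer_comm {θ : ∀ i, G → Fin (n i) → ℂ} (hn : ∀ i, 0 < n i)
    (hM : ∀ g h, AA U n fun i v => σ i (g * h) v = σ i g (σ i h v))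
    (hθ : ∀ i g v, ‖θ i g v‖ = 1)
    (hM' : ∀ g h, ∀ η : ℝ, 0 < η →
      AA U n fun i v => ‖θ i (g * h) v - θ i g (σ i h v) * θ i h v‖ ≤ η)
    (hT : ∀ g, g ≠ 1 → ∀ η : ℝ, 0 < η → ∀ᶠ i in (U : Filter I),
      ‖∑ v, if σ i g v = v then θ i g v else 0‖ ≤ η * n i)
    {g h : G} (hg : g ∈ fixer hM) (hh : h ∈ fixer hM) : g * h = h * g := by
  classical
  by_contra hne
  set u : G := (g * h) * (h * g)⁻¹ with hu
  have hu1 : u ≠ 1 := fun h1 => hne (mul_inv_eq_one.1 h1)
  have hub : u * (h * g) = g * h := by rw [hu, inv_mul_cancel_right]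
  have huN : u ∈ fixer hM :=
    (fixer hM).mul_mem ((fixer hM).mul_mem hg hh) ((fixer hM).inv_mem ((fixer hM).mul_mem hh hg))
  have hbN : h * g ∈ fixer hM := (fixer hM).mul_mem hh hg
  have h1 : AA U n fun i v => σ i u v = v ∧ ‖θ i u v - 1‖ ≤ 3 / 20 := by
    have e1 := hM' u (h * g) (1 / 20) (by norm_num)
    have e2 := hM' g h (1 / 20) (by norm_num)
    have e3 := hM' h g (1 / 20) (by norm_num)
    rw [hub] at e1
    refine ((((((e1.and e2).and e3).and huN).and hbN).and hg).and hh).mono fun i v hv => ?_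
    obtain ⟨⟨⟨⟨⟨⟨e1, e2⟩, e3⟩, e4⟩, e5⟩, e6⟩, e7⟩ := hv
    refine ⟨e4, ?_⟩
    rw [e5] at e1
    rw [e7] at e2
    rw [e6] at e3
    have e8 : θ i u v * θ i (h * g) v - θ i (h * g) v =
        -(θ i (g * h) v - θ i u v * θ i (h * g) v) + (θ i (g * h) v - θ i g v * θ i h v) -
          (θ i (h * g) v - θ i h v * θ i g v) := by ring
    have e9 : ‖θ i u v * θ i (h * g) v - θ i (h * g) v‖ ≤ 3 / 20 := by
      rw [e8]
      refine (norm_sub_le _ _).trans ?_
      have e10 := norm_add_le (-(θ i (g * h) v - θ i u v * θ i (h * g) v))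
        (θ i (g * h) v - θ i g v * θ i h v)
      rw [norm_neg] at e10
      linarith
    have e11 : ‖θ i u v * θ i (h * g) v - θ i (h * g) v‖ = ‖θ i u v - 1‖ := by
      rw [← sub_one_mul, norm_mul, hθ, mul_one]
    rwa [e11] at e9
  obtain ⟨i, hi1, hi2⟩ := ((h1 (1 / 20) (by norm_num)).and (hT u hu1 (1 / 4) (by norm_num))).exists
  have hni : (0 : ℝ) < n i := by exact_mod_cast hn i
  -- compare the trace with `n i`
  have h2 : ‖(∑ v, if σ i u v = v then θ i u v else 0) - (n i : ℂ)‖ ≤ 1 / 4 * n i := by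
    have h3 : (∑ v, if σ i u v = v then θ i u v else 0) - (n i : ℂ) =
        ∑ v, ((if σ i u v = v then θ i u v else 0) - 1) := by
      rw [Finset.sum_sub_distrib, Finset.sum_const, Finset.card_univ, Fintype.card_fin,
        nsmul_eq_mul, mul_one]
    rw [h3]
    refine (norm_sum_le _ _).trans ?_
    have h4 : ∀ v : Fin (n i), ‖(if σ i u v = v then θ i u v else 0) - 1‖ ≤
        3 / 20 + if ¬ (σ i u v = v ∧ ‖θ i u v - 1‖ ≤ 3 / 20) then 2 else 0 := by
      intro v
      by_cases h5 : σ i u v = v ∧ ‖θ i u v - 1‖ ≤ 3 / 20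
      · rw [if_pos h5.1, if_neg (not_not.2 h5), add_zero]
        exact h5.2
      · rw [if_pos h5]
        refine (norm_sub_le _ _).trans ?_
        rw [norm_one]
        split_ifs
        · rw [hθ]; norm_num
        · rw [norm_zero]; norm_num
    refine (Finset.sum_le_sum fun v _ => h4 v).trans ?_
    rw [cnt_eq] at hi1
    rw [Finset.sum_add_distrib, Finset.sum_const, Finset.card_univ, Fintype.card_fin, nsmul_eq_mul,
      ← Finset.sum_filter, Finset.sum_const, nsmul_eq_mul]
    linarith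
  have h5 : (n i : ℝ) ≤ ‖(∑ v, if σ i u v = v then θ i u v else 0) - (n i : ℂ)‖ +
      ‖∑ v, if σ i u v = v then θ i u v else 0‖ := by
    have h6 := norm_sub_le (∑ v, if σ i u v = v then θ i u v else 0)
      ((∑ v, if σ i u v = v then θ i u v else 0) - (n i : ℂ))
    rw [sub_sub_cancel, Complex.norm_natCast] at h6
    linarith
  linarith

end Pool.Agent.MP_03ceb7_al
end

section

/-!
# Abelian groups without elements of order prime to `p` are locally `p`-indicable
-/

open Finset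

set_option linter.unusedSectionVars false

namespace Pool.Agent.MP_03ceb7_al

/-- A finitely generated module over the integers which has no torsion prime to `p` and is divisible
by `p` is trivial. -/
theorem eq_zero_of_divisible {A : Type*} [AddCommGroup A] {p : ℕ} (hp : p.Prime)
    [Module.Finite ℤ A] (hA : ∀ (m : ℕ) (a : A), ¬ p ∣ m → m • a = 0 → a = 0)
    (hd : ∀ a : A, ∃ b : A, p • b = a) (a : A) : a = 0 := by
  obtain ⟨r, hr, hr'⟩ := Submodule.exists_sub_one_mem_and_smul_eq_zero_of_fg_of_le_smul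
    (Ideal.span {(p : ℤ)}) (⊤ : Submodule ℤ A) Module.Finite.fg_top (by
      intro x _
      obtain ⟨b, hb⟩ := hd x
      rw [← hb, ← natCast_zsmul]
      exact Submodule.smul_mem_smul (Ideal.mem_span_singleton_self _) Submodule.mem_top)
  rw [Ideal.mem_span_singleton] at hr
  have h1 : r • a = 0 := hr' a Submodule.mem_top
  refine hA r.natAbs a (fun h => ?_) ?_
  · have h2 : (p : ℤ) ∣ r := Int.natCast_dvd.2 h
    have h3 : (p : ℤ) ∣ 1 := by
      have := dvd_sub h2 hr
      simpa using this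
    exact hp.one_lt.ne' (Nat.dvd_one.1 (by exact_mod_cast h3))
  · rcases Int.natAbs_eq r with h | h
    · rw [← natCast_zsmul, ← h]; exact h1
    · have h2 : ((r.natAbs : ℕ) : ℤ) = -r := by omega
      rw [← natCast_zsmul, h2, neg_zsmul, h1, neg_zero]

theorem exists_hom_field {K : Type*} [Field K] {Q : Type*} [AddCommGroup Q] [Module K Q] {q : Q}
    (hq : q ≠ 0) : ∃ f : Q →+ K, f q ≠ 0 := by
  by_contra hcon
  push Not at hcon
  exact hq ((Module.forall_dual_apply_eq_zero_iff K q).1 fun φ => hcon (LinearMap.toAddMonoidHom φ))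

/-- Homomorphisms of elementary abelian groups. -/
theorem exists_hom_elementary {Q : Type*} [AddCommGroup Q] {p : ℕ} [Fact p.Prime]
    (hQ : ∀ q : Q, p • q = 0) {q : Q} (hq : q ≠ 0) : ∃ f : Q →+ ZMod p, f q ≠ 0 :=
  @exists_hom_field (ZMod p) _ Q _ (AddCommGroup.zmodModule hQ) q hq

/-- A nontrivial finitely generated abelian group without torsion prime to `p` has a nontrivial
homomorphism to the group of order `p`. -/
theorem exists_hom {A : Type*} [AddCommGroup A] {p : ℕ} [hp : Fact p.Prime]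
    [Module.Finite ℤ A] (hA : ∀ (m : ℕ) (a : A), ¬ p ∣ m → m • a = 0 → a = 0)
    (hne : ∃ a : A, a ≠ 0) : ∃ f : A →+ ZMod p, f ≠ 0 := by
  classical
  obtain ⟨a, ha⟩ : ∃ a : A, ∀ b : A, p • b ≠ a := by
    by_contra hcon
    push Not at hcon
    obtain ⟨a, ha⟩ := hne
    exact ha (eq_zero_of_divisible hp.out hA hcon a)
  have hP : ∀ q : A ⧸ (nsmulAddMonoidHom (α := A) p).range, p • q = 0 := by
    intro q
    obtain ⟨x, rfl⟩ := QuotientAddGroup.mk_surjective q
    rw [← QuotientAddGroup.mk_nsmul, QuotientAddGroup.eq_zero_iff]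
    exact ⟨x, rfl⟩
  have hna : (QuotientAddGroup.mk a : A ⧸ (nsmulAddMonoidHom (α := A) p).range) ≠ 0 := by
    rw [Ne, QuotientAddGroup.eq_zero_iff]
    rintro ⟨b, hb⟩
    exact ha b hb
  obtain ⟨φ, hφ⟩ := exists_hom_elementary hP hna
  refine ⟨φ.comp (QuotientAddGroup.mk' _), fun h => hφ ?_⟩
  exact DFunLike.congr_fun h a

/-- A commutative subgroup without elements of order prime to `p` is locally `p`-indicable. -/
theorem locallyIndicable_of_comm {G : Type*} [Group G] {p : ℕ} [Fact p.Prime] {N : Subgroup G}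
    (hN : ∀ g ∈ N, ∀ h ∈ N, g * h = h * g)
    (hG : ∀ (m : ℕ), ∀ g ∈ N, ¬ p ∣ m → g ^ m = 1 → g = 1) : LocallyIndicable p N := by
  intro M hM hfg hne
  let _ : CommGroup M := { (inferInstance : Group M) with
    mul_comm := fun a b => Subtype.ext (hN a (hM a.2) b (hM b.2)) }
  have h1 : Module.Finite ℤ (Additive M) := by
    rw [Module.Finite.iff_addGroup_fg]
    have h2 : Group.FG M := (Group.fg_iff_subgroup_fg M).2 hfg
    infer_instance
  have h3 : ∀ (m : ℕ) (a : Additive M), ¬ p ∣ m → m • a = 0 → a = 0 := by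
    intro m a hm h
    have h4 : (((a.toMul : M) ^ m : M) : G) = 1 := congrArg (fun b : Additive M => ((b.toMul : M) : G)) h
    rw [Subgroup.coe_pow] at h4
    have h5 := hG m _ (hM a.toMul.2) hm h4
    exact congrArg Additive.ofMul (Subtype.ext h5 : a.toMul = 1)
  obtain ⟨x, hx⟩ := Subgroup.ne_bot_iff_exists_ne_one.1 hne
  obtain ⟨f, hf⟩ := exists_hom (A := Additive M) (p := p) h3 ⟨Additive.ofMul x, fun h => hx h⟩
  refine ⟨MonoidHom.mk' (fun a => Multiplicative.ofAdd (f (Additive.ofMul a)))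
    fun a b => by rw [← ofAdd_add, ← map_add]; rfl, fun h => hf ?_⟩
  refine AddMonoidHom.ext fun a => ?_
  exact congrArg Multiplicative.toAdd (DFunLike.congr_fun h a.toMul)

end Pool.Agent.MP_03ceb7_al
end
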